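import Pool.Agent.Strip051.Sine.Defs

/-! # The function `A` -/

namespace Pool.Agent.Strip051.Sine

open Pool.Agent.StripNear Pool.Agent.Strip051.Sweep

open MeasureTheory in
private lemma diff_under (g F F' : ℝ → ℝ → ℝ) (bd : ℝ) (u : ℝ)
    (hF : ∀ x t, F x t = g x t)
    (hc : ∀ x, Continuous (F x)) (hc' : ∀ x, Continuous (F' x))
    (hb : ∀ x t, t ∈ Set.uIoc (0 : ℝ) 1 → |F' x t| ≤ bd)
    (hd : ∀ x t, HasDerivAt (fun y => F y t) (F' x t) x) :
    HasDerivAt (fun x => ∫ t in (0 : ℝ)..1, g x t) (∫ t in (0 : ℝ)..1, F' u t) u := by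
  have h := intervalIntegral.hasDerivAt_integral_of_dominated_loc_of_deriv_le
    (μ := volume) (F := F) (F' := F') (x₀ := u) (s := Set.univ) (a := 0) (b := 1)
    (bound := fun _ => bd) Filter.univ_mem
    (Filter.Eventually.of_forall fun x => (hc x).aestronglyMeasurable)
    ((hc u).intervalIntegrable 0 1) ((hc' u).aestronglyMeasurable)
    (Filter.Eventually.of_forall fun t ht x _ => by
      rw [Real.norm_eq_abs]; exact hb x t ht)
    intervalIntegrable_const
    (Filter.Eventually.of_forall fun t _ x _ => hd x t)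
  have h2 := h.2
  have e : (fun x => ∫ t in (0 : ℝ)..1, F x t) = (fun x => ∫ t in (0 : ℝ)..1, g x t) := by
    funext x
    exact intervalIntegral.integral_congr fun t _ => hF x t
  rw [e] at h2
  exact h2

private lemma abs_int_le (f g : ℝ → ℝ) (hf : Continuous f) (hg : Continuous g)
    (h : ∀ t ∈ Set.Icc (0 : ℝ) 1, |f t| ≤ g t) :
    |∫ t in (0 : ℝ)..1, f t| ≤ ∫ t in (0 : ℝ)..1, g t := by
  refine (intervalIntegral.abs_integral_le_integral_abs zero_le_one).trans ?_
  exact intervalIntegral.integral_mono_on zero_le_one (hf.abs.intervalIntegrable 0 1)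
    (hg.intervalIntegrable 0 1) h

/-- For all `u`: `(d/dt) ((1-u²) sin (π u t) + (u/2) ((1+u) sin (π (1-u) t) + (1-u) sin (π (1+u) t)))`
is `π u (1-u²) (1 + cos π t) cos (π u t)`. -/
theorem A_mul (u : ℝ) : Real.pi * u * (1 - u ^ 2) * A u = Real.sin (Real.pi * u) := by
  have hd : ∀ t : ℝ, HasDerivAt (fun t : ℝ => (1 - u ^ 2) * Real.sin (Real.pi * u * t) +
      u / 2 * ((1 + u) * Real.sin (Real.pi * (1 - u) * t) +
        (1 - u) * Real.sin (Real.pi * (1 + u) * t)))
      (Real.pi * u * (1 - u ^ 2) * ((1 + Real.cos (Real.pi * t)) * Real.cos (Real.pi * u * t)))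
      t := by
    intro t
    have hs : ∀ c : ℝ, HasDerivAt (fun t : ℝ => Real.sin (c * t)) (Real.cos (c * t) * c) t := by
      intro c
      have := ((hasDerivAt_id t).const_mul c).sin
      simpa using this
    have h := ((hs (Real.pi * u)).const_mul (1 - u ^ 2)).add
      ((((hs (Real.pi * (1 - u))).const_mul (1 + u)).add
        ((hs (Real.pi * (1 + u))).const_mul (1 - u))).const_mul (u / 2))
    refine h.congr_deriv ?_
    have e1 : Real.cos (Real.pi * (1 - u) * t) =
        Real.cos (Real.pi * t) * Real.cos (Real.pi * u * t) +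
          Real.sin (Real.pi * t) * Real.sin (Real.pi * u * t) := by
      rw [← Real.cos_sub]; congr 1; ring
    have e2 : Real.cos (Real.pi * (1 + u) * t) =
        Real.cos (Real.pi * t) * Real.cos (Real.pi * u * t) -
          Real.sin (Real.pi * t) * Real.sin (Real.pi * u * t) := by
      rw [← Real.cos_add]; congr 1; ring
    rw [e1, e2]
    ring
  have hi := intervalIntegral.integral_eq_sub_of_hasDerivAt (a := 0) (b := 1)
    (fun t _ => hd t) ((by fun_prop : Continuous fun t : ℝ =>
      (Real.pi * u * (1 - u ^ 2) *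
        ((1 + Real.cos (Real.pi * t)) * Real.cos (Real.pi * u * t)))).intervalIntegrable 0 1)
  rw [intervalIntegral.integral_const_mul] at hi
  rw [A, hi]
  have e1 : Real.sin (Real.pi * (1 - u) * 1) = Real.sin (Real.pi * u) := by
    rw [← Real.sin_pi_sub (Real.pi * u)]; congr 1; ring
  have e2 : Real.sin (Real.pi * (1 + u) * 1) = -Real.sin (Real.pi * u) := by
    rw [← Real.sin_add_pi (Real.pi * u)]; congr 1; ring
  rw [e1, e2]
  simp only [mul_zero, Real.sin_zero, mul_one]
  ring

theorem A_neg (u : ℝ) : A (-u) = A u := by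
  unfold A
  refine intervalIntegral.integral_congr fun t _ => ?_
  have : Real.pi * -u * t = -(Real.pi * u * t) := by ring
  simp only [this, Real.cos_neg]

theorem A1_neg (u : ℝ) : A1 (-u) = -A1 u := by
  have h : (∫ t in (0 : ℝ)..1,
      (1 + Real.cos (Real.pi * t)) * (Real.pi * t) * Real.sin (Real.pi * -u * t)) =
      -∫ t in (0 : ℝ)..1,
        (1 + Real.cos (Real.pi * t)) * (Real.pi * t) * Real.sin (Real.pi * u * t) := by
    rw [← intervalIntegral.integral_neg]
    refine intervalIntegral.integral_congr fun t _ => ?_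
    have : Real.pi * -u * t = -(Real.pi * u * t) := by ring
    simp only [this, Real.sin_neg]
    ring
  rw [A1, A1, h]

private lemma w_nonneg (t : ℝ) : 0 ≤ 1 + Real.cos (Real.pi * t) := by
  linarith [Real.neg_one_le_cos (Real.pi * t)]

private lemma w_le (t : ℝ) : 1 + Real.cos (Real.pi * t) ≤ 2 := by
  linarith [Real.cos_le_one (Real.pi * t)]

theorem hasDerivAt_A (u : ℝ) : HasDerivAt A (A1 u) u := by
  have h := diff_under
    (fun u t => (1 + Real.cos (Real.pi * t)) * Real.cos (Real.pi * u * t))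
    (fun u t => (1 + Real.cos (Real.pi * t)) * Real.cos (Real.pi * u * t))
    (fun u t => -((1 + Real.cos (Real.pi * t)) * (Real.pi * t) * Real.sin (Real.pi * u * t)))
    (2 * Real.pi) u (fun _ _ => rfl) (fun x => by fun_prop) (fun x => by fun_prop) ?_ ?_
  · have e : (∫ t in (0 : ℝ)..1,
        -((1 + Real.cos (Real.pi * t)) * (Real.pi * t) * Real.sin (Real.pi * u * t))) = A1 u := by
      rw [intervalIntegral.integral_neg]; rfl
    rw [e] at h
    exact h
  · intro x t ht
    rw [Set.uIoc_of_le zero_le_one] at ht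
    rw [abs_neg, abs_mul, abs_mul, abs_of_nonneg (w_nonneg t)]
    have h0 : 0 ≤ Real.pi * t := mul_nonneg Real.pi_pos.le ht.1.le
    rw [abs_of_nonneg h0]
    have h1 : Real.pi * t ≤ Real.pi := by nlinarith [Real.pi_pos, ht.2]
    calc (1 + Real.cos (Real.pi * t)) * (Real.pi * t) * |Real.sin (Real.pi * x * t)|
        ≤ (1 + Real.cos (Real.pi * t)) * (Real.pi * t) * 1 :=
          mul_le_mul_of_nonneg_left (Real.abs_sin_le_one _) (mul_nonneg (w_nonneg t) h0)
      _ ≤ 2 * Real.pi := by
          rw [mul_one]; exact mul_le_mul (w_le t) h1 h0 (by norm_num)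
  · intro x t
    have h1 : HasDerivAt (fun y : ℝ => Real.pi * y * t) (Real.pi * t) x := by
      have := ((hasDerivAt_id x).const_mul Real.pi).mul_const t
      simpa using this
    refine (h1.cos.const_mul (1 + Real.cos (Real.pi * t))).congr_deriv ?_
    ring

theorem hasDerivAt_A1 (u : ℝ) : HasDerivAt A1 (A2 u) u := by
  have h := diff_under
    (fun u t => -((1 + Real.cos (Real.pi * t)) * (Real.pi * t) * Real.sin (Real.pi * u * t)))
    (fun u t => -((1 + Real.cos (Real.pi * t)) * (Real.pi * t) * Real.sin (Real.pi * u * t)))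
    (fun u t => -((1 + Real.cos (Real.pi * t)) * (Real.pi * t) ^ 2 * Real.cos (Real.pi * u * t)))
    (2 * Real.pi ^ 2) u (fun _ _ => rfl) (fun x => by fun_prop) (fun x => by fun_prop) ?_ ?_
  · have e : (∫ t in (0 : ℝ)..1,
        -((1 + Real.cos (Real.pi * t)) * (Real.pi * t) ^ 2 * Real.cos (Real.pi * u * t))) =
          A2 u := by
      rw [intervalIntegral.integral_neg]; rfl
    rw [e] at h
    have e2 : A1 = fun u => ∫ t in (0 : ℝ)..1,
        -((1 + Real.cos (Real.pi * t)) * (Real.pi * t) * Real.sin (Real.pi * u * t)) := by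
      funext v
      rw [intervalIntegral.integral_neg]; rfl
    rw [e2]
    exact h
  · intro x t ht
    rw [Set.uIoc_of_le zero_le_one] at ht
    rw [abs_neg, abs_mul, abs_mul, abs_of_nonneg (w_nonneg t)]
    have h0 : 0 ≤ Real.pi * t := mul_nonneg Real.pi_pos.le ht.1.le
    rw [abs_of_nonneg (pow_nonneg h0 2)]
    have h1 : Real.pi * t ≤ Real.pi := by nlinarith [Real.pi_pos, ht.2]
    have h2 : (Real.pi * t) ^ 2 ≤ Real.pi ^ 2 := pow_le_pow_left₀ h0 h1 2
    calc (1 + Real.cos (Real.pi * t)) * (Real.pi * t) ^ 2 * |Real.cos (Real.pi * x * t)|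
        ≤ (1 + Real.cos (Real.pi * t)) * (Real.pi * t) ^ 2 * 1 :=
          mul_le_mul_of_nonneg_left (Real.abs_cos_le_one _)
            (mul_nonneg (w_nonneg t) (pow_nonneg h0 2))
      _ ≤ 2 * Real.pi ^ 2 := by
          rw [mul_one]; exact mul_le_mul (w_le t) h2 (pow_nonneg h0 2) (by norm_num)
  · intro x t
    have h1 : HasDerivAt (fun y : ℝ => Real.pi * y * t) (Real.pi * t) x := by
      have := ((hasDerivAt_id x).const_mul Real.pi).mul_const t
      simpa using this
    refine ((h1.sin.const_mul ((1 + Real.cos (Real.pi * t)) * (Real.pi * t))).neg).congr_deriv ?_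
    ring

private lemma hsin (t : ℝ) : HasDerivAt (fun t : ℝ => Real.sin (Real.pi * t))
    (Real.cos (Real.pi * t) * Real.pi) t := by
  have := ((hasDerivAt_id t).const_mul Real.pi).sin
  simpa using this

private lemma hcos (t : ℝ) : HasDerivAt (fun t : ℝ => Real.cos (Real.pi * t))
    (-Real.sin (Real.pi * t) * Real.pi) t := by
  have := ((hasDerivAt_id t).const_mul Real.pi).cos
  simpa using this

private lemma int0 : (∫ t in (0 : ℝ)..1, (1 + Real.cos (Real.pi * t))) = 1 := by
  have hp := Real.pi_ne_zero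
  have hd : ∀ t : ℝ, HasDerivAt (fun t : ℝ => t + Real.sin (Real.pi * t) / Real.pi)
      (1 + Real.cos (Real.pi * t)) t := by
    intro t
    refine ((hasDerivAt_id' t).add ((hsin t).div_const Real.pi)).congr_deriv ?_
    field_simp
  rw [intervalIntegral.integral_eq_sub_of_hasDerivAt (fun t _ => hd t)
    ((by fun_prop : Continuous fun t : ℝ => 1 + Real.cos (Real.pi * t)).intervalIntegrable 0 1)]
  simp

private lemma int1 : (∫ t in (0 : ℝ)..1, (1 + Real.cos (Real.pi * t)) * (Real.pi * t)) =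
    Real.pi / 2 - 2 / Real.pi := by
  have hp := Real.pi_ne_zero
  have hd : ∀ t : ℝ, HasDerivAt (fun t : ℝ => Real.pi / 2 * t ^ 2 + t * Real.sin (Real.pi * t) +
      Real.cos (Real.pi * t) / Real.pi)
      ((1 + Real.cos (Real.pi * t)) * (Real.pi * t)) t := by
    intro t
    refine ((((hasDerivAt_pow 2 t).const_mul (Real.pi / 2)).add
      ((hasDerivAt_id' t).mul (hsin t))).add ((hcos t).div_const Real.pi)).congr_deriv ?_
    field_simp
    push_cast
    ring
  rw [intervalIntegral.integral_eq_sub_of_hasDerivAt (fun t _ => hd t)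
    ((by fun_prop : Continuous fun t : ℝ =>
      (1 + Real.cos (Real.pi * t)) * (Real.pi * t)).intervalIntegrable 0 1)]
  simp
  ring

private lemma int2 : (∫ t in (0 : ℝ)..1, (1 + Real.cos (Real.pi * t)) * (Real.pi * t) ^ 2) =
    Real.pi ^ 2 / 3 - 2 := by
  have hp := Real.pi_ne_zero
  have hd : ∀ t : ℝ, HasDerivAt (fun t : ℝ => Real.pi ^ 2 / 3 * t ^ 3 +
      (Real.pi * t ^ 2 * Real.sin (Real.pi * t) + 2 * t * Real.cos (Real.pi * t) -
        2 / Real.pi * Real.sin (Real.pi * t)))
      ((1 + Real.cos (Real.pi * t)) * (Real.pi * t) ^ 2) t := by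
    intro t
    have h1 := (hasDerivAt_pow 3 t).const_mul (Real.pi ^ 2 / 3)
    have h2 := ((hasDerivAt_pow 2 t).const_mul Real.pi).mul (hsin t)
    have h3 := ((hasDerivAt_id' t).const_mul 2).mul (hcos t)
    have h4 := (hsin t).const_mul (2 / Real.pi)
    refine (h1.add ((h2.add h3).sub h4)).congr_deriv ?_
    field_simp
    push_cast
    ring
  rw [intervalIntegral.integral_eq_sub_of_hasDerivAt (fun t _ => hd t)
    ((by fun_prop : Continuous fun t : ℝ =>
      (1 + Real.cos (Real.pi * t)) * (Real.pi * t) ^ 2).intervalIntegrable 0 1)]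
  simp
  ring

/-- `∫₀¹ (1 + cos π t) dt = 1`. -/
theorem abs_A_le (u : ℝ) : |A u| ≤ 1 := by
  refine le_of_le_of_eq ?_ int0
  rw [A]
  refine abs_int_le _ _ (by fun_prop) (by fun_prop) fun t _ => ?_
  rw [abs_mul, abs_of_nonneg (w_nonneg t)]
  exact mul_le_of_le_one_right (w_nonneg t) (Real.abs_cos_le_one _)

/-- `∫₀¹ (1 + cos π t) π t dt = π / 2 - 2 / π = 0.93418...`. -/
theorem abs_A1_le (u : ℝ) : |A1 u| ≤ 0.935 := by
  have h : |A1 u| ≤ Real.pi / 2 - 2 / Real.pi := by
    rw [A1, ← int1, abs_neg]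
    refine abs_int_le _ _ (by fun_prop) (by fun_prop) fun t ht => ?_
    have h0 : 0 ≤ Real.pi * t := mul_nonneg Real.pi_pos.le ht.1
    rw [abs_mul, abs_of_nonneg (mul_nonneg (w_nonneg t) h0)]
    exact mul_le_of_le_one_right (mul_nonneg (w_nonneg t) h0) (Real.abs_sin_le_one _)
  refine h.trans ?_
  have hp := Real.pi_lt_d4
  have hp0 := Real.pi_pos
  rw [div_sub_div _ _ two_ne_zero hp0.ne', div_le_iff₀ (by positivity)]
  nlinarith [Real.pi_gt_d4]

/-- `∫₀¹ (1 + cos π t) (π t)² dt = π² / 3 - 2 = 1.28987...`. -/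
theorem abs_A2_le (u : ℝ) : |A2 u| ≤ 1.29 := by
  have h : |A2 u| ≤ Real.pi ^ 2 / 3 - 2 := by
    rw [A2, ← int2, abs_neg]
    refine abs_int_le _ _ (by fun_prop) (by fun_prop) fun t _ => ?_
    rw [abs_mul, abs_of_nonneg (mul_nonneg (w_nonneg t) (sq_nonneg _))]
    exact mul_le_of_le_one_right (mul_nonneg (w_nonneg t) (sq_nonneg _)) (Real.abs_cos_le_one _)
  refine h.trans ?_
  have hp := Real.pi_lt_d4
  have hp0 := Real.pi_pos
  nlinarith

end Pool.Agent.Strip051.Sine
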