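import Mathlib

/-! # A small verified arithmetic of balls with integer centres

`Has b x`: the real number `x` satisfies `|x * 10^15 - b.c| ≤ b.r`. -/

namespace Pool.Agent.Strip051.Sine

/-- Centre and radius, scaled by `10 ^ 15`. -/
structure Ball where
  c : Int
  r : Int

namespace Ball

/-- The scale. -/
def sc : Int := 1000000000000000

/-- Membership. -/
def Has (b : Ball) (x : ℝ) : Prop := |x * 10 ^ 15 - (b.c : ℝ)| ≤ (b.r : ℝ)

def one : Ball := ⟨1000000000000000, 0⟩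

def add (a b : Ball) : Ball := ⟨a.c + b.c, a.r + b.r⟩

def sub (a b : Ball) : Ball := ⟨a.c - b.c, a.r + b.r⟩

def neg (a : Ball) : Ball := ⟨-a.c, a.r⟩

/-- Multiplication by an integer. -/
def zmul (k : Int) (a : Ball) : Ball := ⟨k * a.c, k.natAbs * a.r⟩

def mul (a b : Ball) : Ball :=
  ⟨a.c * b.c / sc, (a.c.natAbs * b.r + b.c.natAbs * a.r + a.r * b.r) / sc + 2⟩

/-- Division by a positive integer. -/
def zdiv (a : Ball) (d : Int) : Ball := ⟨a.c / d, a.r / d + 2⟩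

/-- Division of balls: `x = v * y`. -/
def div (x y : Ball) : Ball :=
  let v := x.c * sc / y.c
  ⟨v, ((x.c * sc - v * y.c).natAbs + x.r * sc + v.natAbs * y.r) / (y.c.natAbs - y.r) + 1⟩

theorem has_one : Has one 1 := by
  unfold Has one
  norm_num

theorem Has.r_nonneg {a : Ball} {x : ℝ} (h : Has a x) : 0 ≤ a.r := by
  have h1 : (0 : ℝ) ≤ a.r := (abs_nonneg _).trans h
  exact_mod_cast h1

theorem has_add {a b : Ball} {x y : ℝ} (ha : Has a x) (hb : Has b y) : Has (add a b) (x + y) := by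
  unfold Has add at *
  push_cast
  have h1 : (x + y) * 10 ^ 15 - ((a.c : ℝ) + b.c) = (x * 10 ^ 15 - a.c) + (y * 10 ^ 15 - b.c) := by
    ring
  rw [h1]
  exact (abs_add_le _ _).trans (add_le_add ha hb)

theorem has_sub {a b : Ball} {x y : ℝ} (ha : Has a x) (hb : Has b y) : Has (sub a b) (x - y) := by
  unfold Has sub at *
  push_cast
  have h1 : (x - y) * 10 ^ 15 - ((a.c : ℝ) - b.c) = (x * 10 ^ 15 - a.c) - (y * 10 ^ 15 - b.c) := by
    ring
  rw [h1]
  exact (abs_sub _ _).trans (add_le_add ha hb)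

theorem has_neg {a : Ball} {x : ℝ} (ha : Has a x) : Has (neg a) (-x) := by
  unfold Has neg at *
  push_cast
  have h1 : -x * 10 ^ 15 - (-(a.c : ℝ)) = -(x * 10 ^ 15 - a.c) := by ring
  rw [h1, abs_neg]
  exact ha

theorem has_zmul {a : Ball} {x : ℝ} (k : Int) (ha : Has a x) : Has (zmul k a) (k * x) := by
  unfold Has zmul at *
  push_cast
  have h1 : (k : ℝ) * x * 10 ^ 15 - k * a.c = k * (x * 10 ^ 15 - a.c) := by ring
  rw [h1, abs_mul]
  have h2 : (|k| : ℤ) = k.natAbs := Int.abs_eq_natAbs k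
  have h3 : |(k : ℝ)| = ((k.natAbs : ℕ) : ℝ) := by
    rw [← Int.cast_abs, h2]
    simp
  rw [h3]
  exact mul_le_mul_of_nonneg_left ha (Nat.cast_nonneg _)

theorem ediv_bounds (a : Int) {d : Int} (hd : 0 < d) :
    ((a / d : Int) : ℝ) ≤ (a : ℝ) / d ∧ (a : ℝ) / d < ((a / d : Int) : ℝ) + 1 := by
  have hd' : (0 : ℝ) < d := by exact_mod_cast hd
  have h1 := Int.ediv_mul_le a hd.ne'
  have h2 := Int.lt_ediv_add_one_mul_self a hd
  constructor
  · rw [le_div_iff₀ hd']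
    exact_mod_cast h1
  · rw [div_lt_iff₀ hd']
    exact_mod_cast h2

theorem abs_c_le {a : Ball} : |(a.c : ℝ)| = ((a.c.natAbs : ℕ) : ℝ) := by
  rw [← Int.cast_abs, Int.abs_eq_natAbs]
  simp

theorem has_mul {a b : Ball} {x y : ℝ} (ha : Has a x) (hb : Has b y) : Has (mul a b) (x * y) := by
  have hra := ha.r_nonneg
  have hrb := hb.r_nonneg
  unfold Has at ha hb
  unfold Has mul
  have hs : (0 : Int) < sc := by norm_num [sc]
  have hsr : (sc : ℝ) = 10 ^ 15 := by norm_num [sc]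
  obtain ⟨h1, h2⟩ := ediv_bounds (a.c * b.c) hs
  obtain ⟨h3, h4⟩ := ediv_bounds (a.c.natAbs * b.r + b.c.natAbs * a.r + a.r * b.r : Int) hs
  push_cast at h1 h2 h3 h4 ⊢
  rw [hsr] at h1 h2 h3 h4
  set u := x * 10 ^ 15 - a.c with hu
  set v := y * 10 ^ 15 - b.c with hv
  have e : x * y * 10 ^ 15 = ((a.c : ℝ) * b.c + a.c * v + b.c * u + u * v) / 10 ^ 15 := by
    have e1 : x * 10 ^ 15 = a.c + u := by rw [hu]; ring
    have e2 : y * 10 ^ 15 = b.c + v := by rw [hv]; ring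
    have e3 : x * y * 10 ^ 15 = (x * 10 ^ 15) * (y * 10 ^ 15) / 10 ^ 15 := by ring
    rw [e3, e1, e2]
    ring
  have b1 : |(a.c : ℝ) * v + b.c * u + u * v| ≤
      |(a.c : ℝ)| * b.r + |(b.c : ℝ)| * a.r + a.r * b.r := by
    have c1 : |(a.c : ℝ) * v| ≤ |(a.c : ℝ)| * b.r := by
      rw [abs_mul]
      exact mul_le_mul_of_nonneg_left hb (abs_nonneg _)
    have c2 : |(b.c : ℝ) * u| ≤ |(b.c : ℝ)| * a.r := by
      rw [abs_mul]
      exact mul_le_mul_of_nonneg_left ha (abs_nonneg _)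
    have c3 : |u * v| ≤ a.r * b.r := by
      rw [abs_mul]
      exact mul_le_mul ha hb (abs_nonneg _) (by exact_mod_cast hra)
    have := abs_add_three ((a.c : ℝ) * v) (b.c * u) (u * v)
    linarith
  rw [abs_le] at b1 ⊢
  have k1 : x * y * 10 ^ 15 = (a.c : ℝ) * b.c / 10 ^ 15 +
      ((a.c : ℝ) * v + b.c * u + u * v) / 10 ^ 15 := by
    rw [e]
    ring
  have k2 : ((a.c : ℝ) * v + b.c * u + u * v) / 10 ^ 15 ≤
      (|(a.c : ℝ)| * b.r + |(b.c : ℝ)| * a.r + a.r * b.r) / 10 ^ 15 := by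
    apply div_le_div_of_nonneg_right b1.2
    positivity
  have k3 : -((|(a.c : ℝ)| * b.r + |(b.c : ℝ)| * a.r + a.r * b.r) / 10 ^ 15) ≤
      ((a.c : ℝ) * v + b.c * u + u * v) / 10 ^ 15 := by
    rw [← neg_div]
    apply div_le_div_of_nonneg_right b1.1
    positivity
  rw [k1]
  constructor <;> linarith

theorem has_zdiv {a : Ball} {x : ℝ} {d : Int} (hd : 0 < d) (ha : Has a x) :
    Has (zdiv a d) (x / d) := by
  unfold Has at ha
  unfold Has zdiv
  have hd' : (0 : ℝ) < d := by exact_mod_cast hd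
  obtain ⟨h1, h2⟩ := ediv_bounds a.c hd
  obtain ⟨h3, h4⟩ := ediv_bounds a.r hd
  push_cast
  have e : x / d * 10 ^ 15 = (x * 10 ^ 15) / d := by ring
  rw [abs_le] at ha ⊢
  have k1 : (x * 10 ^ 15) / d = a.c / d + (x * 10 ^ 15 - a.c) / d := by ring
  have k2 : (x * 10 ^ 15 - a.c) / d ≤ a.r / d := div_le_div_of_nonneg_right ha.2 hd'.le
  have k3 : -((a.r : ℝ) / d) ≤ (x * 10 ^ 15 - a.c) / d := by
    rw [← neg_div]
    exact div_le_div_of_nonneg_right ha.1 hd'.le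
  rw [e, k1]
  constructor <;> linarith

theorem has_div {x y : Ball} {a b v : ℝ} (hx : Has x a) (hy : Has y b) (hv : a = v * b)
    (hr : y.r < y.c.natAbs) : Has (div x y) v := by
  have hrx := hx.r_nonneg
  have hry := hy.r_nonneg
  unfold Has at hx hy
  unfold Has div
  set w : Int := x.c * sc / y.c with hw
  have hsr : (sc : ℝ) = 10 ^ 15 := by norm_num [sc]
  have hd : (0 : Int) < y.c.natAbs - y.r := by omega
  have hd' : (0 : ℝ) < |(y.c : ℝ)| - y.r := by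
    have h1 : (0 : ℝ) < ((y.c.natAbs - y.r : ℤ) : ℝ) := by exact_mod_cast hd
    push_cast at h1
    exact h1
  obtain ⟨h1, h2⟩ := ediv_bounds
    ((x.c * sc - w * y.c).natAbs + x.r * sc + w.natAbs * y.r : Int) hd
  push_cast at h1 h2 ⊢
  rw [hsr] at h1 h2
  have hyb : |(y.c : ℝ)| - y.r ≤ |b * 10 ^ 15| := by
    have := abs_sub_abs_le_abs_sub (y.c : ℝ) (b * 10 ^ 15)
    rw [abs_sub_comm] at this
    linarith
  have key : |(v * 10 ^ 15 - w) * (b * 10 ^ 15)| ≤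
      |(x.c : ℝ) * 10 ^ 15 - w * y.c| + x.r * 10 ^ 15 + |(w : ℝ)| * y.r := by
    have e : (v * 10 ^ 15 - w) * (b * 10 ^ 15) = ((x.c : ℝ) * 10 ^ 15 - w * y.c) +
        (a * 10 ^ 15 - x.c) * 10 ^ 15 - w * (b * 10 ^ 15 - y.c) := by
      rw [hv]
      ring
    rw [e]
    have c1 := abs_sub (((x.c : ℝ) * 10 ^ 15 - w * y.c) + (a * 10 ^ 15 - x.c) * 10 ^ 15)
      (w * (b * 10 ^ 15 - y.c))
    have c2 := abs_add_le ((x.c : ℝ) * 10 ^ 15 - w * y.c) ((a * 10 ^ 15 - x.c) * 10 ^ 15)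
    have c3 : |(a * 10 ^ 15 - x.c) * 10 ^ 15| ≤ (x.r : ℝ) * 10 ^ 15 := by
      rw [abs_mul, abs_of_pos (by positivity : (0 : ℝ) < 10 ^ 15)]
      exact mul_le_mul_of_nonneg_right hx (by positivity)
    have c4 : |(w : ℝ) * (b * 10 ^ 15 - y.c)| ≤ |(w : ℝ)| * y.r := by
      rw [abs_mul]
      exact mul_le_mul_of_nonneg_left hy (abs_nonneg _)
    linarith
  rw [abs_mul] at key
  have k2 : |v * 10 ^ 15 - w| * (|(y.c : ℝ)| - y.r) ≤
      |(x.c : ℝ) * 10 ^ 15 - w * y.c| + x.r * 10 ^ 15 + |(w : ℝ)| * y.r :=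
    (mul_le_mul_of_nonneg_left hyb (abs_nonneg _)).trans key
  have k3 := (le_div_iff₀ hd').2 k2
  linarith

/-- Enlarging the radius. -/
theorem Has.widen {a : Ball} {x y : ℝ} {k : Int} (h : Has a x) (hy : |y - x| * 10 ^ 15 ≤ k) :
    Has ⟨a.c, a.r + k⟩ y := by
  unfold Has at *
  push_cast
  have e : y * 10 ^ 15 - a.c = (y - x) * 10 ^ 15 + (x * 10 ^ 15 - a.c) := by ring
  rw [e]
  have h1 := abs_add_le ((y - x) * 10 ^ 15) (x * 10 ^ 15 - a.c)
  rw [abs_mul, abs_of_pos (by positivity : (0 : ℝ) < 10 ^ 15)] at h1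
  linarith

end Ball

end Pool.Agent.Strip051.Sine
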