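import Pool.Agent.Strip051.Sine.Pair

/-! # Soundness of the check of the pairs of cells -/

namespace Pool.Agent.Strip051.Sine

open Pool.Agent.StripNear

namespace NumC

theorem cast_natAbs (a : Int) : ((a.natAbs : Int) : ℝ) = |(a : ℝ)| := by
  rw [← Int.abs_eq_natAbs, Int.cast_abs]

theorem er_sound {x y : ℝ} {a ra b rb : Int} (hx : |x - a| ≤ (ra : ℝ)) (hy : |y - b| ≤ (rb : ℝ)) :
    |x * y - a * b| ≤ (er a ra b rb : ℝ) := by
  unfold er
  rw [Int.cast_add, Int.cast_add, Int.cast_mul, Int.cast_mul, Int.cast_mul, cast_natAbs,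
    cast_natAbs]
  have h0 : (0 : ℝ) ≤ ra := (abs_nonneg _).trans hx
  have e : x * y - a * b = a * (y - b) + b * (x - a) + (x - a) * (y - b) := by ring
  rw [e]
  refine (abs_add_three _ _ _).trans ?_
  rw [abs_mul, abs_mul, abs_mul]
  exact add_le_add (add_le_add (mul_le_mul_of_nonneg_left hy (abs_nonneg _))
    (mul_le_mul_of_nonneg_left hx (abs_nonneg _))) (mul_le_mul hx hy (abs_nonneg _) h0)

theorem kk_sq_le : kk ^ 2 ≤ 13.1595 := by
  rw [kk_sq]
  have h4 := Real.pi_lt_d6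
  have hp := Real.pi_pos
  nlinarith

/-- The two comparisons for real numbers. -/
theorem cmp_sound {s f m R0 R1 : Int} (h : cmp s f m R0 R1 = true) {S F M r : ℝ}
    (hS : |S| * 10 ^ 10 ≤ s) (hF : |F| * 10 ^ 10 ≤ f) (hM : |M| * 10 ^ 10 ≤ m)
    (h0 : (R0 : ℝ) ≤ r * 10 ^ 5) (h1 : r * 10 ^ 5 ≤ R1) (hR0 : 0 < R0) (hR1 : R1 < 400000) :
    |M| ≤ 152 / 100 ∧ S ^ 2 / r + F ^ 2 / (4 - r) + kk ^ 2 * M ^ 2 ≤ (584 / 100) ^ 2 ∧
      (r ≤ 1953 / 1000 → S ^ 2 / r + F ^ 2 / (4 - r) + kk ^ 2 * M ^ 2 ≤ (455 / 100) ^ 2) := by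
  unfold cmp at h
  simp only [Bool.and_eq_true, decide_eq_true_eq] at h
  obtain ⟨a1, a2⟩ := h
  have a1' : (m : ℝ) ≤ 15200000000 := by exact_mod_cast a1
  have p0 : (0 : ℝ) < R0 := by exact_mod_cast hR0
  have p1 : (R1 : ℝ) < 400000 := by exact_mod_cast hR1
  have hr : 0 < r := by
    by_contra hc
    have : r * 10 ^ 5 ≤ 0 := mul_nonpos_of_nonpos_of_nonneg (not_lt.1 hc) (by positivity)
    linarith
  have hr4 : 0 < 4 - r := by
    have : r * 10 ^ 5 < 400000 := lt_of_le_of_lt h1 p1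
    linarith
  set P : ℝ := 400000 - R1 with hP
  have hP0 : 0 < P := by rw [hP]; linarith
  have b1 : S ^ 2 / r ≤ s ^ 2 / 10 ^ 15 / R0 := by
    rw [div_le_div_iff₀ hr p0]
    have c1 : (|S| * 10 ^ 10) ^ 2 ≤ (s : ℝ) ^ 2 := pow_le_pow_left₀ (by positivity) hS 2
    rw [mul_pow, sq_abs] at c1
    have c2 : S ^ 2 * R0 ≤ S ^ 2 * (r * 10 ^ 5) := mul_le_mul_of_nonneg_left h0 (sq_nonneg _)
    have c3 : S ^ 2 ≤ s ^ 2 / 10 ^ 20 := by
      rw [le_div_iff₀ (by positivity)]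
      linarith
    have c4 := mul_le_mul_of_nonneg_right c3 (by positivity : (0 : ℝ) ≤ r * 10 ^ 5)
    calc S ^ 2 * R0 ≤ S ^ 2 * (r * 10 ^ 5) := c2
      _ ≤ s ^ 2 / 10 ^ 20 * (r * 10 ^ 5) := c4
      _ = s ^ 2 / 10 ^ 15 * r := by ring
  have b2 : F ^ 2 / (4 - r) ≤ f ^ 2 / 10 ^ 15 / P := by
    rw [div_le_div_iff₀ hr4 hP0]
    have c1 : (|F| * 10 ^ 10) ^ 2 ≤ (f : ℝ) ^ 2 := pow_le_pow_left₀ (by positivity) hF 2
    rw [mul_pow, sq_abs] at c1
    have c2 : F ^ 2 * P ≤ F ^ 2 * ((4 - r) * 10 ^ 5) := by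
      refine mul_le_mul_of_nonneg_left ?_ (sq_nonneg _)
      rw [hP]
      linarith
    have c3 : F ^ 2 ≤ f ^ 2 / 10 ^ 20 := by
      rw [le_div_iff₀ (by positivity)]
      linarith
    have c4 := mul_le_mul_of_nonneg_right c3 (by positivity : (0 : ℝ) ≤ (4 - r) * 10 ^ 5)
    calc F ^ 2 * P ≤ F ^ 2 * ((4 - r) * 10 ^ 5) := c2
      _ ≤ f ^ 2 / 10 ^ 20 * ((4 - r) * 10 ^ 5) := c4
      _ = f ^ 2 / 10 ^ 15 * (4 - r) := by ring
  have b3 : kk ^ 2 * M ^ 2 ≤ 13.1595 * (m ^ 2 / 10 ^ 20) := by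
    have c1 : (|M| * 10 ^ 10) ^ 2 ≤ (m : ℝ) ^ 2 := pow_le_pow_left₀ (by positivity) hM 2
    rw [mul_pow, sq_abs] at c1
    have c3 : M ^ 2 ≤ m ^ 2 / 10 ^ 20 := by
      rw [le_div_iff₀ (by positivity)]
      linarith
    exact mul_le_mul kk_sq_le c3 (sq_nonneg _) (by norm_num)
  have key : ∀ G : ℝ, 1000000000 * ((s : ℝ) * s * P) + 1000000000 * (f * f * R0) +
      131595 * (m * m * (R0 * P)) ≤ G * 10 ^ 20 * (R0 * P) →
      S ^ 2 / r + F ^ 2 / (4 - r) + kk ^ 2 * M ^ 2 ≤ G / 10 ^ 4 := by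
    intro G hG
    refine (add_le_add (add_le_add b1 b2) b3).trans ?_
    have e : (s : ℝ) ^ 2 / 10 ^ 15 / R0 + f ^ 2 / 10 ^ 15 / P + 13.1595 * (m ^ 2 / 10 ^ 20) =
        (1000000000 * ((s : ℝ) * s * P) + 1000000000 * (f * f * R0) +
          131595 * (m * m * (R0 * P))) / (10 ^ 24 * (R0 * P)) := by
      field_simp
      ring
    rw [e, div_le_div_iff₀ (by positivity) (by positivity)]
    calc _ ≤ G * 10 ^ 20 * (R0 * P) * 10 ^ 4 := mul_le_mul_of_nonneg_right hG (by positivity)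
      _ = G * (10 ^ 24 * (R0 * P)) := by ring
  refine ⟨?_, ?_, ?_⟩
  · have := hM.trans a1'
    linarith
  · have h5 : 1000000000 * ((s : ℝ) * s * P) + 1000000000 * (f * f * R0) +
        131595 * (m * m * (R0 * P)) ≤ 341056 * 10 ^ 20 * (R0 * P) := by
      have a2' : ((1000000000 * (s * s * (400000 - R1)) + 1000000000 * (f * f * R0) +
        131595 * (m * m * (R0 * (400000 - R1))) : Int) : ℝ) ≤
        ((34105600000000000000000000 * (R0 * (400000 - R1)) : Int) : ℝ) := by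
        have a3 : (if R0 ≤ 195300 then (20702500000000000000000000 : Int) else
            34105600000000000000000000) ≤ 34105600000000000000000000 := by
          split_ifs <;> norm_num
        have a4 : 0 ≤ R0 * (400000 - R1) := by
          have : 0 < 400000 - R1 := by omega
          positivity
        exact_mod_cast a2.trans (mul_le_mul_of_nonneg_right a3 a4)
      push_cast at a2'
      rw [hP]
      linarith
    refine (key _ h5).trans (by norm_num)
  · intro hs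
    have h5 : 1000000000 * ((s : ℝ) * s * P) + 1000000000 * (f * f * R0) +
        131595 * (m * m * (R0 * P)) ≤ 207025 * 10 ^ 20 * (R0 * P) := by
      have a3 : R0 ≤ 195300 := by
        have : (R0 : ℝ) ≤ 195300 := by linarith
        exact_mod_cast this
      rw [if_pos a3] at a2
      have a2' : ((1000000000 * (s * s * (400000 - R1)) + 1000000000 * (f * f * R0) +
        131595 * (m * m * (R0 * (400000 - R1))) : Int) : ℝ) ≤
        ((20702500000000000000000000 * (R0 * (400000 - R1)) : Int) : ℝ) := by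
        exact_mod_cast a2
      push_cast at a2'
      rw [hP]
      linarith
    refine (key _ h5).trans (by norm_num)

/-- The conclusion for a pair of unit vectors. -/
structure Concl (e1 e2 : Pt) : Prop where
  bd : |QQ e1 e2| ≤ 152 / 100
  all : GradAt e1 e2 (584 / 100)
  small : r2 (e1 + e2) ≤ 1953 / 1000 → GradAt e1 e2 (455 / 100)

theorem chk_sound {A B : Row} {T : RRow} (h : chk A B T = true) {e1 e2 : Pt} (hA : A.Has e1)
    (hB : B.Has e2) (h0 : (T.R0 : ℝ) ≤ r2 (e1 + e2) * 10 ^ 5)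
    (h1 : r2 (e1 + e2) * 10 ^ 5 ≤ T.R1) (hR0 : 0 < T.R0) (hR1 : T.R1 < 400000) :
    Concl e1 e2 := by
  unfold chk at h
  have hAd : |dq e1 * 10 ^ 5 - (A.d : ℝ)| ≤ ((10548 : Int) : ℝ) := by
    push_cast
    exact hA.d
  have hAg : |dc e1 * 10 ^ 5 - (A.g : ℝ)| ≤ ((10478 : Int) : ℝ) := by
    push_cast
    exact hA.g
  have hBd : |dq e2 * 10 ^ 5 - (B.d : ℝ)| ≤ ((10548 : Int) : ℝ) := by
    push_cast
    exact hB.d
  have hBg : |dc e2 * 10 ^ 5 - (B.g : ℝ)| ≤ ((10478 : Int) : ℝ) := by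
    push_cast
    exact hB.g
  have m1 := er_sound hAd hB.c
  have m2 := er_sound hAg hB.q
  have m3 := er_sound hBd hA.c
  have m4 := er_sound hBg hA.q
  have m5 := er_sound hA.q hB.c
  have m6 := er_sound hB.q hA.c
  have ePos : ∀ x y : ℝ, (x * 10 ^ 5) * (y * 10 ^ 5) = x * y * 10 ^ 10 := by
    intro x y
    ring
  rw [ePos] at m1 m2 m3 m4 m5 m6
  have tri : ∀ {a b c d a' b' c' d' ra rb rc rd : ℝ}, |a - a'| ≤ ra → |b - b'| ≤ rb →
      |c - c'| ≤ rc → |d - d'| ≤ rd →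
      |(a + b + (c + d)) - (a' + b' + (c' + d'))| ≤ ra + rb + (rc + rd) ∧
      |(c + d - (a + b)) - (c' + d' - (a' + b'))| ≤ ra + rb + (rc + rd) := by
    intro a b c d a' b' c' d' ra rb rc rd h1 h2 h3 h4
    rw [abs_le] at h1 h2 h3 h4 ⊢
    rw [abs_le]
    refine ⟨⟨?_, ?_⟩, ?_, ?_⟩ <;> linarith [h1.1, h1.2, h2.1, h2.2, h3.1, h3.2, h4.1, h4.2]
  have tri2 : ∀ {a b a' b' ra rb : ℝ}, |a - a'| ≤ ra → |b - b'| ≤ rb →
      |(a + b) - (a' + b')| ≤ ra + rb := by
    intro a b a' b' ra rb h1 h2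
    rw [abs_le] at h1 h2 ⊢
    constructor <;> linarith [h1.1, h1.2, h2.1, h2.2]
  have ab : ∀ {X a : ℝ} {v : Int} {ra : ℝ}, (v : ℝ) = a → |X * 10 ^ 10 - a| ≤ ra →
      |X| * 10 ^ 10 ≤ ((v.natAbs : Int) : ℝ) + ra := by
    intro X a v ra hv hX
    rw [cast_natAbs, hv]
    have e5 : |X| * 10 ^ 10 = |X * 10 ^ 10| := by
      rw [abs_mul, abs_of_pos (by positivity : (0 : ℝ) < 10 ^ 10)]
    rw [e5]
    have := abs_sub_abs_le_abs_sub (X * 10 ^ 10) a
    linarith
  obtain ⟨n1, n2⟩ := tri m1 m2 m3 m4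
  have n3 := tri2 m5 m6
  have eS : dq e1 * c e2 * 10 ^ 10 + dc e1 * q e2 * 10 ^ 10 +
      (dq e2 * c e1 * 10 ^ 10 + dc e2 * q e1 * 10 ^ 10) = (D1 e1 e2 + D2 e1 e2) * 10 ^ 10 := by
    unfold D1 D2
    ring
  have eF : dq e2 * c e1 * 10 ^ 10 + dc e2 * q e1 * 10 ^ 10 -
      (dq e1 * c e2 * 10 ^ 10 + dc e1 * q e2 * 10 ^ 10) = (D2 e1 e2 - D1 e1 e2) * 10 ^ 10 := by
    unfold D1 D2
    ring
  have eM : q e1 * c e2 * 10 ^ 10 + q e2 * c e1 * 10 ^ 10 = QQ e1 e2 * 10 ^ 10 := by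
    unfold QQ
    ring
  rw [eS] at n1
  rw [eF] at n2
  rw [eM] at n3
  have hS := ab (v := A.d * B.c + A.g * B.q + (B.d * A.c + B.g * A.q)) (by push_cast; rfl) n1
  have hF := ab (v := B.d * A.c + B.g * A.q - (A.d * B.c + A.g * B.q)) (by push_cast; rfl) n2
  have hM := ab (v := A.q * B.c + B.q * A.c) (by push_cast; rfl) n3
  have hh := cmp_sound h (S := D1 e1 e2 + D2 e1 e2) (F := D2 e1 e2 - D1 e1 e2) (M := QQ e1 e2)
    (r := r2 (e1 + e2)) (by push_cast at hS ⊢; exact hS) (by push_cast at hF ⊢; exact hF)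
    (by push_cast at hM ⊢; exact hM) h0 h1 hR0 hR1
  exact ⟨hh.1, hh.2.1, hh.2.2⟩

theorem rowChk_sound {A : Row} : ∀ (l : List Row) (ts : List RRow), rowChk A l ts = true →
    ∀ (k : ℕ) B T, l[k]? = some B → ts[k]? = some T → chk A B T = true
  | [], _, _, k, B, T, h1, _ => by simp at h1
  | _ :: _, [], _, k, B, T, _, h2 => by simp at h2
  | B' :: l, T' :: ts, h, k, B, T, h1, h2 => by
    unfold rowChk at h
    simp only [Bool.and_eq_true] at h
    cases k with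
    | zero =>
      simp only [List.getElem?_cons_zero, Option.some.injEq] at h1 h2
      rw [← h1, ← h2]
      exact h.1
    | succ k =>
      simp only [List.getElem?_cons_succ] at h1 h2
      exact rowChk_sound l ts h.2 k B T h1 h2

theorem allChk_sound : ∀ (rs l : List Row), allChk rs l = true →
    ∀ (i k : ℕ) A B T, rs[i]? = some A → l[i + k]? = some B → rtab[k]? = some T → chk A B T = true
  | [], _, _, i, k, A, B, T, h1, _, _ => by simp at h1
  | _ :: _, [], _, i, k, A, B, T, _, h2, _ => by simp at h2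
  | A' :: rs, B' :: l, h, i, k, A, B, T, h1, h2, h3 => by
    unfold allChk at h
    simp only [Bool.and_eq_true] at h
    cases i with
    | zero =>
      simp only [List.getElem?_cons_zero, Option.some.injEq] at h1
      rw [Nat.zero_add] at h2
      rw [← h1]
      exact rowChk_sound _ _ h.1 k B T h2 h3
    | succ i =>
      have e : i + 1 + k = (i + k) + 1 := by omega
      rw [e, List.getElem?_cons_succ] at h2
      rw [List.getElem?_cons_succ] at h1
      exact allChk_sound rs l h.2 i k A B T h1 h2 h3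

theorem rowsOK_sound : ∀ (rs : List Row) (j : Int), rowsOK j rs = true →
    ∀ (i : ℕ) R, rs[i]? = some R → R.ok (j + i) = true
  | [], _, _, i, R, h1 => by simp at h1
  | R' :: rs, j, h, i, R, h1 => by
    unfold rowsOK at h
    simp only [Bool.and_eq_true] at h
    cases i with
    | zero =>
      simp only [List.getElem?_cons_zero, Option.some.injEq] at h1
      rw [← h1]
      simpa using h.1
    | succ i =>
      rw [List.getElem?_cons_succ] at h1
      have := rowsOK_sound rs (j + 1) h.2 i R h1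
      have e : j + ((i + 1 : ℕ) : Int) = j + 1 + i := by push_cast; ring
      rw [e]
      exact this

theorem rtabOK_sound : ∀ (rs : List RRow) (j : Int), rtabOK j rs = true →
    ∀ (i : ℕ) R, rs[i]? = some R → R.ok (j + i) = true
  | [], _, _, i, R, h1 => by simp at h1
  | R' :: rs, j, h, i, R, h1 => by
    unfold rtabOK at h
    simp only [Bool.and_eq_true] at h
    cases i with
    | zero =>
      simp only [List.getElem?_cons_zero, Option.some.injEq] at h1
      rw [← h1]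
      simpa using h.1
    | succ i =>
      rw [List.getElem?_cons_succ] at h1
      have := rtabOK_sound rs (j + 1) h.2 i R h1
      have e : j + ((i + 1 : ℕ) : Int) = j + 1 + i := by push_cast; ring
      rw [e]
      exact this

/-- The enclosure of the squared length. -/
theorem RRow.ok_sound {d : Int} {T : RRow} (h : T.ok d = true) (hd : 0 < d) (hd2 : d < 200)
    {β : ℝ} (h1 : ((d : ℝ) - 1) / 64 ≤ β) (h2 : β ≤ (d + 1) / 64) (hβ : β ≤ Real.pi)
    (hd3 : ((d : ℝ) + 1) / 64 ≤ Real.pi)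
    (hr : 1 ≤ 2 + 2 * Real.cos β) (hr3 : 2 + 2 * Real.cos β ≤ 3) :
    (T.R0 : ℝ) ≤ (2 + 2 * Real.cos β) * 10 ^ 5 ∧ (2 + 2 * Real.cos β) * 10 ^ 5 ≤ T.R1 ∧
      0 < T.R0 ∧ T.R1 < 400000 := by
  unfold RRow.ok at h
  simp only [Bool.and_eq_true, Bool.or_eq_true, decide_eq_true_eq] at h
  obtain ⟨⟨⟨⟨⟨a1, a2⟩, a3⟩, a4⟩, a5⟩, a6⟩ := h
  have hdr : (0 : ℝ) < d := by exact_mod_cast hd
  have hd1 : (1 : ℝ) ≤ d := by exact_mod_cast hd
  have hdr2 : (d : ℝ) < 200 := by exact_mod_cast hd2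
  have e1 : ((((d + 1) * 15625000000000 : Int)) : ℝ) / 10 ^ 15 = ((d : ℝ) + 1) / 64 := by
    push_cast
    ring
  have e2 : ((((d - 1) * 15625000000000 : Int)) : ℝ) / 10 ^ 15 = ((d : ℝ) - 1) / 64 := by
    push_cast
    ring
  have z1 : |((((d + 1) * 15625000000000 : Int)) : ℝ)| ≤ 4 * 10 ^ 15 := by
    push_cast
    rw [abs_of_nonneg (by positivity)]
    linarith
  have z2 : |((((d - 1) * 15625000000000 : Int)) : ℝ)| ≤ 4 * 10 ^ 15 := by
    push_cast
    rw [abs_of_nonneg (mul_nonneg (by linarith) (by norm_num))]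
    linarith
  have c1 := cosChk_sound a1 z1
  have c2 := cosChk_sound a2 z2
  rw [e1] at c1
  rw [e2] at c2
  have m1 : Real.cos (((d : ℝ) + 1) / 64) ≤ Real.cos β :=
    Real.cos_le_cos_of_nonneg_of_le_pi (by
      have : (0 : ℝ) ≤ ((d : ℝ) - 1) / 64 := by
        apply div_nonneg _ (by norm_num)
        linarith
      linarith) hd3 h2
  have m2 : Real.cos β ≤ Real.cos (((d : ℝ) - 1) / 64) :=
    Real.cos_le_cos_of_nonneg_of_le_pi (by
      apply div_nonneg _ (by norm_num)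
      linarith) hβ h1
  rw [abs_le] at c1 c2
  refine ⟨?_, ?_, a6, a5⟩
  · rcases a3 with a3 | a3
    · have : (T.R0 : ℝ) ≤ 100000 := by exact_mod_cast a3
      linarith
    · have : ((T.R0 : ℝ) * 10000000000 + 6 ≤ 2000000000000000 + 2 * (T.lo : ℝ)) := by
        exact_mod_cast a3
      linarith [c1.1, c1.2]
  · rcases a4 with a4 | a4
    · have : (300000 : ℝ) ≤ T.R1 := by exact_mod_cast a4
      linarith
    · have : (2000000000000000 + 2 * (T.hi : ℝ) + 6 ≤ (T.R1 : ℝ) * 10000000000) := by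
        exact_mod_cast a4
      linarith [c2.1, c2.2]

end NumC

end Pool.Agent.Strip051.Sine
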