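import Pool.Agent.Strip051.Sweep.Final

/-! # The sinusoidal certificate: definitions

`Ed X a b` is the value of the edge from `a` to `b`.  On unit vectors `e = (cos θ, sin θ)` the
amplitude is `q e = cos (3 θ) * A (e.2 / h0)`, `A u = sin (π u) / (π u (1 - u ^ 2))`; a vector `w`
of length between `1` and `√3` is the sum of two unit vectors `em w`, `ep w` and gets the mean of
the two paths; longer vectors are first cut down to length `√3`. -/

namespace Pool.Agent.Strip051.Sine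

open Pool.Agent.StripNear Pool.Agent.Strip051.Sweep

/-- Half of the wave number, `π / h0`. -/
noncomputable def kk : ℝ := Real.pi / h0

/-- `A u = sin (π u) / (π u (1 - u ^ 2))`, as an integral. -/
noncomputable def A (u : ℝ) : ℝ :=
  ∫ t in (0 : ℝ)..1, (1 + Real.cos (Real.pi * t)) * Real.cos (Real.pi * u * t)

/-- The derivative of `A`. -/
noncomputable def A1 (u : ℝ) : ℝ :=
  -∫ t in (0 : ℝ)..1, (1 + Real.cos (Real.pi * t)) * (Real.pi * t) * Real.sin (Real.pi * u * t)

/-- The second derivative of `A`. -/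
noncomputable def A2 (u : ℝ) : ℝ :=
  -∫ t in (0 : ℝ)..1, (1 + Real.cos (Real.pi * t)) * (Real.pi * t) ^ 2 *
    Real.cos (Real.pi * u * t)

/-- Amplitude of a unit vector. -/
noncomputable def q (e : Pt) : ℝ := e.1 * (1 - 4 * e.2 ^ 2) * A (e.2 / h0)

/-- Phase factor of a unit vector. -/
noncomputable def c (e : Pt) : ℝ := Real.cos (kk * e.2)

/-- Derivative of `q` along the circle (direction `(-e.2, e.1)`). -/
noncomputable def dq (e : Pt) : ℝ :=
  (-9 * e.2 + 12 * e.2 ^ 3) * A (e.2 / h0) +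
    e.1 ^ 2 * (1 - 4 * e.2 ^ 2) * A1 (e.2 / h0) / h0

/-- Derivative of `c` along the circle. -/
noncomputable def dc (e : Pt) : ℝ := -kk * e.1 * Real.sin (kk * e.2)

/-- Squared length. -/
def r2 (w : Pt) : ℝ := w.1 ^ 2 + w.2 ^ 2

noncomputable def tt (w : Pt) : ℝ := Real.sqrt (1 / r2 w - 1 / 4)

/-- The unit vectors `em w`, `ep w` with sum `w` (for `0 < |w| ≤ 2`); `em w` is on the right. -/
noncomputable def em (w : Pt) : Pt := (w.1 / 2 + tt w * w.2, w.2 / 2 - tt w * w.1)

/-- See `em`. -/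
noncomputable def ep (w : Pt) : Pt := (w.1 / 2 - tt w * w.2, w.2 / 2 + tt w * w.1)

/-- The amplitude of a vector `e1 + e2` with unit vectors `e1`, `e2`. -/
noncomputable def QQ (e1 e2 : Pt) : ℝ := q e1 * c e2 + q e2 * c e1

/-- Derivative of `QQ` under a rotation of `e1`. -/
noncomputable def D1 (e1 e2 : Pt) : ℝ := dq e1 * c e2 + dc e1 * q e2

/-- Derivative of `QQ` under a rotation of `e2`. -/
noncomputable def D2 (e1 e2 : Pt) : ℝ := dq e2 * c e1 + dc e2 * q e1

/-- Cut off at length `√3`. -/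
noncomputable def cut (w : Pt) : Pt :=
  if r2 w ≤ 3 then w else (Real.sqrt (3 / r2 w) * w.1, Real.sqrt (3 / r2 w) * w.2)

/-- Amplitude of a vector. -/
noncomputable def Q (w : Pt) : ℝ := QQ (em (cut w)) (ep (cut w))

/-- Value of the edge from `a` to `b` with phase `X`. -/
noncomputable def Ed (X : ℝ) (a b : Pt) : ℝ := Q (b - a) * Real.sin (kk * (a.2 + b.2) - X)

/-- Twice the oriented area. -/
def cr (a b c : Pt) : ℝ := (b.1 - a.1) * (c.2 - a.2) - (c.1 - a.1) * (b.2 - a.2)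

/-- The slack of the oriented triangle `a b c`. -/
noncomputable def ff (δ X : ℝ) (a b c : Pt) : ℝ :=
  cr a b c / (2 * h0) - 1 / 2 + δ * (Ed X a b + Ed X b c + Ed X c a)

/-- The gradient bound for unit vectors `e1`, `e2` with an angle between `60` and `120` degrees:
`G` bounds the gradient of `Q(w) exp(i kk w.2)` at `w = e1 + e2`. -/
def GradAt (e1 e2 : Pt) (G : ℝ) : Prop :=
  (D1 e1 e2 + D2 e1 e2) ^ 2 / r2 (e1 + e2) + (D2 e1 e2 - D1 e1 e2) ^ 2 / (4 - r2 (e1 + e2)) +
    kk ^ 2 * QQ e1 e2 ^ 2 ≤ G ^ 2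

/-- The pair of unit vectors belongs to a vector of length in `[1, √3]`. -/
structure UPair (e1 e2 : Pt) : Prop where
  u1 : r2 e1 = 1
  u2 : r2 e2 = 1
  lo : 1 ≤ r2 (e1 + e2)
  hi : r2 (e1 + e2) ≤ 3
  or : 0 < e1.1 * e2.2 - e2.1 * e1.2

/-- The numerical input.  The sum `455 / 100 + 584 / 100 = 10.39` of the two gradient bounds is
less than `1 / (2 h0 δ) = 10.3923...` for `δ = 1 / 18`. -/
structure Num : Prop where
  all : ∀ e1 e2, UPair e1 e2 → GradAt e1 e2 (584 / 100)
  small : ∀ e1 e2, UPair e1 e2 → r2 (e1 + e2) ≤ 1953 / 1000 → GradAt e1 e2 (455 / 100)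
  bd : ∀ e1 e2, UPair e1 e2 → |QQ e1 e2| ≤ 152 / 100

end Pool.Agent.Strip051.Sine
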