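import Pool.Agent.Strip051.Sine.Defs

/-! # The decomposition of a vector into two unit vectors -/

namespace Pool.Agent.Strip051.Sine

open Pool.Agent.StripNear Pool.Agent.Strip051.Sweep

private theorem tt_sq {w : Pt} (h0 : 0 < r2 w) (h4 : r2 w ≤ 4) : tt w ^ 2 * r2 w = 1 - r2 w / 4 := by
  have h : 0 ≤ 1 / r2 w - 1 / 4 := by
    rw [sub_nonneg, div_le_div_iff₀ (by norm_num) h0]; linarith
  rw [tt, Real.sq_sqrt h]
  field_simp

/-- `em` and `ep` are unit vectors with sum `w`; the angle between them is `2 arccos (|w| / 2)`. -/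
theorem em_ep {w : Pt} (h0 : 0 < r2 w) (h4 : r2 w ≤ 4) : r2 (em w) = 1 ∧ r2 (ep w) = 1 ∧
    em w + ep w = w ∧ (em w).1 * (ep w).2 - (ep w).1 * (em w).2 = tt w * r2 w := by
  have ht := tt_sq h0 h4
  refine ⟨?_, ?_, ?_, ?_⟩
  · simp only [r2, em] at ht ⊢
    linear_combination ht
  · simp only [r2, ep] at ht ⊢
    linear_combination ht
  · ext
    · simp only [em, ep, Prod.fst_add]; ring
    · simp only [em, ep, Prod.snd_add]; ring
  · simp only [r2, em, ep]; ring

theorem upair_em_ep {w : Pt} (h1 : 1 ≤ r2 w) (h3 : r2 w ≤ 3) : UPair (em w) (ep w) := by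
  have h0 : 0 < r2 w := by linarith
  obtain ⟨a, b, c, d⟩ := em_ep h0 (by linarith)
  refine ⟨a, b, by rw [c]; exact h1, by rw [c]; exact h3, ?_⟩
  rw [d]
  refine mul_pos ?_ h0
  rw [tt]
  apply Real.sqrt_pos.2
  rw [sub_pos, div_lt_div_iff₀ (by norm_num) h0]
  linarith

/-- A vector of length in `[1, 4)` is the sum of two unit vectors, the first on the right, in only
one way. -/
theorem em_ep_unique {e1 e2 : Pt} (h1 : r2 e1 = 1) (h2 : r2 e2 = 1)
    (h : 0 < e1.1 * e2.2 - e2.1 * e1.2) : em (e1 + e2) = e1 ∧ ep (e1 + e2) = e2 := by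
  obtain ⟨a, b⟩ := e1
  obtain ⟨c, d⟩ := e2
  simp only [r2] at h1 h2 h
  have hr : r2 (a + c, b + d) = 2 * (1 + (a * c + b * d)) := by
    simp only [r2]
    linear_combination h1 + h2
  have hcr : (a * d - c * b) ^ 2 = (1 - (a * c + b * d)) * (1 + (a * c + b * d)) := by
    linear_combination (c ^ 2 + d ^ 2) * h1 + h2
  have hpos : 0 < (a * d - c * b) ^ 2 := pow_pos h 2
  have hdot : 0 < 1 + (a * c + b * d) := by
    have hge : 0 ≤ 1 + (a * c + b * d) := by nlinarith [sq_nonneg (a + c), sq_nonneg (b + d)]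
    rcases hge.lt_or_eq with h' | h'
    · exact h'
    · exfalso
      rw [hcr, ← h'] at hpos
      simp at hpos
  have hr0 : 0 < r2 (a + c, b + d) := by rw [hr]; linarith
  have ht : tt (a + c, b + d) = (a * d - c * b) / r2 (a + c, b + d) := by
    rw [tt, Real.sqrt_eq_iff_mul_self_eq]
    · rw [div_mul_div_comm, ← pow_two, hcr, hr]
      field_simp
      ring
    · have : 0 ≤ 1 / r2 (a + c, b + d) - 1 / 4 := by
        rw [sub_nonneg, div_le_div_iff₀ (by norm_num) hr0, hr]
        nlinarith [sq_nonneg (a - c), sq_nonneg (b - d)]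
      exact this
    · exact div_nonneg h.le hr0.le
  have hne : 2 * (1 + (a * c + b * d)) ≠ 0 := by positivity
  have k1 : (a * d - c * b) / (2 * (1 + (a * c + b * d))) * (b + d) = (a - c) / 2 := by
    rw [div_mul_eq_mul_div, div_eq_div_iff hne two_ne_zero]
    linear_combination (-2 * c) * h1 + 2 * a * h2
  have k2 : (a * d - c * b) / (2 * (1 + (a * c + b * d))) * (a + c) = (d - b) / 2 := by
    rw [div_mul_eq_mul_div, div_eq_div_iff hne two_ne_zero]
    linear_combination (2 * d) * h1 - 2 * b * h2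
  constructor
  · change em (a + c, b + d) = (a, b)
    rw [em, ht, hr]
    ext
    · change (a + c) / 2 + (a * d - c * b) / (2 * (1 + (a * c + b * d))) * (b + d) = a
      rw [k1]; ring
    · change (b + d) / 2 - (a * d - c * b) / (2 * (1 + (a * c + b * d))) * (a + c) = b
      rw [k2]; ring
  · change ep (a + c, b + d) = (c, d)
    rw [ep, ht, hr]
    ext
    · change (a + c) / 2 - (a * d - c * b) / (2 * (1 + (a * c + b * d))) * (b + d) = c
      rw [k1]; ring
    · change (b + d) / 2 + (a * d - c * b) / (2 * (1 + (a * c + b * d))) * (a + c) = d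
      rw [k2]; ring

private theorem r2_neg (w : Pt) : r2 (-w) = r2 w := by simp [r2]

private theorem A_neg (u : ℝ) : A (-u) = A u := by
  simp only [A]
  congr 1
  funext t
  rw [show Real.pi * -u * t = -(Real.pi * u * t) by ring, Real.cos_neg]

private theorem q_neg (e : Pt) : q (-e) = -q e := by
  simp only [q, Prod.fst_neg, Prod.snd_neg, neg_div, A_neg]
  ring

private theorem c_neg (e : Pt) : c (-e) = c e := by
  simp only [c, Prod.snd_neg, mul_neg, Real.cos_neg]

private theorem cut_neg (w : Pt) : cut (-w) = -cut w := by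
  simp only [cut, r2_neg]
  split_ifs
  · rfl
  · ext <;> simp

private theorem em_neg (w : Pt) : em (-w) = -em w := by
  simp only [em, tt, r2_neg]
  ext
  · simp; ring
  · simp; ring

private theorem ep_neg (w : Pt) : ep (-w) = -ep w := by
  simp only [ep, tt, r2_neg]
  ext
  · simp; ring
  · simp; ring

theorem Q_neg (w : Pt) : Q (-w) = -Q w := by
  rw [Q, cut_neg, em_neg, ep_neg, Q, QQ, QQ, q_neg, q_neg, c_neg, c_neg]
  ring

theorem Ed_swap (X : ℝ) (a b : Pt) : Ed X b a = -Ed X a b := by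
  rw [Ed, Ed, ← neg_sub b a, Q_neg, add_comm b.2 a.2]
  ring

private theorem r2_mirror (x y : ℝ) : r2 (-x, y) = r2 (x, y) := by simp [r2]

/-- Reflection in the vertical axis. -/
theorem Q_mirror (x y : ℝ) : Q (-x, y) = -Q (x, y) := by
  have hc : ∀ x y : ℝ, cut (-x, y) = (-(cut (x, y)).1, (cut (x, y)).2) := by
    intro x y
    simp only [cut, r2_mirror]
    split_ifs
    · rfl
    · ext <;> simp
  have he : ∀ w : Pt, em (-w.1, w.2) = (-(ep w).1, (ep w).2) := by
    intro w
    have : tt (-w.1, w.2) = tt w := by simp [tt, r2]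
    simp only [em, ep, this]
    ext
    · simp; ring
    · simp
  have he' : ∀ w : Pt, ep (-w.1, w.2) = (-(em w).1, (em w).2) := by
    intro w
    have : tt (-w.1, w.2) = tt w := by simp [tt, r2]
    simp only [em, ep, this]
    ext
    · simp; ring
    · simp; ring
  have hq : ∀ e : Pt, q (-e.1, e.2) = -q e := by
    intro e; simp only [q]; ring
  have hcc : ∀ e : Pt, c (-e.1, e.2) = c e := fun e => rfl
  rw [Q, hc, he, he', Q, QQ, QQ, hq, hq, hcc, hcc]
  ring

/-- The cut vector. -/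
theorem cut_spec {w : Pt} (h1 : 1 ≤ r2 w) : 1 ≤ r2 (cut w) ∧ r2 (cut w) ≤ 3 := by
  rw [cut]
  split_ifs with h
  · exact ⟨h1, h⟩
  · have h0 : 0 < r2 w := by linarith
    have e : r2 (Real.sqrt (3 / r2 w) * w.1, Real.sqrt (3 / r2 w) * w.2) = 3 := by
      have hs : Real.sqrt (3 / r2 w) ^ 2 = 3 / r2 w := Real.sq_sqrt (by positivity)
      have : r2 (Real.sqrt (3 / r2 w) * w.1, Real.sqrt (3 / r2 w) * w.2) =
          Real.sqrt (3 / r2 w) ^ 2 * r2 w := by simp only [r2]; ring
      rw [this, hs]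
      field_simp
    rw [e]
    norm_num

theorem abs_Q_le (hN : Num) {w : Pt} (h1 : 1 ≤ r2 w) : |Q w| ≤ 152 / 100 := by
  obtain ⟨a, b⟩ := cut_spec h1
  exact hN.bd _ _ (upair_em_ep a b)

/-- `GradAt` contains `kk² QQ² ≤ 4.55²`. -/
theorem abs_Q_le_small (hN : Num) {w : Pt} (h1 : 1 ≤ r2 w) (h2 : r2 w ≤ 1953 / 1000) :
    |Q w| ≤ 126 / 100 := by
  have h3 : r2 w ≤ 3 := by linarith
  have hc : cut w = w := by rw [cut, if_pos h3]
  have hu := upair_em_ep h1 h3
  have hs : em w + ep w = w := (em_ep (by linarith) (by linarith)).2.2.1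
  have hg := hN.small _ _ hu (by rw [hs]; exact h2)
  rw [GradAt, hs] at hg
  have t1 : 0 ≤ (D1 (em w) (ep w) + D2 (em w) (ep w)) ^ 2 / r2 w :=
    div_nonneg (sq_nonneg _) (by linarith)
  have t2 : 0 ≤ (D2 (em w) (ep w) - D1 (em w) (ep w)) ^ 2 / (4 - r2 w) :=
    div_nonneg (sq_nonneg _) (by linarith)
  have hk : kk ^ 2 = 4 / 3 * Real.pi ^ 2 := by
    rw [kk, h0, div_pow, div_pow, Real.sq_sqrt (by norm_num)]
    ring
  have hpi := Real.pi_gt_d2
  have hk2 : (13.14 : ℝ) ≤ kk ^ 2 := by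
    rw [hk]; nlinarith
  have hQ : Q w = QQ (em w) (ep w) := by rw [Q, hc]
  rw [hQ]
  apply abs_le_of_sq_le_sq _ (by norm_num)
  have hb : kk ^ 2 * QQ (em w) (ep w) ^ 2 ≤ (455 / 100) ^ 2 := by linarith
  have h5 : 13.14 * QQ (em w) (ep w) ^ 2 ≤ (455 / 100) ^ 2 :=
    le_trans (mul_le_mul_of_nonneg_right hk2 (sq_nonneg _)) hb
  nlinarith

end Pool.Agent.Strip051.Sine
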