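import Pool.Agent.Strip051.Sine.Unit
import Pool.Agent.Strip051.Sine.Vec

/-! # The derivative of the amplitude along a line -/

namespace Pool.Agent.Strip051.Sine

open Pool.Agent.StripNear Pool.Agent.Strip051.Sweep

/-- The derivative of `q` along a curve of unit vectors. -/
private theorem hasDerivAt_q_curve {f g : ℝ → ℝ} {a s : ℝ} (hf : HasDerivAt f (-(a * g s)) s)
    (hg : HasDerivAt g (a * f s) s) (h1 : f s ^ 2 + g s ^ 2 = 1) :
    HasDerivAt (fun s => q (f s, g s)) (a * dq (f s, g s)) s := by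
  have hu : HasDerivAt (fun s => g s / h0) (a * f s / h0) s := hg.div_const h0
  have hA : HasDerivAt (fun s => A (g s / h0)) (A1 (g s / h0) * (a * f s / h0)) s :=
    HasDerivAt.comp (h₂ := A) (h := fun s => g s / h0) s (hasDerivAt_A (g s / h0)) hu
  have hg2 : HasDerivAt (fun s => 1 - 4 * g s ^ 2) (-(4 * (2 * g s * (a * f s)))) s := by
    have h := ((hg.pow 2).const_mul 4).const_sub 1
    refine h.congr_deriv ?_
    simp
  have hm := (hf.mul hg2).mul hA
  refine hm.congr_deriv ?_
  have hf2 : f s ^ 2 = 1 - g s ^ 2 := by linarith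
  simp only [dq, Pi.mul_apply]
  linear_combination (-8 * a * g s * A (g s / h0)) * hf2

/-- The derivative of `c` along a curve of unit vectors. -/
private theorem hasDerivAt_c_curve {f g : ℝ → ℝ} {a s : ℝ} (hg : HasDerivAt g (a * f s) s) :
    HasDerivAt (fun s => c (f s, g s)) (a * dc (f s, g s)) s := by
  have h := (hg.const_mul kk).cos
  refine h.congr_deriv ?_
  simp only [dc]
  ring

/-- The amplitude along a line, lengths at most `√3`. -/
theorem hasDerivAt_Q {w v : Pt} {s : ℝ} (hlo : 1 < r2 (w + s • v)) (hhi : r2 (w + s • v) < 3) :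
    HasDerivAt (fun s => Q (w + s • v))
      (((v.2 * (w + s • v).1 - v.1 * (w + s • v).2) / r2 (w + s • v)) *
          (D1 (em (w + s • v)) (ep (w + s • v)) + D2 (em (w + s • v)) (ep (w + s • v))) -
        ((v.1 * (w + s • v).1 + v.2 * (w + s • v).2) /
            (2 * tt (w + s • v) * r2 (w + s • v))) *
          (D2 (em (w + s • v)) (ep (w + s • v)) - D1 (em (w + s • v)) (ep (w + s • v)))) s := by
  obtain ⟨he1, he2, -, -⟩ := em_ep (w := w + s • v) (by linarith) (by linarith)
  have hx : HasDerivAt (fun s : ℝ => (w + s • v).1) v.1 s := by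
    have h := ((hasDerivAt_id s).mul_const v.1).const_add w.1
    refine (h.congr_deriv (by simp)).congr_of_eventuallyEq (Filter.Eventually.of_forall ?_)
    intro t
    simp
  have hy : HasDerivAt (fun s : ℝ => (w + s • v).2) v.2 s := by
    have h := ((hasDerivAt_id s).mul_const v.2).const_add w.2
    refine (h.congr_deriv (by simp)).congr_of_eventuallyEq (Filter.Eventually.of_forall ?_)
    intro t
    simp
  have hr : HasDerivAt (fun s : ℝ => r2 (w + s • v))
      (2 * (v.1 * (w + s • v).1 + v.2 * (w + s • v).2)) s := by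
    have h := (hx.pow 2).add (hy.pow 2)
    refine h.congr_deriv ?_
    simp
    ring
  have hR : 0 < r2 (w + s • v) := by linarith
  have hf0 : 0 < 1 / r2 (w + s • v) - 1 / 4 := by
    have : 1 / 3 < 1 / r2 (w + s • v) := one_div_lt_one_div_of_lt hR hhi
    linarith
  have hTpos : 0 < tt (w + s • v) := Real.sqrt_pos.mpr hf0
  have hT2 : tt (w + s • v) ^ 2 = 1 / r2 (w + s • v) - 1 / 4 := Real.sq_sqrt hf0.le
  have ht : HasDerivAt (fun s : ℝ => tt (w + s • v))
      (-(v.1 * (w + s • v).1 + v.2 * (w + s • v).2) /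
        (tt (w + s • v) * r2 (w + s • v) ^ 2)) s := by
    have hinv := (hr.inv hR.ne').sub_const (1 / 4)
    have hinv' : HasDerivAt (fun s : ℝ => 1 / r2 (w + s • v) - 1 / 4)
        (-(2 * (v.1 * (w + s • v).1 + v.2 * (w + s • v).2)) / r2 (w + s • v) ^ 2) s := by
      refine hinv.congr_of_eventuallyEq (Filter.Eventually.of_forall ?_)
      intro t
      simp
    have h := hinv'.sqrt hf0.ne'
    refine h.congr_deriv ?_
    change _ / (2 * tt (w + s • v)) = _
    field_simp
  -- continuity: the cut is trivial near `s`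
  have hcut : (fun s : ℝ => Q (w + s • v)) =ᶠ[nhds s]
      fun s => QQ (em (w + s • v)) (ep (w + s • v)) := by
    have hev : ∀ᶠ t in nhds s, r2 (w + t • v) < 3 :=
      hr.continuousAt.eventually (gt_mem_nhds hhi)
    filter_upwards [hev] with t ht
    simp only [Q, cut]
    rw [if_pos ht.le]
  refine HasDerivAt.congr_of_eventuallyEq ?_ hcut
  have hRxy : (w + s • v).1 ^ 2 + (w + s • v).2 ^ 2 = r2 (w + s • v) := rfl
  have hTR : tt (w + s • v) ^ 2 * r2 (w + s • v) = 1 - r2 (w + s • v) / 4 := by
    rw [hT2]; field_simp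
  set X := (w + s • v).1 with hX
  set Y := (w + s • v).2 with hY
  set T := tt (w + s • v) with hTT
  set R := r2 (w + s • v) with hRR
  -- the first unit vector
  have hf1 : HasDerivAt (fun s : ℝ => (em (w + s • v)).1)
      (-((((v.1 * X + v.2 * Y) / 2 + T * (v.2 * X - v.1 * Y)) / (T * R)) * (em (w + s • v)).2))
      s := by
    have h := (hx.div_const 2).add (ht.mul hy)
    refine h.congr_deriv ?_
    simp only [em, ← hX, ← hY, ← hTT]
    field_simp
    linear_combination (4 * X * Y * v.1 + 4 * (R - X ^ 2) * v.2) * hTR +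
      (-2 * T * R * v.1 - (4 - R) * v.2) * hRxy
  have hg1 : HasDerivAt (fun s : ℝ => (em (w + s • v)).2)
      ((((v.1 * X + v.2 * Y) / 2 + T * (v.2 * X - v.1 * Y)) / (T * R)) * (em (w + s • v)).1)
      s := by
    have h := (hy.div_const 2).sub (ht.mul hx)
    refine h.congr_deriv ?_
    simp only [em, ← hX, ← hY, ← hTT]
    field_simp
    linear_combination (-4 * (R - Y ^ 2) * v.1 - 4 * X * Y * v.2) * hTR +
      ((4 - R) * v.1 - 2 * T * R * v.2) * hRxy
  have hf2 : HasDerivAt (fun s : ℝ => (ep (w + s • v)).1)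
      (-(((-(v.1 * X + v.2 * Y) / 2 + T * (v.2 * X - v.1 * Y)) / (T * R)) * (ep (w + s • v)).2))
      s := by
    have h := (hx.div_const 2).sub (ht.mul hy)
    refine h.congr_deriv ?_
    simp only [ep, ← hX, ← hY, ← hTT]
    field_simp
    linear_combination -(4 * X * Y * v.1 + 4 * (R - X ^ 2) * v.2) * hTR +
      (-2 * T * R * v.1 + (4 - R) * v.2) * hRxy
  have hg2 : HasDerivAt (fun s : ℝ => (ep (w + s • v)).2)
      (((-(v.1 * X + v.2 * Y) / 2 + T * (v.2 * X - v.1 * Y)) / (T * R)) * (ep (w + s • v)).1)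
      s := by
    have h := (hy.div_const 2).add (ht.mul hx)
    refine h.congr_deriv ?_
    simp only [ep, ← hX, ← hY, ← hTT]
    field_simp
    linear_combination (4 * (R - Y ^ 2) * v.1 + 4 * X * Y * v.2) * hTR +
      (-(4 - R) * v.1 - 2 * T * R * v.2) * hRxy
  have hq1 := hasDerivAt_q_curve (f := fun s => (em (w + s • v)).1)
    (g := fun s => (em (w + s • v)).2) hf1 hg1 he1
  have hc1 := hasDerivAt_c_curve (f := fun s => (em (w + s • v)).1)
    (g := fun s => (em (w + s • v)).2) hg1
  have hq2 := hasDerivAt_q_curve (f := fun s => (ep (w + s • v)).1)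
    (g := fun s => (ep (w + s • v)).2) hf2 hg2 he2
  have hc2 := hasDerivAt_c_curve (f := fun s => (ep (w + s • v)).1)
    (g := fun s => (ep (w + s • v)).2) hg2
  have h := (hq1.mul hc2).add (hq2.mul hc1)
  refine h.congr_deriv ?_
  simp only [D1, D2, Prod.mk.eta]
  field_simp
  ring

end Pool.Agent.Strip051.Sine
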