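import Pool.Agent.Strip051.Sine.Unit
import Pool.Agent.Strip051.Sine.Vec

/-! # Triangles with two sides of length one -/

namespace Pool.Agent.Strip051.Sine

open Pool.Agent.StripNear Pool.Agent.Strip051.Sweep

private theorem iso_h0_sq : h0 ^ 2 = 3 / 4 := by
  unfold h0
  rw [div_pow, Real.sq_sqrt (by norm_num)]
  norm_num

private theorem iso_h0_pos : 0 < h0 := by
  unfold h0
  positivity

private theorem iso_contA : Continuous A :=
  continuous_iff_continuousAt.2 fun u => (hasDerivAt_A u).continuousAt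

/-- A continuous function killed by `sin 3θ` vanishes. -/
private theorem iso_dense {F : ℝ → ℝ} (hF : Continuous F)
    (h : ∀ θ, Real.sin (3 * θ) * F θ = 0) (θ : ℝ) : F θ = 0 := by
  by_contra hne
  have hev : ∀ᶠ x in nhds θ, F x ≠ 0 := hF.continuousAt.eventually_ne hne
  have hev2 : (fun x => Real.sin (3 * x)) =ᶠ[nhds θ] fun _ => (0 : ℝ) := by
    filter_upwards [hev] with x hx
    rcases mul_eq_zero.1 (h x) with h1 | h1
    · exact h1
    · exact absurd h1 hx
  have hd : HasDerivAt (fun x : ℝ => Real.sin (3 * x)) (Real.cos (3 * θ) * (3 * 1)) θ :=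
    ((hasDerivAt_id θ).const_mul 3).sin
  have hd0 : HasDerivAt (fun _ : ℝ => (0 : ℝ)) (Real.cos (3 * θ) * (3 * 1)) θ :=
    hd.congr_of_eventuallyEq hev2.symm
  have hc : Real.cos (3 * θ) * (3 * 1) = 0 := hd0.unique (hasDerivAt_const θ (0 : ℝ))
  have hs : Real.sin (3 * θ) = 0 := hev2.self_of_nhds
  have hc' : Real.cos (3 * θ) = 0 := by linarith
  have := Real.sin_sq_add_cos_sq (3 * θ)
  rw [hs, hc'] at this
  norm_num at this

/-- The equilateral triangle is exact: both sides are continuous on the circle, and equal where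
`sin 3θ ≠ 0` by `sin_three_mul_A` at `θ`, `θ - π / 3`, `θ + π / 3`. -/
theorem Q_unit {w : Pt} (h : r2 w = 1) : Q w = q w := by
  obtain ⟨θ, rfl⟩ := exists_ee h
  have hcut : cut (ee θ) = ee θ := by
    unfold cut
    rw [if_pos (by rw [h]; norm_num)]
  have ht : tt (ee θ) = h0 := by
    unfold tt
    rw [h]
    have : (1 : ℝ) / 1 - 1 / 4 = h0 ^ 2 := by rw [iso_h0_sq]; norm_num
    rw [this, Real.sqrt_sq iso_h0_pos.le]
  have hcos : Real.cos (Real.pi / 3) = 1 / 2 := Real.cos_pi_div_three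
  have hsin : Real.sin (Real.pi / 3) = h0 := by
    rw [Real.sin_pi_div_three]; rfl
  have hem : em (ee θ) = ee (θ - Real.pi / 3) := by
    unfold em
    rw [ht]
    unfold ee
    refine Prod.ext ?_ ?_
    · simp only
      rw [Real.cos_sub, hcos, hsin]; ring
    · simp only
      rw [Real.sin_sub, hcos, hsin]; ring
  have hep : ep (ee θ) = ee (θ + Real.pi / 3) := by
    unfold ep
    rw [ht]
    unfold ee
    refine Prod.ext ?_ ?_
    · simp only
      rw [Real.cos_add, hcos, hsin]; ring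
    · simp only
      rw [Real.sin_add, hcos, hsin]; ring
  have hQ : Q (ee θ) = QQ (ee (θ - Real.pi / 3)) (ee (θ + Real.pi / 3)) := by
    unfold Q
    rw [hcut, hem, hep]
  rw [hQ]
  clear hQ hem hep ht hcut h
  have key := iso_dense (F := fun θ => QQ (ee (θ - Real.pi / 3)) (ee (θ + Real.pi / 3)) - q (ee θ))
    ?_ ?_ θ
  · exact sub_eq_zero.1 key
  · simp only [QQ, q_ee, c_ee]
    have hA := iso_contA
    have h1 : Continuous fun θ : ℝ => A (Real.sin (θ - Real.pi / 3) / h0) :=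
      hA.comp (by fun_prop)
    have h2 : Continuous fun θ : ℝ => A (Real.sin (θ + Real.pi / 3) / h0) :=
      hA.comp (by fun_prop)
    have h3 : Continuous fun θ : ℝ => A (Real.sin θ / h0) := hA.comp (by fun_prop)
    fun_prop
  · intro θ
    simp only [QQ, q_ee, c_ee]
    have e0 := sin_three_mul_A θ
    have e1 := sin_three_mul_A (θ - Real.pi / 3)
    have e2 := sin_three_mul_A (θ + Real.pi / 3)
    have s1 : Real.sin (3 * (θ - Real.pi / 3)) = -Real.sin (3 * θ) := by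
      rw [show 3 * (θ - Real.pi / 3) = 3 * θ - Real.pi by ring, Real.sin_sub_pi]
    have s2 : Real.sin (3 * (θ + Real.pi / 3)) = -Real.sin (3 * θ) := by
      rw [show 3 * (θ + Real.pi / 3) = 3 * θ + Real.pi by ring, Real.sin_add_pi]
    have c1 : Real.cos (3 * (θ - Real.pi / 3)) = -Real.cos (3 * θ) := by
      rw [show 3 * (θ - Real.pi / 3) = 3 * θ - Real.pi by ring, Real.cos_sub_pi]
    have c2 : Real.cos (3 * (θ + Real.pi / 3)) = -Real.cos (3 * θ) := by
      rw [show 3 * (θ + Real.pi / 3) = 3 * θ + Real.pi by ring, Real.cos_add_pi]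
    rw [s1] at e1
    rw [s2] at e2
    rw [c1, c2]
    have hsum : kk * Real.sin θ = kk * Real.sin (θ - Real.pi / 3) +
        kk * Real.sin (θ + Real.pi / 3) := by
      rw [Real.sin_sub, Real.sin_add, hcos]; ring
    rw [hsum, Real.sin_add] at e0
    generalize Real.sin (kk * Real.sin (θ - Real.pi / 3)) = p1 at *
    generalize Real.sin (kk * Real.sin (θ + Real.pi / 3)) = p2 at *
    generalize Real.cos (kk * Real.sin (θ - Real.pi / 3)) = r1 at *
    generalize Real.cos (kk * Real.sin (θ + Real.pi / 3)) = r2 at *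
    generalize A (Real.sin (θ - Real.pi / 3) / h0) = A1 at *
    generalize A (Real.sin (θ + Real.pi / 3) / h0) = A2 at *
    generalize A (Real.sin θ / h0) = A0 at *
    generalize Real.sin (3 * θ) = S at *
    generalize Real.cos (3 * θ) = C at *
    generalize 3 * h0 / Real.pi = K at *
    linear_combination (-C) * e0 + C * r2 * e1 + C * r1 * e2

/-- The key identity, `β` is the angle from `e1` to `e2`: `q e1 sin (kk e2.2) - q e2 sin (kk e1.2)
= (π / (3 h0)) A A' sin 3β` and `sin 3β = -4 sin β (sin β - h0) (sin β + h0)`. -/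
theorem key_identity {e1 e2 : Pt} (h1 : r2 e1 = 1) (h2 : r2 e2 = 1) :
    q e1 * Real.sin (kk * e2.2) - q e2 * Real.sin (kk * e1.2) =
      -(4 * Real.pi / (3 * h0)) * A (e1.2 / h0) * A (e2.2 / h0) *
        (e1.1 * e2.2 - e2.1 * e1.2) * ((e1.1 * e2.2 - e2.1 * e1.2) ^ 2 - h0 ^ 2) := by
  obtain ⟨θ, rfl⟩ := exists_ee h1
  obtain ⟨φ, rfl⟩ := exists_ee h2
  rw [q_ee, q_ee]
  have hpi : Real.pi ≠ 0 := Real.pi_ne_zero
  have hh : h0 ≠ 0 := iso_h0_pos.ne'
  have e1 : Real.sin (kk * Real.sin θ) =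
      Real.pi / (3 * h0) * (Real.sin (3 * θ) * A (Real.sin θ / h0)) := by
    rw [sin_three_mul_A]; field_simp
  have e2 : Real.sin (kk * Real.sin φ) =
      Real.pi / (3 * h0) * (Real.sin (3 * φ) * A (Real.sin φ / h0)) := by
    rw [sin_three_mul_A]; field_simp
  have hS : Real.cos θ * Real.sin φ - Real.cos φ * Real.sin θ = Real.sin (φ - θ) := by
    rw [Real.sin_sub]; ring
  have h3 : Real.sin (3 * (φ - θ)) = -4 * Real.sin (φ - θ) * (Real.sin (φ - θ) ^ 2 - h0 ^ 2) := by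
    rw [Real.sin_three_mul, iso_h0_sq]; ring
  have h4 : Real.sin (3 * (φ - θ)) =
      Real.cos (3 * θ) * Real.sin (3 * φ) - Real.cos (3 * φ) * Real.sin (3 * θ) := by
    rw [show 3 * (φ - θ) = 3 * φ - 3 * θ by ring, Real.sin_sub]; ring
  have hw : (ee θ).1 * (ee φ).2 - (ee φ).1 * (ee θ).2 = Real.sin (φ - θ) := by
    unfold ee
    exact hS
  have hθ : (ee θ).2 = Real.sin θ := rfl
  have hφ : (ee φ).2 = Real.sin φ := rfl
  rw [hw, hθ, hφ, e1, e2]
  have h5 : -(4 * Real.pi / (3 * h0)) * A (Real.sin θ / h0) * A (Real.sin φ / h0) *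
      Real.sin (φ - θ) * (Real.sin (φ - θ) ^ 2 - h0 ^ 2) =
      Real.pi / (3 * h0) * A (Real.sin θ / h0) * A (Real.sin φ / h0) *
        (Real.cos (3 * θ) * Real.sin (3 * φ) - Real.cos (3 * φ) * Real.sin (3 * θ)) := by
    rw [← h4, h3]
    ring
  rw [h5]
  ring

/-- Triangles with two unit sides and third side between `1` and `√3`. -/
theorem iso {δ X : ℝ} {a b c : Pt} (hδ0 : 0 ≤ δ) (hδ : δ ≤ 1 / 16) (hab : r2 (b - a) = 1)
    (hbc : r2 (c - b) = 1) (hac1 : 1 ≤ r2 (c - a)) (hac3 : r2 (c - a) ≤ 3)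
    (hor : 0 < cr a b c) : 0 ≤ ff δ X a b c := by
  set e1 : Pt := b - a with he1
  set e2 : Pt := c - b with he2
  have hw : c - a = e1 + e2 := by rw [he1, he2]; abel
  have hS : cr a b c = e1.1 * e2.2 - e2.1 * e1.2 := by
    rw [he1, he2]
    simp only [cr, Prod.fst_sub, Prod.snd_sub]
    ring
  obtain ⟨hem, hep⟩ := em_ep_unique hab hbc (by rw [← hS]; exact hor)
  have hcut : cut (c - a) = c - a := by
    unfold cut
    rw [if_pos hac3]
  have hQ : Q (c - a) = q e1 * Real.cos (kk * e2.2) + q e2 * Real.cos (kk * e1.2) := by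
    unfold Q
    rw [hcut, hw, hem, hep]
    rfl
  have hQ' : Q (a - c) = -(q e1 * Real.cos (kk * e2.2) + q e2 * Real.cos (kk * e1.2)) := by
    rw [← neg_sub c a, Q_neg, hQ]
  have hk := key_identity hab hbc
  have hff : ff δ X a b c = cr a b c / (2 * h0) - 1 / 2 +
      δ * (-Real.cos (kk * (a.2 + c.2) - X) *
        (q e1 * Real.sin (kk * e2.2) - q e2 * Real.sin (kk * e1.2))) := by
    unfold ff Ed
    rw [← he1, ← he2, Q_unit hab, Q_unit hbc, hQ']
    have h1 : kk * (a.2 + b.2) - X = (kk * (a.2 + c.2) - X) - kk * e2.2 := by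
      rw [he2]; simp only [Prod.snd_sub]; ring
    have h2 : kk * (b.2 + c.2) - X = (kk * (a.2 + c.2) - X) + kk * e1.2 := by
      rw [he1]; simp only [Prod.snd_sub]; ring
    have h3 : kk * (c.2 + a.2) - X = kk * (a.2 + c.2) - X := by ring
    rw [h1, h2, h3, Real.sin_sub, Real.sin_add]
    ring
  rw [hff, hk, hS]
  rw [hS] at hor
  set S := e1.1 * e2.2 - e2.1 * e1.2 with hSdef
  have hh := iso_h0_pos
  have hhs := iso_h0_sq
  have hr1 : e1.1 ^ 2 + e1.2 ^ 2 = 1 := hab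
  have hr2 : e2.1 ^ 2 + e2.2 ^ 2 = 1 := hbc
  have hr3 : 1 ≤ (e1.1 + e2.1) ^ 2 + (e1.2 + e2.2) ^ 2 := by
    rw [hw] at hac1; exact hac1
  have hr4 : (e1.1 + e2.1) ^ 2 + (e1.2 + e2.2) ^ 2 ≤ 3 := by
    rw [hw] at hac3; exact hac3
  set T := e1.1 * e2.1 + e1.2 * e2.2 with hT
  have hST : S ^ 2 + T ^ 2 = 1 := by
    have : S ^ 2 + T ^ 2 = (e1.1 ^ 2 + e1.2 ^ 2) * (e2.1 ^ 2 + e2.2 ^ 2) := by
      rw [hSdef, hT]; ring
    rw [this, hr1, hr2]; norm_num
  have hsum : (e1.1 + e2.1) ^ 2 + (e1.2 + e2.2) ^ 2 = 2 + 2 * T := by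
    have : (e1.1 + e2.1) ^ 2 + (e1.2 + e2.2) ^ 2 =
        (e1.1 ^ 2 + e1.2 ^ 2) + (e2.1 ^ 2 + e2.2 ^ 2) + 2 * T := by rw [hT]; ring
    rw [this, hr1, hr2]; ring
  have hT1 : -(1 / 2) ≤ T := by linarith
  have hT2 : T ≤ 1 / 2 := by linarith
  have hT3 : T ^ 2 ≤ 1 / 4 := by
    have := mul_nonneg (sub_nonneg.2 hT1) (sub_nonneg.2 hT2)
    linarith [show (T - -(1 / 2)) * (1 / 2 - T) = 1 / 4 - T ^ 2 by ring]
  have hS1 : h0 ≤ S := by
    have : h0 ^ 2 ≤ S ^ 2 := by linarith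
    exact (pow_le_pow_iff_left₀ hh.le hor.le two_ne_zero).1 this
  have hS2 : S ≤ 1 := by
    have : S ^ 2 ≤ 1 ^ 2 := by linarith [sq_nonneg T]
    exact (pow_le_pow_iff_left₀ hor.le zero_le_one two_ne_zero).1 this
  have hA1 := abs_A_le (e1.2 / h0)
  have hA2 := abs_A_le (e2.2 / h0)
  have hC := Real.abs_cos_le_one (kk * (a.2 + c.2) - X)
  set Y := Real.cos (kk * (a.2 + c.2) - X) * A (e1.2 / h0) * A (e2.2 / h0) with hY
  have hYabs : |Y| ≤ 1 := by
    rw [hY, abs_mul, abs_mul]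
    have := mul_le_one₀ (mul_le_one₀ hC (abs_nonneg _) hA1) (abs_nonneg _) hA2
    exact this
  have hYlo : -1 ≤ Y := (abs_le.1 hYabs).1
  have hexp : S / (2 * h0) - 1 / 2 + δ * (-Real.cos (kk * (a.2 + c.2) - X) *
      (-(4 * Real.pi / (3 * h0)) * A (e1.2 / h0) * A (e2.2 / h0) * S * (S ^ 2 - h0 ^ 2))) =
      (S - h0) / (2 * h0) * (1 + δ * (8 * Real.pi / 3) * (S * (S + h0)) * Y) := by
    rw [hY]
    field_simp
    ring
  rw [hexp]
  refine mul_nonneg (div_nonneg (by linarith) (by linarith)) ?_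
  have hpi : Real.pi < 3.1416 := Real.pi_lt_d4
  have hh2 : h0 ≤ 0.867 := by
    have : h0 ^ 2 ≤ 0.867 ^ 2 := by rw [hhs]; norm_num
    exact (pow_le_pow_iff_left₀ hh.le (by norm_num) two_ne_zero).1 this
  have hP : 0 ≤ δ * (8 * Real.pi / 3) * (S * (S + h0)) := by
    have := Real.pi_pos
    positivity
  have hP1 : δ * (8 * Real.pi / 3) * (S * (S + h0)) ≤ 1 := by
    have h1 : δ * (8 * Real.pi / 3) ≤ 1 / 16 * (8 * 3.1416 / 3) := by
      have := Real.pi_pos
      apply mul_le_mul hδ (by linarith) (by positivity) (by norm_num)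
    have h2 : S * (S + h0) ≤ 1 * (1 + 0.867) :=
      mul_le_mul hS2 (by linarith) (by linarith) (by norm_num)
    calc δ * (8 * Real.pi / 3) * (S * (S + h0)) ≤
        (1 / 16 * (8 * 3.1416 / 3)) * (1 * (1 + 0.867)) :=
          mul_le_mul h1 h2 (by positivity) (by norm_num)
      _ ≤ 1 := by norm_num
  have hfin := mul_le_mul_of_nonneg_left hYlo hP
  linarith

end Pool.Agent.Strip051.Sine
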