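import Pool.Agent.Strip051.Sine.Deriv

/-! # Moving a vertex -/

namespace Pool.Agent.Strip051.Sine

open Pool.Agent.StripNear Pool.Agent.Strip051.Sweep

/-! ### Continuity -/

private theorem Mono_r2_line (w v : Pt) (s : ℝ) (hv : r2 v = 1) :
    r2 (w + s • v) = r2 w + 2 * s * (w.1 * v.1 + w.2 * v.2) + s ^ 2 := by
  unfold r2 at *
  simp only [Prod.fst_add, Prod.snd_add, Prod.smul_fst, Prod.smul_snd, smul_eq_mul]
  linear_combination s ^ 2 * hv

private theorem Mono_cont_r2 : Continuous r2 := by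
  unfold r2
  fun_prop

private theorem Mono_cont_tt {w : Pt} (h : r2 w ≠ 0) : ContinuousAt tt w := by
  unfold tt
  exact Real.continuous_sqrt.continuousAt.comp
    ((continuousAt_const.div Mono_cont_r2.continuousAt h).sub continuousAt_const)

private theorem Mono_cont_em {w : Pt} (h : r2 w ≠ 0) : ContinuousAt em w := by
  have h1 := Mono_cont_tt h
  have a1 : ContinuousAt (fun w : Pt => w.1) w := continuous_fst.continuousAt
  have a2 : ContinuousAt (fun w : Pt => w.2) w := continuous_snd.continuousAt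
  unfold em
  exact ((a1.div_const 2).add (h1.mul a2)).prodMk ((a2.div_const 2).sub (h1.mul a1))

private theorem Mono_cont_ep {w : Pt} (h : r2 w ≠ 0) : ContinuousAt ep w := by
  have h1 := Mono_cont_tt h
  have a1 : ContinuousAt (fun w : Pt => w.1) w := continuous_fst.continuousAt
  have a2 : ContinuousAt (fun w : Pt => w.2) w := continuous_snd.continuousAt
  unfold ep
  exact ((a1.div_const 2).sub (h1.mul a2)).prodMk ((a2.div_const 2).add (h1.mul a1))

private theorem Mono_cut_eq {w : Pt} (h : 0 < r2 w) : cut w =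
    (min 1 (Real.sqrt (3 / r2 w)) * w.1, min 1 (Real.sqrt (3 / r2 w)) * w.2) := by
  unfold cut
  split_ifs with h3
  · have : 1 ≤ Real.sqrt (3 / r2 w) := by
      rw [Real.one_le_sqrt, le_div_iff₀ h]
      linarith
    rw [min_eq_left this, one_mul, one_mul]
  · have : Real.sqrt (3 / r2 w) ≤ 1 := by
      rw [Real.sqrt_le_one, div_le_one h]
      linarith
    rw [min_eq_right this]

private theorem Mono_cut_pos {w : Pt} (h : 0 < r2 w) : 0 < r2 (cut w) := by
  unfold cut
  split_ifs with h3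
  · exact h
  · have : r2 (Real.sqrt (3 / r2 w) * w.1, Real.sqrt (3 / r2 w) * w.2) =
        Real.sqrt (3 / r2 w) ^ 2 * r2 w := by
      unfold r2
      ring
    rw [this]
    positivity

private theorem Mono_cont_cut {w : Pt} (h : 0 < r2 w) : ContinuousAt cut w := by
  have e : cut =ᶠ[nhds w] fun w =>
      (min 1 (Real.sqrt (3 / r2 w)) * w.1, min 1 (Real.sqrt (3 / r2 w)) * w.2) := by
    filter_upwards [(isOpen_lt continuous_const Mono_cont_r2).mem_nhds h] with x hx
    exact Mono_cut_eq hx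
  have a1 : ContinuousAt (fun w : Pt => w.1) w := continuous_fst.continuousAt
  have a2 : ContinuousAt (fun w : Pt => w.2) w := continuous_snd.continuousAt
  have a3 : ContinuousAt (fun w : Pt => min 1 (Real.sqrt (3 / r2 w))) w :=
    continuousAt_const.min (Real.continuous_sqrt.continuousAt.comp
      (continuousAt_const.div Mono_cont_r2.continuousAt h.ne'))
  exact ContinuousAt.congr ((a3.mul a1).prodMk (a3.mul a2)) e.symm

private theorem Mono_cont_A : Continuous A :=
  continuous_iff_continuousAt.2 fun u => (hasDerivAt_A u).continuousAt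

private theorem Mono_cont_q : Continuous q := by
  unfold q
  exact (continuous_fst.mul (continuous_const.sub (continuous_const.mul
    (continuous_snd.pow 2)))).mul (Mono_cont_A.comp (continuous_snd.div_const h0))

private theorem Mono_cont_c : Continuous c := by
  unfold c
  exact Real.continuous_cos.comp (continuous_const.mul continuous_snd)

private theorem Mono_cont_Q {w : Pt} (h : 0 < r2 w) : ContinuousAt Q w := by
  have h1 := Mono_cont_cut h
  have h2 := Mono_cut_pos h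
  have a1 : ContinuousAt (fun w => em (cut w)) w := ContinuousAt.comp (Mono_cont_em h2.ne') h1
  have a2 : ContinuousAt (fun w => ep (cut w)) w := ContinuousAt.comp (Mono_cont_ep h2.ne') h1
  unfold Q QQ
  exact ((Mono_cont_q.continuousAt.comp a1).mul (Mono_cont_c.continuousAt.comp a2)).add
    ((Mono_cont_q.continuousAt.comp a2).mul (Mono_cont_c.continuousAt.comp a1))

/-! ### The derivative beyond `√3` -/

private theorem Mono_h0_sq : h0 ^ 2 = 3 / 4 := by
  unfold h0
  rw [div_pow, Real.sq_sqrt (by norm_num)]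
  norm_num

private theorem Mono_h0_pos : 0 < h0 := by
  unfold h0
  positivity

private theorem Mono_q_curve {f g : ℝ → ℝ} {s k : ℝ} (hf : HasDerivAt f (-(k * g s)) s)
    (hg : HasDerivAt g (k * f s) s) (h1 : f s ^ 2 + g s ^ 2 = 1) :
    HasDerivAt (fun s => q (f s, g s)) (k * dq (f s, g s)) s := by
  have hA : HasDerivAt (fun s => A (g s / h0)) (A1 (g s / h0) * (k * f s / h0)) s :=
    HasDerivAt.comp (h₂ := A) (h := fun s => g s / h0) s (hasDerivAt_A (g s / h0))
      (hg.div_const h0)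
  have h2 : HasDerivAt (fun s => f s * (1 - 4 * g s ^ 2) * A (g s / h0))
      ((-(k * g s) * (1 - 4 * g s ^ 2) + f s * (-(4 * (2 * g s * (k * f s))))) * A (g s / h0) +
        f s * (1 - 4 * g s ^ 2) * (A1 (g s / h0) * (k * f s / h0))) s := by
    have e1 : HasDerivAt (fun s => 1 - 4 * g s ^ 2) (-(4 * (2 * g s * (k * f s)))) s := by
      have := ((hg.pow 2).const_mul 4).const_sub 1
      refine this.congr_deriv ?_
      simp only [Nat.cast_ofNat, Nat.add_one_sub_one, pow_one]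
    exact (hf.mul e1).mul hA
  refine h2.congr_deriv ?_
  unfold dq
  have hh := Mono_h0_pos.ne'
  simp only
  have e2 : f s ^ 2 = 1 - g s ^ 2 := by linarith
  field_simp
  linear_combination (-(8 : ℝ) * k * g s * h0 * A (g s / h0)) * e2

private theorem Mono_c_curve {f g : ℝ → ℝ} {s k : ℝ}
    (hg : HasDerivAt g (k * f s) s) :
    HasDerivAt (fun s => c (f s, g s)) (k * dc (f s, g s)) s := by
  have h1 : HasDerivAt (fun s => Real.cos (kk * g s)) (-Real.sin (kk * g s) * (kk * (k * f s))) s :=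
    (hg.const_mul kk).cos
  refine h1.congr_deriv ?_
  unfold dc
  simp only
  ring

private theorem Mono_unit_curve {w v : Pt} {s : ℝ} (hr : 0 < r2 (w + s • v)) :
    HasDerivAt (fun s => (w + s • v).1 / Real.sqrt (r2 (w + s • v)))
      (-(((v.2 * (w + s • v).1 - v.1 * (w + s • v).2) / r2 (w + s • v)) *
        ((w + s • v).2 / Real.sqrt (r2 (w + s • v))))) s ∧
    HasDerivAt (fun s => (w + s • v).2 / Real.sqrt (r2 (w + s • v)))
      (((v.2 * (w + s • v).1 - v.1 * (w + s • v).2) / r2 (w + s • v)) *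
        ((w + s • v).1 / Real.sqrt (r2 (w + s • v)))) s := by
  have h1 : HasDerivAt (fun s : ℝ => (w + s • v).1) v.1 s := by
    simpa using ((hasDerivAt_id s).mul_const v.1).const_add w.1
  have h2 : HasDerivAt (fun s : ℝ => (w + s • v).2) v.2 s := by
    simpa using ((hasDerivAt_id s).mul_const v.2).const_add w.2
  have h3 : HasDerivAt (fun s : ℝ => r2 (w + s • v))
      (2 * ((w + s • v).1 * v.1) + 2 * ((w + s • v).2 * v.2)) s := by
    unfold r2
    refine ((h1.pow 2).add (h2.pow 2)).congr_deriv ?_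
    simp only [Nat.cast_ofNat, Nat.add_one_sub_one, pow_one]
    ring
  have h4 := h3.sqrt hr.ne'
  have hs : 0 < Real.sqrt (r2 (w + s • v)) := Real.sqrt_pos.2 hr
  have hsq : Real.sqrt (r2 (w + s • v)) ^ 2 = r2 (w + s • v) := Real.sq_sqrt hr.le
  have hsq2 : Real.sqrt (r2 (w + s • v)) ^ 2 = (w + s • v).1 ^ 2 + (w + s • v).2 ^ 2 := by
    rw [hsq, r2]
  set S := Real.sqrt (r2 (w + s • v)) with hS
  set x := (w + s • v).1 with hx
  set y := (w + s • v).2 with hy
  have hr' : r2 (w + s • v) = S ^ 2 := hsq.symm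
  constructor
  · refine (h1.div h4 hs.ne').congr_deriv ?_
    simp only [← hS, ← hx]
    rw [hr']
    field_simp
    linear_combination v.1 * hsq2
  · refine (h2.div h4 hs.ne').congr_deriv ?_
    simp only [← hS, ← hy]
    rw [hr']
    field_simp
    linear_combination v.2 * hsq2

private theorem Mono_em_cut {w : Pt} (h : 3 < r2 w) :
    em (cut w) = (h0 * (w.1 / Real.sqrt (r2 w)) + (w.2 / Real.sqrt (r2 w)) / 2,
      h0 * (w.2 / Real.sqrt (r2 w)) - (w.1 / Real.sqrt (r2 w)) / 2) ∧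
    ep (cut w) = (h0 * (w.1 / Real.sqrt (r2 w)) - (w.2 / Real.sqrt (r2 w)) / 2,
      h0 * (w.2 / Real.sqrt (r2 w)) + (w.1 / Real.sqrt (r2 w)) / 2) ∧ r2 (cut w) = 3 := by
  have hr : 0 < r2 w := by linarith
  have hs : 0 < Real.sqrt (r2 w) := Real.sqrt_pos.2 hr
  have hk : 0 < Real.sqrt 3 := by positivity
  have hk2 : Real.sqrt 3 ^ 2 = 3 := Real.sq_sqrt (by norm_num)
  have hcut : cut w = (Real.sqrt 3 * (w.1 / Real.sqrt (r2 w)),
      Real.sqrt 3 * (w.2 / Real.sqrt (r2 w))) := by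
    unfold cut
    rw [if_neg (not_le.2 h), Real.sqrt_div (by norm_num)]
    ext <;> simp only <;> ring
  have h3 : r2 (cut w) = 3 := by
    rw [hcut]
    have e : r2 (Real.sqrt 3 * (w.1 / Real.sqrt (r2 w)), Real.sqrt 3 * (w.2 / Real.sqrt (r2 w))) =
        Real.sqrt 3 ^ 2 * (r2 w / Real.sqrt (r2 w) ^ 2) := by
      conv_lhs => unfold r2
      simp only
      rw [show r2 w = w.1 ^ 2 + w.2 ^ 2 from rfl]
      ring
    rw [e, hk2, Real.sq_sqrt hr.le, div_self hr.ne', mul_one]
  have ht : tt (cut w) = 1 / (2 * Real.sqrt 3) := by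
    unfold tt
    rw [h3, show (1 / 3 - 1 / 4 : ℝ) = (1 / (2 * Real.sqrt 3)) ^ 2 by
      rw [div_pow, mul_pow, hk2]; norm_num]
    exact Real.sqrt_sq (by positivity)
  have hkt : Real.sqrt 3 * (1 / (2 * Real.sqrt 3)) = 1 / 2 := by
    field_simp
  refine ⟨?_, ?_, h3⟩
  · unfold em
    rw [ht, hcut]
    unfold h0
    ext
    · simp only
      linear_combination (w.2 / Real.sqrt (r2 w)) * hkt
    · simp only
      linear_combination (-(w.1 / Real.sqrt (r2 w))) * hkt
  · unfold ep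
    rw [ht, hcut]
    unfold h0
    ext
    · simp only
      linear_combination (-(w.2 / Real.sqrt (r2 w))) * hkt
    · simp only
      linear_combination (w.1 / Real.sqrt (r2 w)) * hkt

private theorem Mono_deriv_far {w v : Pt} {s : ℝ} (hr : 3 < r2 (w + s • v)) :
    HasDerivAt (fun s => Q (w + s • v))
      (((v.2 * (w + s • v).1 - v.1 * (w + s • v).2) / r2 (w + s • v)) *
        (D1 (em (cut (w + s • v))) (ep (cut (w + s • v))) +
          D2 (em (cut (w + s • v))) (ep (cut (w + s • v))))) s := by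
  have hr0 : 0 < r2 (w + s • v) := by linarith
  obtain ⟨u1, u2⟩ := Mono_unit_curve hr0
  set k := (v.2 * (w + s • v).1 - v.1 * (w + s • v).2) / r2 (w + s • v) with hk
  set U : ℝ → ℝ := fun s => (w + s • v).1 / Real.sqrt (r2 (w + s • v)) with hU
  set V : ℝ → ℝ := fun s => (w + s • v).2 / Real.sqrt (r2 (w + s • v)) with hV
  have huv : U s ^ 2 + V s ^ 2 = 1 := by
    simp only [hU, hV]
    rw [div_pow, div_pow, Real.sq_sqrt hr0.le, ← add_div]
    exact div_self hr0.ne'
  have e1 : HasDerivAt (fun s => h0 * U s + V s / 2) (-(k * (h0 * V s - U s / 2))) s :=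
    ((u1.const_mul h0).add (u2.div_const 2)).congr_deriv (by ring)
  have e2 : HasDerivAt (fun s => h0 * V s - U s / 2) (k * (h0 * U s + V s / 2)) s :=
    ((u2.const_mul h0).sub (u1.div_const 2)).congr_deriv (by ring)
  have e3 : HasDerivAt (fun s => h0 * U s - V s / 2) (-(k * (h0 * V s + U s / 2))) s :=
    ((u1.const_mul h0).sub (u2.div_const 2)).congr_deriv (by ring)
  have e4 : HasDerivAt (fun s => h0 * V s + U s / 2) (k * (h0 * U s - V s / 2)) s :=
    ((u2.const_mul h0).add (u1.div_const 2)).congr_deriv (by ring)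
  have hh := Mono_h0_sq
  have n1 : (h0 * U s + V s / 2) ^ 2 + (h0 * V s - U s / 2) ^ 2 = 1 := by
    linear_combination (U s ^ 2 + V s ^ 2) * hh + huv
  have n2 : (h0 * U s - V s / 2) ^ 2 + (h0 * V s + U s / 2) ^ 2 = 1 := by
    linear_combination (U s ^ 2 + V s ^ 2) * hh + huv
  have q1 := Mono_q_curve (f := fun s => h0 * U s + V s / 2) (g := fun s => h0 * V s - U s / 2)
    e1 e2 n1
  have q2 := Mono_q_curve (f := fun s => h0 * U s - V s / 2) (g := fun s => h0 * V s + U s / 2)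
    e3 e4 n2
  have c1 := Mono_c_curve (f := fun s => h0 * U s + V s / 2) e2
  have c2 := Mono_c_curve (f := fun s => h0 * U s - V s / 2) e4
  have hF := (q1.mul c2).add (q2.mul c1)
  have hev : (fun s => Q (w + s • v)) =ᶠ[nhds s] fun s =>
      q (h0 * U s + V s / 2, h0 * V s - U s / 2) * c (h0 * U s - V s / 2, h0 * V s + U s / 2) +
      q (h0 * U s - V s / 2, h0 * V s + U s / 2) * c (h0 * U s + V s / 2, h0 * V s - U s / 2) := by
    have hc : Continuous fun s : ℝ => r2 (w + s • v) :=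
      Mono_cont_r2.comp (continuous_const.add (continuous_id.smul continuous_const))
    filter_upwards [(isOpen_lt continuous_const hc).mem_nhds hr] with x hx
    obtain ⟨f1, f2, -⟩ := Mono_em_cut hx
    unfold Q QQ
    rw [f1, f2]
  obtain ⟨f1, f2, -⟩ := Mono_em_cut hr
  refine (HasDerivAt.congr_of_eventuallyEq hF hev).congr_deriv ?_
  rw [f1, f2]
  unfold D1 D2
  simp only [hU, hV]
  ring

/-! ### The gradient bound -/

private theorem Mono_bound_near {N M r S D G τ K : ℝ} (hr : 0 < r) (hNM : N ^ 2 + M ^ 2 = r)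
    (hτ : 0 < τ) (hτ2 : 4 * τ ^ 2 * r = 4 - r)
    (hG : S ^ 2 / r + D ^ 2 / (4 - r) + K ≤ G ^ 2) :
    ((N / r) * S - (M / (2 * τ * r)) * D) ^ 2 + K ≤ G ^ 2 := by
  have e1 : (N / r) * S - (M / (2 * τ * r)) * D = (N * S - M * (D / (2 * τ))) / r := by
    field_simp
  have e2 : (N * S - M * (D / (2 * τ))) ^ 2 ≤ r * (S ^ 2 + (D / (2 * τ)) ^ 2) := by
    rw [← hNM]
    nlinarith [sq_nonneg (N * (D / (2 * τ)) + M * S)]
  have e3 : ((N * S - M * (D / (2 * τ))) / r) ^ 2 ≤ (S ^ 2 + (D / (2 * τ)) ^ 2) / r := by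
    rw [div_pow, div_le_div_iff₀ (by positivity) hr]
    nlinarith [mul_le_mul_of_nonneg_right e2 hr.le]
  have e4 : (D / (2 * τ)) ^ 2 / r = D ^ 2 / (4 - r) := by
    rw [← hτ2, div_pow, div_div]
    ring_nf
  rw [e1]
  have e5 : (S ^ 2 + (D / (2 * τ)) ^ 2) / r = S ^ 2 / r + D ^ 2 / (4 - r) := by
    rw [add_div, e4]
  linarith

private theorem Mono_bound_far {N r S D G K : ℝ} (hr : 3 < r) (hN : N ^ 2 ≤ r)
    (hG : S ^ 2 / 3 + D ^ 2 / (4 - 3) + K ≤ G ^ 2) :
    ((N / r) * S) ^ 2 + K ≤ G ^ 2 := by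
  have hr0 : 0 < r := by linarith
  have e1 : ((N / r) * S) ^ 2 ≤ S ^ 2 / 3 := by
    have : ((N / r) * S) ^ 2 = N ^ 2 * S ^ 2 / r ^ 2 := by
      field_simp
    rw [this, div_le_div_iff₀ (by positivity) (by norm_num)]
    have h1 : N ^ 2 * S ^ 2 ≤ r * S ^ 2 := mul_le_mul_of_nonneg_right hN (sq_nonneg S)
    have h2 : 0 ≤ S ^ 2 * (r * (r - 3)) := by
      apply mul_nonneg (sq_nonneg S) (mul_nonneg hr0.le (by linarith))
    nlinarith
  have e2 : 0 ≤ D ^ 2 / (4 - 3) := by positivity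
  linarith

private theorem Mono_bound_total {q' Q0 k v G σ γ : ℝ} (hG : 0 ≤ G)
    (h : q' ^ 2 + k ^ 2 * Q0 ^ 2 ≤ G ^ 2) (hv : v ^ 2 ≤ 1) (hs : σ ^ 2 + γ ^ 2 = 1) :
    |q' * σ + Q0 * (γ * (k * v))| ≤ G := by
  apply abs_le_of_sq_le_sq _ hG
  have h1 : (q' * σ + Q0 * (γ * (k * v))) ^ 2 ≤ q' ^ 2 + (Q0 * (k * v)) ^ 2 := by
    have : q' ^ 2 + (Q0 * (k * v)) ^ 2 = (q' ^ 2 + (Q0 * (k * v)) ^ 2) * (σ ^ 2 + γ ^ 2) := by
      rw [hs, mul_one]
    rw [this]
    nlinarith [sq_nonneg (q' * γ - Q0 * (k * v) * σ)]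
  have h2 : (Q0 * (k * v)) ^ 2 ≤ k ^ 2 * Q0 ^ 2 := by
    have : (Q0 * (k * v)) ^ 2 = k ^ 2 * Q0 ^ 2 * v ^ 2 := by ring
    rw [this]
    exact mul_le_of_le_one_right (by positivity) hv
  linarith

private theorem Mono_mvt {g : ℝ → ℝ} {a b G : ℝ} (hab : a ≤ b)
    (hc : ContinuousOn g (Set.Icc a b))
    (hd : ∀ x ∈ Set.Ioo a b, ∃ d, HasDerivAt g d x ∧ |d| ≤ G) :
    |g b - g a| ≤ G * (b - a) := by
  rcases hab.eq_or_lt with h | h
  · subst h
    simp
  · choose! g' hg using hd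
    obtain ⟨x, hx, he⟩ := exists_hasDerivAt_eq_slope g g' h hc fun x hx => (hg x hx).1
    have h1 := (hg x hx).2
    rw [he, abs_div, abs_of_pos (sub_pos.2 h), div_le_iff₀ (sub_pos.2 h)] at h1
    exact h1

private theorem Mono_deriv_bound {X G : ℝ} {a p v : Pt} {s T : ℝ} (hv : r2 v = 1)
    (hG : 0 ≤ G) (hlo : 1 < r2 (p + s • v - a)) (hne : r2 (p + s • v - a) ≠ 3)
    (hle : r2 (p + s • v - a) ≤ T)
    (hgrad : ∀ e1 e2, UPair e1 e2 → r2 (e1 + e2) ≤ T → GradAt e1 e2 G) :
    ∃ d, HasDerivAt (fun s => Ed X a (p + s • v)) d s ∧ |d| ≤ G := by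
  have hw : ∀ s : ℝ, p + s • v - a = (p - a) + s • v := fun s => add_sub_right_comm _ _ _
  rw [hw] at hlo hne hle
  set w : Pt := p - a with hwd
  have hr : 0 < r2 (w + s • v) := by linarith
  have hv2 : v.2 ^ 2 ≤ 1 := by
    have : v.1 ^ 2 + v.2 ^ 2 = 1 := hv
    nlinarith [sq_nonneg v.1]
  have hE : (fun s => Ed X a (p + s • v)) = fun s => Q (w + s • v) *
      Real.sin (kk * (a.2 + (p.2 + s * v.2)) - X) := by
    funext s
    unfold Ed
    rw [hw]
    rfl
  have hph : HasDerivAt (fun s => kk * (a.2 + (p.2 + s * v.2)) - X) (kk * v.2) s := by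
    have := (((((hasDerivAt_id s).mul_const v.2).const_add p.2).const_add a.2).const_mul kk).sub_const X
    simpa using this
  have hsin := hph.sin
  have hcs : Real.sin (kk * (a.2 + (p.2 + s * v.2)) - X) ^ 2 +
      Real.cos (kk * (a.2 + (p.2 + s * v.2)) - X) ^ 2 = 1 := Real.sin_sq_add_cos_sq _
  have hNM : (v.2 * (w + s • v).1 - v.1 * (w + s • v).2) ^ 2 +
      (v.1 * (w + s • v).1 + v.2 * (w + s • v).2) ^ 2 = r2 (w + s • v) := by
    have e1 : v.1 ^ 2 + v.2 ^ 2 = 1 := hv
    rw [show r2 (w + s • v) = (w + s • v).1 ^ 2 + (w + s • v).2 ^ 2 from rfl]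
    linear_combination ((w + s • v).1 ^ 2 + (w + s • v).2 ^ 2) * e1
  rw [hE]
  rcases lt_or_gt_of_ne hne with h3 | h3
  · have hQ := hasDerivAt_Q (w := w) (v := v) hlo h3
    refine ⟨_, hQ.mul hsin, ?_⟩
    have hcut : cut (w + s • v) = w + s • v := by
      unfold cut
      rw [if_pos h3.le]
    have hU := upair_em_ep hlo.le h3.le
    have hsum := (em_ep hr (by linarith)).2.2.1
    have hg := hgrad _ _ hU (by rw [hsum]; exact hle)
    unfold GradAt at hg
    rw [hsum] at hg
    have hQe : Q (w + s • v) = QQ (em (w + s • v)) (ep (w + s • v)) := by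
      unfold Q
      rw [hcut]
    have htpos : 0 < 1 / r2 (w + s • v) - 1 / 4 := by
      have : 1 / 4 < 1 / r2 (w + s • v) := one_div_lt_one_div_of_lt hr (by linarith)
      linarith
    have ht0 : 0 < tt (w + s • v) := Real.sqrt_pos.2 htpos
    have ht2 : tt (w + s • v) ^ 2 = 1 / r2 (w + s • v) - 1 / 4 := Real.sq_sqrt htpos.le
    have ht3 : 4 * tt (w + s • v) ^ 2 * r2 (w + s • v) = 4 - r2 (w + s • v) := by
      rw [ht2]
      field_simp
    rw [← hQe] at hg
    have hb := Mono_bound_near hr hNM ht0 ht3 hg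
    exact Mono_bound_total hG hb hv2 hcs
  · have hQ := Mono_deriv_far (w := w) (v := v) h3
    refine ⟨_, hQ.mul hsin, ?_⟩
    obtain ⟨-, -, hc3⟩ := Mono_em_cut h3
    have hU := upair_em_ep (w := cut (w + s • v)) (by rw [hc3]; norm_num) hc3.le
    have hsum := (em_ep (w := cut (w + s • v)) (by rw [hc3]; norm_num) (by rw [hc3]; norm_num)).2.2.1
    have hg := hgrad _ _ hU (by rw [hsum, hc3]; linarith)
    unfold GradAt at hg
    rw [hsum, hc3] at hg
    have hN : (v.2 * (w + s • v).1 - v.1 * (w + s • v).2) ^ 2 ≤ r2 (w + s • v) := by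
      rw [← hNM]
      nlinarith [sq_nonneg (v.1 * (w + s • v).1 + v.2 * (w + s • v).2)]
    have hb := Mono_bound_far h3 hN hg
    exact Mono_bound_total hG hb hv2 hcs

/-- The value of an edge whose end point moves away along a line. -/
theorem edge_lip {X G : ℝ} {a p v : Pt} {t : ℝ} (hv : r2 v = 1) (ht : 0 ≤ t)
    (hdir : 0 ≤ (p.1 - a.1) * v.1 + (p.2 - a.2) * v.2) (h1 : 1 ≤ r2 (p - a))
    (h4 : r2 (p + t • v - a) ≤ 4) (hG : 0 ≤ G)
    (hgrad : ∀ e1 e2, UPair e1 e2 → r2 (e1 + e2) ≤ r2 (p + t • v - a) → GradAt e1 e2 G) :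
    |Ed X a (p + t • v) - Ed X a p| ≤ G * t := by
  have hr : ∀ s : ℝ, r2 (p + s • v - a) = r2 (p - a) +
      2 * s * ((p.1 - a.1) * v.1 + (p.2 - a.2) * v.2) + s ^ 2 := by
    intro s
    rw [add_sub_right_comm]
    exact Mono_r2_line (p - a) v s hv
  set m := (p.1 - a.1) * v.1 + (p.2 - a.2) * v.2 with hm
  have hmono : ∀ s1 s2 : ℝ, 0 ≤ s1 → s1 < s2 → r2 (p + s1 • v - a) < r2 (p + s2 • v - a) := by
    intro s1 s2 h0 h12
    rw [hr, hr]
    nlinarith [mul_nonneg (sub_nonneg.2 h12.le) hdir, mul_pos (sub_pos.2 h12) (lt_of_le_of_lt h0 h12),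
      mul_nonneg (sub_nonneg.2 h12.le) h0]
  have hr0 : r2 (p + (0 : ℝ) • v - a) = r2 (p - a) := by rw [hr]; ring
  have hge : ∀ s : ℝ, 0 ≤ s → 1 ≤ r2 (p + s • v - a) := by
    intro s hs
    rw [hr]
    nlinarith [mul_nonneg hs hdir, sq_nonneg s]
  have hgt : ∀ s : ℝ, 0 < s → 1 < r2 (p + s • v - a) := by
    intro s hs
    rw [hr]
    nlinarith [mul_nonneg hs.le hdir, mul_pos hs hs]
  have hcont : ContinuousOn (fun s : ℝ => Ed X a (p + s • v)) (Set.Ici 0) := by
    intro s hs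
    apply ContinuousAt.continuousWithinAt
    have hp : ContinuousAt (fun s : ℝ => p + s • v - a) s := by fun_prop
    have hQ : ContinuousAt (fun s : ℝ => Q (p + s • v - a)) s :=
      ContinuousAt.comp (f := fun s : ℝ => p + s • v - a)
        (Mono_cont_Q (by have := hge s hs; linarith)) hp
    have hsn : ContinuousAt (fun s : ℝ => Real.sin (kk * (a.2 + (p + s • v).2) - X)) s := by
      have : Continuous (fun s : ℝ => Real.sin (kk * (a.2 + (p + s • v).2) - X)) := by
        fun_prop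
      exact this.continuousAt
    exact hQ.mul hsn
  have key : ∀ s1 s2 : ℝ, 0 ≤ s1 → s1 ≤ s2 → s2 ≤ t →
      (∀ s, s1 < s → s < s2 → r2 (p + s • v - a) ≠ 3) →
      |Ed X a (p + s2 • v) - Ed X a (p + s1 • v)| ≤ G * (s2 - s1) := by
    intro s1 s2 h0 h12 h2 hne
    refine Mono_mvt (g := fun s => Ed X a (p + s • v)) h12
      (hcont.mono fun x hx => le_trans h0 hx.1) fun s hs => ?_
    refine Mono_deriv_bound hv hG (hgt s (lt_of_le_of_lt h0 hs.1)) (hne s hs.1 hs.2) ?_ hgrad
    exact (hmono s t (le_trans h0 hs.1.le) (lt_of_lt_of_le hs.2 h2)).le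
  have hz : Ed X a p = Ed X a (p + (0 : ℝ) • v) := by simp
  rw [hz]
  by_cases hA : r2 (p + t • v - a) ≤ 3
  · have := key 0 t le_rfl ht le_rfl fun s h0 hs => by
      have := hmono s t h0.le hs
      exact (lt_of_lt_of_le this hA).ne
    simpa using this
  · rw [not_le] at hA
    by_cases hB : 3 ≤ r2 (p - a)
    · have := key 0 t le_rfl ht le_rfl fun s h0 hs => by
        have := hmono 0 s le_rfl h0
        rw [hr0] at this
        exact (lt_of_le_of_lt hB this).ne'
      simpa using this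
    · rw [not_le] at hB
      have hc : ContinuousOn (fun s : ℝ => r2 (p + s • v - a)) (Set.Icc 0 t) := by
        refine Continuous.continuousOn ?_
        exact Mono_cont_r2.comp (by fun_prop)
      have hiv := intermediate_value_Icc ht hc
      obtain ⟨u, hu, hu3⟩ := hiv (show (3 : ℝ) ∈ Set.Icc _ _ from ⟨by
        rw [hr0]
        exact hB.le, hA.le⟩)
      simp only at hu3
      have k1 := key 0 u le_rfl hu.1 hu.2 fun s h0 hs => by
        have := hmono s u h0.le hs
        rw [hu3] at this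
        exact this.ne
      have k2 := key u t hu.1 hu.2 le_rfl fun s h0 hs => by
        have := hmono u s hu.1 h0
        rw [hu3] at this
        exact this.ne'
      calc |Ed X a (p + t • v) - Ed X a (p + (0 : ℝ) • v)|
          = |(Ed X a (p + t • v) - Ed X a (p + u • v)) +
              (Ed X a (p + u • v) - Ed X a (p + (0 : ℝ) • v))| := by ring_nf
        _ ≤ _ + _ := abs_add_le _ _
        _ ≤ G * (t - u) + G * (u - 0) := add_le_add k2 k1
        _ = G * t := by ring

/-- Moving a vertex away from the opposite side increases the slack.  `v` is the unit normal of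
`a b` on the side of the vertex `p`. -/
theorem tri_mono (hN : Num) {X l t : ℝ} {a b p v : Pt} (hv : r2 v = 1) (hl : 1 ≤ l)
    (hb : b = a + (l * v.2, -(l * v.1))) (ht : 0 ≤ t)
    (hy : 0 ≤ (p.1 - a.1) * v.1 + (p.2 - a.2) * v.2) (ha1 : 1 ≤ r2 (p - a)) (hb1 : 1 ≤ r2 (p - b))
    (ha4 : r2 (p + t • v - a) ≤ 4) (hb4 : r2 (p + t • v - b) ≤ 4)
    (hsm : r2 (p + t • v - a) ≤ 1953 / 1000 ∨ r2 (p + t • v - b) ≤ 1953 / 1000) :
    ff (1 / 18) X a b p ≤ ff (1 / 18) X a b (p + t • v) := by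
  have hb1' : b.1 = a.1 + l * v.2 := by rw [hb]; rfl
  have hb2' : b.2 = a.2 + -(l * v.1) := by rw [hb]; rfl
  have hyb : 0 ≤ (p.1 - b.1) * v.1 + (p.2 - b.2) * v.2 := by
    rw [hb1', hb2']
    have : (p.1 - (a.1 + l * v.2)) * v.1 + (p.2 - (a.2 + -(l * v.1))) * v.2 =
        (p.1 - a.1) * v.1 + (p.2 - a.2) * v.2 := by ring
    rw [this]
    exact hy
  have hcr : cr a b (p + t • v) - cr a b p = l * t := by
    have e1 : v.1 ^ 2 + v.2 ^ 2 = 1 := hv
    unfold cr
    rw [hb1', hb2']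
    simp only [Prod.fst_add, Prod.snd_add, Prod.smul_fst, Prod.smul_snd, smul_eq_mul]
    linear_combination (l * t) * e1
  have hsum : |Ed X b (p + t • v) - Ed X b p| + |Ed X a (p + t • v) - Ed X a p| ≤
      (455 / 100 + 584 / 100) * t := by
    have big : ∀ a : Pt, 0 ≤ (p.1 - a.1) * v.1 + (p.2 - a.2) * v.2 → 1 ≤ r2 (p - a) →
        r2 (p + t • v - a) ≤ 4 → |Ed X a (p + t • v) - Ed X a p| ≤ 584 / 100 * t :=
      fun a h1 h2 h3 => edge_lip hv ht h1 h2 h3 (by norm_num) fun e1 e2 hU _ => hN.all e1 e2 hU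
    have small : ∀ a : Pt, 0 ≤ (p.1 - a.1) * v.1 + (p.2 - a.2) * v.2 → 1 ≤ r2 (p - a) →
        r2 (p + t • v - a) ≤ 4 → r2 (p + t • v - a) ≤ 1953 / 1000 →
        |Ed X a (p + t • v) - Ed X a p| ≤ 455 / 100 * t :=
      fun a h1 h2 h3 h4 => edge_lip hv ht h1 h2 h3 (by norm_num) fun e1 e2 hU hle =>
        hN.small e1 e2 hU (hle.trans h4)
    rcases hsm with h | h
    · have k1 := small a hy ha1 ha4 h
      have k2 := big b hyb hb1 hb4
      linarith
    · have k1 := small b hyb hb1 hb4 h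
      have k2 := big a hy ha1 ha4
      linarith
  have hh := Mono_h0_pos
  have hlt : 0 ≤ (l - 1) * t := mul_nonneg (by linarith) ht
  have hh0 : (455 / 100 + 584 / 100) / 18 ≤ 1 / (2 * h0) := by
    have h2 : h0 ≤ 866 / 1000 + 1 / 5000 := by
      have := Mono_h0_sq
      nlinarith
    rw [le_div_iff₀ (by positivity)]
    nlinarith
  have hmain : (455 / 100 + 584 / 100) / 18 * t ≤ l * t / (2 * h0) := by
    have e1 : l * t / (2 * h0) = 1 / (2 * h0) * t + (l - 1) * t / (2 * h0) := by ring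
    have e2 : 0 ≤ (l - 1) * t / (2 * h0) := by positivity
    have e3 := mul_le_mul_of_nonneg_right hh0 ht
    linarith
  have hdiv : cr a b (p + t • v) / (2 * h0) - cr a b p / (2 * h0) = l * t / (2 * h0) := by
    rw [← sub_div, hcr]
  unfold ff
  rw [Ed_swap X a p, Ed_swap X a (p + t • v)]
  have a1 := neg_abs_le (Ed X b (p + t • v) - Ed X b p)
  have a2 := le_abs_self (Ed X a (p + t • v) - Ed X a p)
  linarith

end Pool.Agent.Strip051.Sine
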