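import Pool.Agent.Strip051.Sine.Iso
import Pool.Agent.Strip051.Sine.Mono

/-! # The walls -/

namespace Pool.Agent.Strip051.Sine

open Pool.Agent.StripNear Pool.Agent.Strip051.Sweep

private theorem h0_sq' : h0 ^ 2 = 3 / 4 := by
  unfold StripNear.h0
  rw [div_pow, Real.sq_sqrt (by norm_num)]
  norm_num

private theorem h0_pos' : 0 < h0 := by
  unfold StripNear.h0
  positivity

private theorem kk_pos' : 0 < kk := by
  unfold kk
  have := h0_pos'
  have := Real.pi_pos
  positivity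

private theorem kk_sq_le' : kk ^ 2 ≤ 13.16 := by
  rw [kk_sq]
  have h4 := Real.pi_lt_d6
  have hp := Real.pi_pos
  nlinarith

private theorem cs_bound {C S a b M : ℝ} (h : C ^ 2 + S ^ 2 = 1) (hM : 0 ≤ M)
    (hab : a ^ 2 + b ^ 2 ≤ M ^ 2) : |C * a + S * b| ≤ M := by
  apply abs_le_of_sq_le_sq _ hM
  have h1 : (C * a + S * b) ^ 2 = (C ^ 2 + S ^ 2) * (a ^ 2 + b ^ 2) - (C * b - S * a) ^ 2 := by
    ring
  rw [h1, h]
  nlinarith [sq_nonneg (C * b - S * a)]

/-- The function of the unit edge at the wall. -/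
private noncomputable def wf (X ψ : ℝ) : ℝ :=
  Real.cos ψ * Real.sin X - q (ee ψ) * Real.sin (X - kk * Real.sin ψ)

private theorem hasDerivAt_wf (X ψ : ℝ) : HasDerivAt (wf X)
    (-Real.sin ψ * Real.sin X + (Real.sin (X - kk * Real.sin ψ) * (-dq (ee ψ)) +
      Real.cos (X - kk * Real.sin ψ) * (q (ee ψ) * (kk * Real.cos ψ)))) ψ := by
  have h1 : HasDerivAt (fun ψ => X - kk * Real.sin ψ) (-(kk * Real.cos ψ)) ψ :=
    ((Real.hasDerivAt_sin ψ).const_mul kk).const_sub X
  have h2 := ((Real.hasDerivAt_cos ψ).mul_const (Real.sin X)).sub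
    ((hasDerivAt_q_ee ψ).mul h1.sin)
  refine h2.congr_deriv ?_
  ring

private theorem abs_wf_deriv_le (X ψ : ℝ) :
    |(-Real.sin ψ * Real.sin X + (Real.sin (X - kk * Real.sin ψ) * (-dq (ee ψ)) +
      Real.cos (X - kk * Real.sin ψ) * (q (ee ψ) * (kk * Real.cos ψ))))| ≤ 5.84 := by
  have h1 : |-Real.sin ψ * Real.sin X| ≤ 1 := by
    rw [abs_mul, abs_neg]
    exact mul_le_one₀ (Real.abs_sin_le_one _) (abs_nonneg _) (Real.abs_sin_le_one _)
  have hd := abs_dq_le ψ
  have hq := abs_q_le ψ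
  have hc := Real.abs_cos_le_one ψ
  have hk := kk_pos'
  have hk2 := kk_sq_le'
  have h2 : |Real.sin (X - kk * Real.sin ψ) * (-dq (ee ψ)) +
      Real.cos (X - kk * Real.sin ψ) * (q (ee ψ) * (kk * Real.cos ψ))| ≤ 4.84 := by
    apply cs_bound (Real.sin_sq_add_cos_sq _) (by norm_num)
    have c1 := sq_le_sq' (abs_le.1 hd).1 (abs_le.1 hd).2
    have c2 := sq_le_sq' (abs_le.1 hq).1 (abs_le.1 hq).2
    have c3 := sq_le_sq' (abs_le.1 hc).1 (abs_le.1 hc).2
    have c4 : (q (ee ψ) * (kk * Real.cos ψ)) ^ 2 ≤ kk ^ 2 := by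
      have e : (q (ee ψ) * (kk * Real.cos ψ)) ^ 2 =
          (q (ee ψ) ^ 2 * Real.cos ψ ^ 2) * kk ^ 2 := by ring
      rw [e]
      have c5 : q (ee ψ) ^ 2 * Real.cos ψ ^ 2 ≤ 1 := by
        have := mul_le_mul c2 c3 (sq_nonneg _) (by norm_num)
        linarith
      have := mul_le_mul_of_nonneg_right c5 (sq_nonneg kk)
      linarith
    rw [neg_sq]
    linarith
  have h3 := abs_add_le (-Real.sin ψ * Real.sin X) (Real.sin (X - kk * Real.sin ψ) *
    (-dq (ee ψ)) + Real.cos (X - kk * Real.sin ψ) * (q (ee ψ) * (kk * Real.cos ψ)))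
  linarith

private theorem wf_lip (X ψ ψ' : ℝ) : |wf X ψ - wf X ψ'| ≤ 5.84 * |ψ - ψ'| := by
  have := Convex.norm_image_sub_le_of_norm_hasDerivWithin_le
    (f := wf X) (s := Set.univ) (x := ψ') (y := ψ) (C := 5.84)
    (fun x _ => (hasDerivAt_wf X x).hasDerivWithinAt) (fun x _ => abs_wf_deriv_le X x) convex_univ
    (Set.mem_univ _) (Set.mem_univ _)
  simpa using this

private theorem wf_zero (X : ℝ) : wf X 0 = 0 := by
  have h := sin_three_mul_dq 0
  have hq := q_ee 0
  unfold wf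
  simp only [mul_zero, Real.sin_zero, Real.cos_zero, zero_mul, zero_div, one_mul, sub_zero] at *
  have : A 0 = 1 := by linarith
  rw [hq, this]
  ring

private theorem wf_end (X : ℝ) : wf X (Real.pi / 3) = 0 := by
  have h := sin_three_mul_dq (Real.pi / 3)
  have hq := q_ee (Real.pi / 3)
  have e3 : 3 * (Real.pi / 3) = Real.pi := by ring
  have es : kk * Real.sin (Real.pi / 3) = Real.pi := by
    rw [Real.sin_pi_div_three]
    have := h0_pos'
    have e : Real.sqrt 3 / 2 = h0 := rfl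
    rw [e]
    unfold kk
    field_simp
  rw [e3, es, Real.sin_pi, Real.cos_pi, Real.cos_pi_div_three, zero_mul] at h
  rw [e3, Real.cos_pi] at hq
  unfold wf
  rw [hq, es, Real.sin_sub_pi, Real.cos_pi_div_three]
  linear_combination (-Real.sin X / 3) * h

private theorem sqrt3_ge : (1.732 : ℝ) ≤ Real.sqrt 3 := by
  apply Real.le_sqrt_of_sq_le
  norm_num

/-- Lower bound of the right side on the unit circle. -/
private theorem V_lower {t ψ : ℝ} (h0t : 0 ≤ t) (ht1 : t ≤ 1)
    (hψ : ψ = t * (Real.pi / 6) ∨ ψ = Real.pi / 3 - t * (Real.pi / 6)) :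
    t * (183 / 1000) ≤ Real.cos ψ * (Real.sin ψ / (2 * h0) + 1 / 2) - 1 / 2 := by
  have hp := Real.pi_pos
  have hh := h0_pos'
  have e : Real.cos ψ * (Real.sin ψ / (2 * h0) + 1 / 2) - 1 / 2 =
      Real.sin (2 * ψ) / (4 * h0) + Real.cos ψ / 2 - 1 / 2 := by
    rw [Real.sin_two_mul]
    field_simp
    ring
  have hs3 := sqrt3_ge
  have hsin : Real.sin (Real.pi / 3) = 2 * h0 / 2 := by
    rw [Real.sin_pi_div_three]
    unfold StripNear.h0
    ring
  have key : ∀ a b : ℝ, a * h0 ≤ Real.sin (2 * ψ) → b ≤ Real.cos ψ →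
      a / 4 + b / 2 - 1 / 2 ≤ Real.sin (2 * ψ) / (4 * h0) + Real.cos ψ / 2 - 1 / 2 := by
    intro a b ha hb
    have : a / 4 ≤ Real.sin (2 * ψ) / (4 * h0) := by
      rw [le_div_iff₀ (by positivity)]
      linarith
    linarith
  rw [e]
  rcases hψ with rfl | rfl
  · have h1 : t * h0 ≤ Real.sin (2 * (t * (Real.pi / 6))) := by
      have := (strictConcaveOn_sin_Icc.concaveOn).2
        (show (0 : ℝ) ∈ Set.Icc 0 Real.pi from ⟨le_rfl, hp.le⟩)
        (show Real.pi / 3 ∈ Set.Icc 0 Real.pi from ⟨by positivity, by linarith⟩)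
        (show 0 ≤ 1 - t by linarith) h0t (by ring)
      simp only [smul_eq_mul, Real.sin_zero, mul_zero, zero_add, hsin] at this
      have e2 : 2 * (t * (Real.pi / 6)) = t * (Real.pi / 3) := by ring
      rw [e2]
      linarith
    have h2 : (1 - t) + t * (Real.sqrt 3 / 2) ≤ Real.cos (t * (Real.pi / 6)) := by
      have := (strictConcaveOn_cos_Icc.concaveOn).2
        (show (0 : ℝ) ∈ Set.Icc (-(Real.pi / 2)) (Real.pi / 2) from ⟨by linarith, by linarith⟩)
        (show Real.pi / 6 ∈ Set.Icc (-(Real.pi / 2)) (Real.pi / 2) from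
          ⟨by linarith, by linarith⟩)
        (show 0 ≤ 1 - t by linarith) h0t (by ring)
      simp only [smul_eq_mul, Real.cos_zero, mul_zero, zero_add, Real.cos_pi_div_six, mul_one]
        at this
      exact this
    refine le_trans ?_ (key _ _ h1 h2)
    nlinarith
  · have h1 : 1 * h0 ≤ Real.sin (2 * (Real.pi / 3 - t * (Real.pi / 6))) := by
      have := (strictConcaveOn_sin_Icc.concaveOn).2
        (show 2 * (Real.pi / 3) ∈ Set.Icc 0 Real.pi from ⟨by positivity, by linarith⟩)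
        (show Real.pi / 3 ∈ Set.Icc 0 Real.pi from ⟨by positivity, by linarith⟩)
        (show 0 ≤ 1 - t by linarith) h0t (by ring)
      have e4 : Real.sin (2 * (Real.pi / 3)) = 2 * h0 / 2 := by
        have : 2 * (Real.pi / 3) = Real.pi - Real.pi / 3 := by ring
        rw [this, Real.sin_pi_sub, hsin]
      simp only [smul_eq_mul, hsin, e4] at this
      have e2 : 2 * (Real.pi / 3 - t * (Real.pi / 6)) =
          (1 - t) * (2 * (Real.pi / 3)) + t * (Real.pi / 3) := by ring
      rw [e2]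
      linarith
    have h2 : (1 - t) / 2 + t * (Real.sqrt 3 / 2) ≤
        Real.cos (Real.pi / 3 - t * (Real.pi / 6)) := by
      have := (strictConcaveOn_cos_Icc.concaveOn).2
        (show Real.pi / 3 ∈ Set.Icc (-(Real.pi / 2)) (Real.pi / 2) from
          ⟨by linarith, by linarith⟩)
        (show Real.pi / 6 ∈ Set.Icc (-(Real.pi / 2)) (Real.pi / 2) from
          ⟨by linarith, by linarith⟩)
        (show 0 ≤ 1 - t by linarith) h0t (by ring)
      simp only [smul_eq_mul, Real.cos_pi_div_three, Real.cos_pi_div_six] at this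
      have e2 : Real.pi / 3 - t * (Real.pi / 6) =
          (1 - t) * (Real.pi / 3) + t * (Real.pi / 6) := by ring
      rw [e2]
      linarith
    refine le_trans ?_ (key _ _ h1 h2)
    nlinarith

/-- The inequality for unit edges. -/
private theorem wf_le {X ψ : ℝ} (h0 : 0 ≤ ψ) (h1 : ψ ≤ Real.pi / 3) :
    1 / 18 * wf X ψ ≤ Real.cos ψ * (Real.sin ψ / (2 * StripNear.h0) + 1 / 2) - 1 / 2 := by
  have hp := Real.pi_pos
  have hp2 := Real.pi_lt_d2
  rcases le_total ψ (Real.pi / 6) with h | h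
  · have hV := V_lower (t := ψ / (Real.pi / 6)) (ψ := ψ) (by positivity)
      (by rw [div_le_one (by positivity)]; exact h)
      (Or.inl (by field_simp))
    have hl := wf_lip X ψ 0
    rw [wf_zero, sub_zero, sub_zero, abs_of_nonneg h0] at hl
    have h2 : 1 / 18 * (5.84 * ψ) ≤ ψ / (Real.pi / 6) * (183 / 1000) := by
      have e : ψ / (Real.pi / 6) * (183 / 1000) = ψ * (6 * (183 / 1000)) / Real.pi := by
        field_simp
      rw [e, le_div_iff₀ hp]
      nlinarith
    have := le_abs_self (wf X ψ)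
    linarith
  · have hV := V_lower (t := (Real.pi / 3 - ψ) / (Real.pi / 6)) (ψ := ψ)
      (div_nonneg (by linarith) (by positivity))
      (by rw [div_le_one (by positivity)]; linarith)
      (Or.inr (by field_simp; ring))
    have hl := wf_lip X ψ (Real.pi / 3)
    rw [wf_end, sub_zero, abs_sub_comm ψ,
      abs_of_nonneg (by linarith : (0 : ℝ) ≤ Real.pi / 3 - ψ)] at hl
    have h2 : 1 / 18 * (5.84 * (Real.pi / 3 - ψ)) ≤
        (Real.pi / 3 - ψ) / (Real.pi / 6) * (183 / 1000) := by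
      have e : (Real.pi / 3 - ψ) / (Real.pi / 6) * (183 / 1000) =
          (Real.pi / 3 - ψ) * (6 * (183 / 1000)) / Real.pi := by
        field_simp
      have h3 : 0 ≤ Real.pi / 3 - ψ := by linarith
      rw [e, le_div_iff₀ hp]
      nlinarith
    have := le_abs_self (wf X ψ)
    linarith

/-- The inequality when the lower point is on the wall. -/
private theorem wall_zero (hN : Num) {X x D : ℝ} (hx : 0 < x) (hD : 0 ≤ D)
    (h1 : 1 ≤ x ^ 2 + D ^ 2) (h2 : x ^ 2 + D ^ 2 ≤ 2 * x) :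
    1 / 18 * (x * Real.sin X - Q (x, D) * Real.sin (X - kk * D)) ≤
      x * (D / (2 * h0) + 1 / 2) - 1 / 2 := by
  have hh := h0_pos'
  set ρ : ℝ := Real.sqrt (x ^ 2 + D ^ 2) with hρ
  have hρ2 : ρ ^ 2 = x ^ 2 + D ^ 2 := Real.sq_sqrt (by positivity)
  have hρ1 : 1 ≤ ρ := by
    rw [hρ]
    exact Real.one_le_sqrt.2 h1
  have hρ0 : 0 < ρ := by linarith
  have hxρ : x ≤ ρ := by
    apply le_of_sq_le_sq _ hρ0.le
    nlinarith
  have hρle : ρ ≤ 2 := by nlinarith
  set C : ℝ := x / ρ with hC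
  set S : ℝ := D / ρ with hS
  have hxC : x = ρ * C := by rw [hC]; field_simp
  have hDS : D = ρ * S := by rw [hS]; field_simp
  have hC0 : 0 ≤ C := by positivity
  have hS0 : 0 ≤ S := by positivity
  have hCS : C ^ 2 + S ^ 2 = 1 := by
    rw [hC, hS, div_pow, div_pow, ← add_div, ← hρ2]
    exact div_self (by positivity)
  have hC2 : ρ / 2 ≤ C := by
    rw [hC, le_div_iff₀ hρ0]
    nlinarith
  have hC1 : C ≤ 1 := by nlinarith
  -- the angle
  set ψ : ℝ := Real.arccos C with hψ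
  have hcosψ : Real.cos ψ = C := Real.cos_arccos (by linarith) hC1
  have hsinψ : Real.sin ψ = S := by
    rw [hψ, Real.sin_arccos]
    have : 1 - C ^ 2 = S ^ 2 := by linarith
    rw [this, Real.sqrt_sq hS0]
  have hψ0 : 0 ≤ ψ := Real.arccos_nonneg _
  have hψ3 : ψ ≤ Real.pi / 3 := by
    have e : Real.pi / 3 = Real.arccos (1 / 2) := by
      rw [← Real.cos_pi_div_three, Real.arccos_cos (by positivity) (by linarith [Real.pi_pos])]
    rw [e]
    exact Real.arccos_le_arccos (by linarith)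
  have hunit := wf_le (X := X) hψ0 hψ3
  -- moving along the ray
  have hv : r2 ((C, S) : Pt) = 1 := hCS
  have hlip := edge_lip (X := X) (G := 584 / 100) (a := (0, 0)) (p := (C, S)) (v := (C, S))
    (t := ρ - 1) hv (by linarith) (by simp only; nlinarith)
    (by unfold r2; simp only [Prod.fst_sub, Prod.snd_sub, sub_zero]; linarith)
    (by
      unfold r2
      simp only [Prod.fst_sub, Prod.snd_sub, Prod.fst_add, Prod.snd_add, Prod.smul_fst,
        Prod.smul_snd, smul_eq_mul, sub_zero]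
      nlinarith)
    (by norm_num) (fun e1 e2 hU _ => hN.all e1 e2 hU)
  have e1 : Ed X (0, 0) ((C, S) + (ρ - 1) • (C, S)) =
      -(Q (x, D) * Real.sin (X - kk * D)) := by
    have e : ((C, S) + (ρ - 1) • (C, S) : Pt) = (x, D) := by
      refine Prod.ext ?_ ?_
      · simp only [Prod.fst_add, Prod.smul_fst, smul_eq_mul]
        rw [hxC]
        ring
      · simp only [Prod.snd_add, Prod.smul_snd, smul_eq_mul]
        rw [hDS]
        ring
    rw [e]
    unfold Ed
    have e2 : ((x, D) : Pt) - (0, 0) = (x, D) := by simp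
    rw [e2]
    have e3 : kk * (((0, 0) : Pt).2 + ((x, D) : Pt).2) - X = -(X - kk * D) := by
      simp only
      ring
    rw [e3, Real.sin_neg]
    ring
  have e2 : Ed X (0, 0) (C, S) = -(q (ee ψ) * Real.sin (X - kk * Real.sin ψ)) := by
    unfold Ed
    have e2 : ((C, S) : Pt) - (0, 0) = ee ψ := by
      unfold ee
      rw [hcosψ, hsinψ]
      simp
    rw [e2, Q_unit (by unfold r2 ee; exact Real.cos_sq_add_sin_sq ψ), hsinψ]
    have e3 : kk * (((0, 0) : Pt).2 + ((C, S) : Pt).2) - X = -(X - kk * S) := by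
      simp only
      ring
    rw [e3, Real.sin_neg]
    ring
  rw [e1, e2, hsinψ] at hlip
  unfold wf at hunit
  rw [hcosψ] at hunit
  rw [abs_le] at hlip
  have hsX := Real.abs_sin_le_one X
  rw [abs_le] at hsX
  -- the right side
  have hsin : S / (2 * h0) = Real.sin ψ / (2 * h0) := by rw [hsinψ]
  have hf : (444 / 1000 : ℝ) ≤ C * (S / h0 + 4 / 9) := by
    have hS3 : S ≤ h0 := by
      apply le_of_sq_le_sq _ hh.le
      rw [h0_sq']
      nlinarith
    have h5 : S ≤ S / h0 := by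
      rw [le_div_iff₀ hh]
      have : h0 ≤ 1 := by nlinarith [h0_sq']
      nlinarith
    have h6 : (1 - C) * (3 / 2) ≤ S ^ 2 := by nlinarith
    have hS1 : S ≤ 1 := by nlinarith
    have h7 : S ^ 2 ≤ S := by nlinarith
    have h8 : S / 2 ≤ C * S := by nlinarith
    have h9 : C * S ≤ C * (S / h0) := mul_le_mul_of_nonneg_left h5 hC0
    linarith
  rw [hsinψ] at hunit
  have hstep : (ρ - 1) * (444 / 1000) + (ρ - 1) * (C * (1 / 18)) ≤
      x * (D / (2 * h0) + 1 / 2) - C * (S / (2 * h0) + 1 / 2) := by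
    have e5 : x * (D / (2 * h0) + 1 / 2) - C * (S / (2 * h0) + 1 / 2) =
        (ρ - 1) * (C * ((ρ + 1) * S / (2 * h0) + 1 / 2)) := by
      rw [hxC, hDS]
      ring
    have e6 : S / h0 ≤ (ρ + 1) * S / (2 * h0) := by
      rw [div_le_div_iff₀ hh (by positivity)]
      have : 0 ≤ S * h0 := by positivity
      nlinarith
    have e7 : C * (S / h0 + 1 / 2) ≤ C * ((ρ + 1) * S / (2 * h0) + 1 / 2) := by
      apply mul_le_mul_of_nonneg_left _ hC0
      linarith
    have e8 : (444 / 1000 : ℝ) + C * (1 / 18) ≤ C * ((ρ + 1) * S / (2 * h0) + 1 / 2) := by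
      linarith
    have := mul_le_mul_of_nonneg_left e8 (by linarith : 0 ≤ ρ - 1)
    rw [e5]
    linarith
  have hxs : (x - C) * Real.sin X ≤ (ρ - 1) * C := by
    have e9 : x - C = (ρ - 1) * C := by rw [hxC]; ring
    rw [e9]
    have : 0 ≤ (ρ - 1) * C := mul_nonneg (by linarith) hC0
    nlinarith [hsX.2]
  have hρ' : 0 ≤ ρ - 1 := by linarith
  nlinarith [hlip.1, hlip.2]

/-- The wall inequality.  `d1 ≥ d2 ≥ 0` are the distances of the two points from the wall, `x` is
their horizontal distance. -/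
theorem wall_ineq (hN : Num) {X x d1 d2 m : ℝ} (hx : 0 < x) (hd2 : 0 ≤ d2) (hd : d2 ≤ d1)
    (hsep : 1 ≤ x ^ 2 + (d1 - d2) ^ 2) (heq : m ^ 2 + d1 ^ 2 = (x - m) ^ 2 + d2 ^ 2)
    (hrad : m ^ 2 + d1 ^ 2 ≤ 1) :
    1 / 18 * (x * Real.sin X - Q (x, d1 - d2) * Real.sin (X - kk * (d1 + d2))) ≤
      x * ((d1 + d2) / (2 * h0) + 1 / 2) - 1 / 2 := by
  have hh := h0_pos'
  set D := d1 - d2 with hD
  have hD0 : 0 ≤ D := by rw [hD]; linarith
  have hSD : d1 + d2 = D + 2 * d2 := by rw [hD]; ring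
  have hm : 2 * x * m = x ^ 2 - (d1 + d2) * D := by
    rw [hD]
    linear_combination heq
  have hR : (x ^ 2 + (d1 + d2) ^ 2) * (x ^ 2 + D ^ 2) ≤ 4 * x ^ 2 := by
    have e : (x ^ 2 + (d1 + d2) ^ 2) * (x ^ 2 + D ^ 2) = 4 * x ^ 2 * (m ^ 2 + d1 ^ 2) := by
      have e2 : 4 * x ^ 2 * (m ^ 2 + d1 ^ 2) = (2 * x * m) ^ 2 + 4 * x ^ 2 * d1 ^ 2 := by ring
      rw [e2, hm, hD]
      ring
    rw [e]
    nlinarith [sq_nonneg x]
  have hρ : x ^ 2 + D ^ 2 ≤ 2 * x := by
    have h3 : (x ^ 2 + D ^ 2) ^ 2 ≤ (2 * x) ^ 2 := by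
      have h4 : D ^ 2 ≤ (d1 + d2) ^ 2 := by
        apply pow_le_pow_left₀ hD0
        rw [hD]
        linarith
      have h5 : (x ^ 2 + D ^ 2) * (x ^ 2 + D ^ 2) ≤ (x ^ 2 + (d1 + d2) ^ 2) * (x ^ 2 + D ^ 2) :=
        mul_le_mul_of_nonneg_right (by linarith) (by positivity)
      nlinarith
    exact le_of_sq_le_sq h3 (by positivity)
  have hz := wall_zero hN (X := X) hx hD0 hsep hρ
  -- moving both points away from the wall
  have h1 : |Real.sin (X - kk * (d1 + d2)) - Real.sin (X - kk * D)| ≤ kk * (2 * d2) := by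
    have := Real.abs_sin_sub_sin_le (X - kk * (d1 + d2)) (X - kk * D)
    have e : X - kk * (d1 + d2) - (X - kk * D) = -(kk * (2 * d2)) := by
      rw [hSD]
      ring
    rw [e, abs_neg, abs_of_nonneg (mul_nonneg kk_pos'.le (by linarith))] at this
    exact this
  have hQx : |Q (x, D)| * (2 * Real.pi / 18) ≤ x := by
    have hp2 := Real.pi_lt_d2
    have hp := Real.pi_pos
    have hr1 : 1 ≤ r2 ((x, D) : Pt) := hsep
    rcases le_total (r2 ((x, D) : Pt)) (1953 / 1000) with h | h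
    · have h2 := abs_Q_le_small hN hr1 h
      have hx2 : 1 / 2 ≤ x := by linarith
      have : |Q (x, D)| * (2 * Real.pi / 18) ≤ 126 / 100 * (2 * Real.pi / 18) :=
        mul_le_mul_of_nonneg_right h2 (by positivity)
      linarith
    · have h2 := abs_Q_le hN hr1
      have hx2 : 1953 / 2000 ≤ x := by
        have : (1953 / 1000 : ℝ) ≤ x ^ 2 + D ^ 2 := h
        linarith
      have : |Q (x, D)| * (2 * Real.pi / 18) ≤ 152 / 100 * (2 * Real.pi / 18) :=
        mul_le_mul_of_nonneg_right h2 (by positivity)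
      linarith
  have h2 : 1 / 18 * (Q (x, D) * Real.sin (X - kk * D) - Q (x, D) *
      Real.sin (X - kk * (d1 + d2))) ≤ x * (2 * d2 / (2 * h0)) := by
    have h3 : Q (x, D) * Real.sin (X - kk * D) - Q (x, D) * Real.sin (X - kk * (d1 + d2)) ≤
        |Q (x, D)| * (kk * (2 * d2)) := by
      have e : Q (x, D) * Real.sin (X - kk * D) - Q (x, D) * Real.sin (X - kk * (d1 + d2)) =
          Q (x, D) * (-(Real.sin (X - kk * (d1 + d2)) - Real.sin (X - kk * D))) := by ring
      rw [e]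
      refine (le_abs_self _).trans ?_
      rw [abs_mul, abs_neg]
      exact mul_le_mul_of_nonneg_left h1 (abs_nonneg _)
    have h4 : |Q (x, D)| * (2 * Real.pi / 18) * (d2 / h0) ≤ x * (d2 / h0) :=
      mul_le_mul_of_nonneg_right hQx (by positivity)
    have e5 : x * (2 * d2 / (2 * h0)) = x * (d2 / h0) := by
      field_simp
    have e6 : 1 / 18 * (|Q (x, D)| * (kk * (2 * d2))) =
        |Q (x, D)| * (2 * Real.pi / 18) * (d2 / h0) := by
      unfold kk
      ring
    rw [e5]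
    linarith
  have e7 : x * ((d1 + d2) / (2 * h0) + 1 / 2) - 1 / 2 =
      x * (D / (2 * h0) + 1 / 2) - 1 / 2 + x * (2 * d2 / (2 * h0)) := by
    rw [hSD]
    ring
  rw [e7]
  linarith

end Pool.Agent.Strip051.Sine
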