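import Pool.Agent.Strip051.Sine.Tri
import Pool.Agent.Strip051.Sine.Wall
import Pool.Agent.StripNear.Density

/-! # The bound -/

namespace Pool.Agent.Strip051.Sine

open Pool.Agent.StripNear Pool.Agent.Strip051.Sweep

/-- The edge function of the certificate. -/
noncomputable def FF (X : ℝ) (a b : Pt) : ℝ :=
  -(a.2 + b.2) * (b.1 - a.1) / (2 * h0) + 1 / 18 * Ed X a b

/-- Three points of a circle about the origin, in order of height, the middle one on the right. -/
private theorem main_or_circle {A1 A2 B1 B2 C1 C2 : ℝ} (hAB : A1 ^ 2 + A2 ^ 2 = B1 ^ 2 + B2 ^ 2)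
    (hBC : B1 ^ 2 + B2 ^ 2 = C1 ^ 2 + C2 ^ 2) (h1 : A2 < B2 ∨ A2 = B2 ∧ A1 ≠ B1)
    (h2 : B2 < C2 ∨ B2 = C2 ∧ B1 ≠ C1) (hB : 0 < B1)
    (h3 : A2 = B2 → B2 = C2 → False) :
    0 < (B1 - A1) * (C2 - A2) - (C1 - A1) * (B2 - A2) := by
  have e : (B1 - A1) * (C2 - A2) - (C1 - A1) * (B2 - A2) =
      B1 * ((C2 - B2) + (B2 - A2)) - ((C2 - B2) * A1 + (B2 - A2) * C1) := by ring
  rw [e]
  have key : (B1 * ((C2 - B2) + (B2 - A2))) ^ 2 - ((C2 - B2) * A1 + (B2 - A2) * C1) ^ 2 =
      (C2 - B2) * (B2 - A2) * ((C1 - A1) ^ 2 + (C2 - A2) ^ 2) := by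
    have hA : A1 ^ 2 = B1 ^ 2 + B2 ^ 2 - A2 ^ 2 := by linarith
    have hC : C1 ^ 2 = B1 ^ 2 + B2 ^ 2 - C2 ^ 2 := by linarith
    have : (B1 * ((C2 - B2) + (B2 - A2))) ^ 2 - ((C2 - B2) * A1 + (B2 - A2) * C1) ^ 2 -
      (C2 - B2) * (B2 - A2) * ((C1 - A1) ^ 2 + (C2 - A2) ^ 2) =
      B1 ^ 2 * ((C2 - B2) + (B2 - A2)) ^ 2 - (C2 - B2) * ((C2 - B2) + (B2 - A2)) * A1 ^ 2 -
        (B2 - A2) * ((C2 - B2) + (B2 - A2)) * C1 ^ 2 -
        (C2 - B2) * (B2 - A2) * (C2 - A2) ^ 2 := by ring
    have h0 : B1 ^ 2 * ((C2 - B2) + (B2 - A2)) ^ 2 -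
        (C2 - B2) * ((C2 - B2) + (B2 - A2)) * A1 ^ 2 -
        (B2 - A2) * ((C2 - B2) + (B2 - A2)) * C1 ^ 2 -
        (C2 - B2) * (B2 - A2) * (C2 - A2) ^ 2 = 0 := by
      rw [hA, hC]
      ring
    linarith
  rcases h1 with h1 | ⟨h1, h1'⟩
  · rcases h2 with h2 | ⟨h2, h2'⟩
    · have hs : 0 < C2 - B2 := by linarith
      have ht : 0 < B2 - A2 := by linarith
      have hpos : 0 < (C2 - B2) * (B2 - A2) * ((C1 - A1) ^ 2 + (C2 - A2) ^ 2) := by
        have : 0 < C2 - A2 := by linarith
        positivity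
      have hb : 0 < B1 * ((C2 - B2) + (B2 - A2)) := by positivity
      have := abs_lt_of_sq_lt_sq (by linarith :
        ((C2 - B2) * A1 + (B2 - A2) * C1) ^ 2 < (B1 * ((C2 - B2) + (B2 - A2))) ^ 2) hb.le
      have := (abs_lt.1 this).2
      linarith
    · have hC : C1 ^ 2 = B1 ^ 2 := by
        rw [← h2] at hBC
        linarith
      have hC' : C1 = -B1 := by
        rcases sq_eq_sq_iff_eq_or_eq_neg.1 hC with h | h
        · exact absurd h.symm h2'
        · exact h
      rw [hC', ← h2]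
      have ht : 0 < B2 - A2 := by linarith
      nlinarith [mul_pos hB ht]
  · rcases h2 with h2 | ⟨h2, h2'⟩
    · have hA : A1 ^ 2 = B1 ^ 2 := by
        rw [h1] at hAB
        linarith
      have hA' : A1 = -B1 := by
        rcases sq_eq_sq_iff_eq_or_eq_neg.1 hA with h | h
        · exact absurd h h1'
        · exact h
      rw [hA', h1]
      have ht : 0 < C2 - B2 := by linarith
      nlinarith [mul_pos hB ht]
    · exact (h3 h1 h2).elim

/-- Three points of a horizontal line are not on a circle. -/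
private theorem main_not_collinear {A1 B1 C1 : ℝ} (hAB : A1 ^ 2 = B1 ^ 2) (hBC : B1 ^ 2 = C1 ^ 2)
    (h1 : A1 < B1) (h2 : B1 < C1) : False := by
  have e1 : A1 = -B1 := by
    rcases sq_eq_sq_iff_eq_or_eq_neg.1 hAB with h | h
    · exact absurd h h1.ne
    · exact h
  have e2 : B1 = -C1 := by
    rcases sq_eq_sq_iff_eq_or_eq_neg.1 hBC with h | h
    · exact absurd h h2.ne
    · exact h
  linarith

private theorem main_tri {H m z : ℝ} {a b c : Pt} (h : Tri H a b c m z) :
    (m < b.1 → 0 < cr a b c) ∧ (b.1 < m → 0 < cr c b a) := by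
  have hab := h.eab
  have hbc := h.ebc
  unfold Sweep.dq at hab hbc
  have n1 := h.hab
  have n2 := h.hbc
  unfold Lt at n1 n2
  have h3 : a.2 - z = b.2 - z → b.2 - z = c.2 - z → False := by
    intro g1 g2
    have g1' : a.2 = b.2 := by linarith
    have g2' : b.2 = c.2 := by linarith
    have k1 : a.1 < b.1 := by
      rcases n1 with n1 | n1
      · exact absurd g1' n1.ne
      · exact n1.2
    have k2 : b.1 < c.1 := by
      rcases n2 with n2 | n2
      · exact absurd g2' n2.ne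
      · exact n2.2
    refine main_not_collinear (A1 := a.1 - m) (B1 := b.1 - m) (C1 := c.1 - m) ?_ ?_ ?_ ?_
    · rw [g1'] at hab
      linarith [show (m - a.1) ^ 2 = (a.1 - m) ^ 2 by ring,
        show (m - b.1) ^ 2 = (b.1 - m) ^ 2 by ring]
    · rw [g2'] at hbc
      linarith [show (m - c.1) ^ 2 = (c.1 - m) ^ 2 by ring,
        show (m - b.1) ^ 2 = (b.1 - m) ^ 2 by ring]
    · linarith
    · linarith
  have q1 : (a.1 - m) ^ 2 + (a.2 - z) ^ 2 = (b.1 - m) ^ 2 + (b.2 - z) ^ 2 := by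
    linarith [show (m - a.1) ^ 2 = (a.1 - m) ^ 2 by ring,
      show (m - b.1) ^ 2 = (b.1 - m) ^ 2 by ring, show (z - a.2) ^ 2 = (a.2 - z) ^ 2 by ring,
      show (z - b.2) ^ 2 = (b.2 - z) ^ 2 by ring]
  have q2 : (b.1 - m) ^ 2 + (b.2 - z) ^ 2 = (c.1 - m) ^ 2 + (c.2 - z) ^ 2 := by
    linarith [show (m - c.1) ^ 2 = (c.1 - m) ^ 2 by ring,
      show (m - b.1) ^ 2 = (b.1 - m) ^ 2 by ring, show (z - c.2) ^ 2 = (c.2 - z) ^ 2 by ring,
      show (z - b.2) ^ 2 = (b.2 - z) ^ 2 by ring]
  have p1 : a.2 - z < b.2 - z ∨ a.2 - z = b.2 - z ∧ a.1 - m ≠ b.1 - m := by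
    rcases n1 with n1 | ⟨n1, n1'⟩
    · exact Or.inl (by linarith)
    · exact Or.inr ⟨by linarith, fun g => by linarith⟩
  have p2 : b.2 - z < c.2 - z ∨ b.2 - z = c.2 - z ∧ b.1 - m ≠ c.1 - m := by
    rcases n2 with n2 | ⟨n2, n2'⟩
    · exact Or.inl (by linarith)
    · exact Or.inr ⟨by linarith, fun g => by linarith⟩
  constructor
  · intro hm
    have := main_or_circle q1 q2 p1 p2 (by linarith) h3
    unfold cr
    linarith
  · intro hm
    have p1' : a.2 - z < b.2 - z ∨ a.2 - z = b.2 - z ∧ m - a.1 ≠ m - b.1 := by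
      rcases p1 with p | ⟨p, p'⟩
      · exact Or.inl p
      · exact Or.inr ⟨p, fun g => p' (by linarith)⟩
    have p2' : b.2 - z < c.2 - z ∨ b.2 - z = c.2 - z ∧ m - b.1 ≠ m - c.1 := by
      rcases p2 with p | ⟨p, p'⟩
      · exact Or.inl p
      · exact Or.inr ⟨p, fun g => p' (by linarith)⟩
    have := main_or_circle (A1 := m - a.1) (B1 := m - b.1) (C1 := m - c.1)
      (by linarith [show (m - a.1) ^ 2 = (a.1 - m) ^ 2 by ring,
        show (m - b.1) ^ 2 = (b.1 - m) ^ 2 by ring])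
      (by linarith [show (m - c.1) ^ 2 = (c.1 - m) ^ 2 by ring,
        show (m - b.1) ^ 2 = (b.1 - m) ^ 2 by ring]) p1' p2' (by linarith) h3
    unfold cr
    linarith

private theorem main_sq_r2 (a b : Pt) : Sweep.sq a b = r2 (b - a) := by
  unfold Sweep.sq r2
  simp only [Prod.fst_sub, Prod.snd_sub]
  ring

private theorem main_sq_r2' (a b : Pt) : Sweep.sq a b = r2 (a - b) := by
  unfold Sweep.sq r2
  simp only [Prod.fst_sub, Prod.snd_sub]

private theorem main_FF_tri (X : ℝ) (a b c : Pt) :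
    FF X a b + FF X b c - FF X a c = ff (1 / 18) X a b c + 1 / 2 := by
  have h := h0_pos
  unfold FF ff cr
  rw [Ed_swap X a c]
  field_simp
  ring

private theorem main_dq_r2 (a : Pt) (m z : ℝ) : Sweep.dq a m z = r2 (a - (m, z)) := by
  unfold Sweep.dq r2
  simp only [Prod.fst_sub, Prod.snd_sub]
  ring

/-- The common form of the four wall inequalities. -/
private theorem main_wall (hN : Num) {X m : ℝ} {xa xb d1 d2 : ℝ} (hd2 : 0 ≤ d2) (hd : d2 ≤ d1)
    (hsep : 1 ≤ (xa - xb) ^ 2 + (d1 - d2) ^ 2) (heq : (xa - m) ^ 2 + d1 ^ 2 = (xb - m) ^ 2 + d2 ^ 2)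
    (hrad : (xa - m) ^ 2 + d1 ^ 2 ≤ 1) (hne : d1 = d2 → xa ≠ xb) (hm : xb < m) :
    xb < xa ∧ 0 ≤ (xa - xb) * (1 / 2 - Real.sin X / 18) + (d1 + d2) * (xa - xb) / (2 * h0) +
      1 / 18 * (Q (xa - xb, d1 - d2) * Real.sin (X - kk * (d1 + d2))) - 1 / 2 := by
  have hx : xb < xa := by
    have h1 : (xa - m) ^ 2 ≤ (xb - m) ^ 2 := by nlinarith
    have h2 : |xa - m| ≤ |xb - m| := sq_le_sq.1 h1
    rw [abs_of_neg (by linarith : xb - m < 0)] at h2
    have h3 := (abs_le.1 h2).1
    rcases lt_or_eq_of_le (by linarith : xb ≤ xa) with h | h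
    · exact h
    · exfalso
      apply hne _ h.symm
      rw [h] at heq
      have h4 : d1 ^ 2 = d2 ^ 2 := by linarith
      rcases sq_eq_sq_iff_eq_or_eq_neg.1 h4 with h5 | h5
      · exact h5
      · linarith
  refine ⟨hx, ?_⟩
  have := wall_ineq hN (X := X) (x := xa - xb) (d1 := d1) (d2 := d2) (m := xa - m)
    (by linarith) hd2 hd hsep (by
      rw [heq]
      ring) hrad
  have e : (xa - xb) * ((d1 + d2) / (2 * h0) + 1 / 2) =
      (xa - xb) * (1 / 2) + (d1 + d2) * (xa - xb) / (2 * h0) := by ring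
  rw [e] at this
  linarith

/-- The certificate in the strip of height `H`, `X = kk * H - π n`. -/
theorem cells (hN : Num) {H : ℝ} (hH : 0 ≤ H) {n : ℤ} :
    Cells H (FF (kk * H - Real.pi * n))
      (fun a => a.1 * (1 / 2 - Real.sin (kk * H - Real.pi * n) / 18))
      (fun a => a.1 * (H / h0 + 1 / 2 - Real.sin (kk * H - Real.pi * n) / 18)) := by
  have hh := h0_pos
  have hphase : ∀ s : ℝ, Real.sin (kk * (2 * H - s) - (kk * H - Real.pi * n)) =
      Real.sin ((kk * H - Real.pi * n) - kk * s) := by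
    intro s
    have : kk * (2 * H - s) - (kk * H - Real.pi * n) =
        ((kk * H - Real.pi * n) - kk * s) + n * (2 * Real.pi) := by ring
    rw [this, Real.sin_add_int_mul_two_pi]
  refine ⟨?_, ?_, ?_, ?_, ?_, ?_⟩
  · intro a b c m z h hm
    have h1 := (main_tri h).1 hm
    have h2 := tri_ineq hN (X := kk * H - Real.pi * n) (a := a) (b := b) (c := c) (o := (m, z)) h1
      (by rw [← main_sq_r2]; exact h.sab) (by rw [← main_sq_r2]; exact h.sbc)
      (by rw [← main_sq_r2']; exact h.sac)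
      (by rw [← main_dq_r2, ← main_dq_r2]; exact h.eab)
      (by rw [← main_dq_r2, ← main_dq_r2]; exact h.ebc)
      (by rw [← main_dq_r2, ← h.ebc]; exact h.rad)
    have h3 := main_FF_tri (kk * H - Real.pi * n) a b c
    linarith
  · intro a b c m z h hm
    have h1 := (main_tri h).2 hm
    have h2 := tri_ineq hN (X := kk * H - Real.pi * n) (a := c) (b := b) (c := a) (o := (m, z)) h1
      (by rw [← main_sq_r2']; exact h.sbc) (by rw [← main_sq_r2']; exact h.sab)
      (by rw [← main_sq_r2]; exact h.sac)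
      (by rw [← main_dq_r2, ← main_dq_r2]; exact h.ebc.symm)
      (by rw [← main_dq_r2, ← main_dq_r2]; exact h.eab.symm)
      (by rw [← main_dq_r2, h.eab]; exact h.rad)
    have h3 := main_FF_tri (kk * H - Real.pi * n) c b a
    have e1 : ∀ p q : Pt, FF (kk * H - Real.pi * n) p q = -FF (kk * H - Real.pi * n) q p := by
      intro p q
      unfold FF
      rw [Ed_swap _ q p]
      ring
    rw [e1 c b, e1 b a, e1 c a] at h3
    linarith
  · intro b a m h hm
    have hlt := h.hab
    have hdeq := h.eab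
    have hsep := h.sab
    have hrad := h.rad
    have hb0 := h.ha0
    unfold Sweep.dq at hdeq hrad
    unfold Sweep.sq at hsep
    obtain ⟨hx, hw⟩ := main_wall hN (X := kk * H - Real.pi * n) (m := -m) (xa := -a.1)
      (xb := -b.1) (d1 := a.2) (d2 := b.2) hb0 hlt.le (by nlinarith) (by nlinarith) (by nlinarith)
      (fun g g' => hlt.ne (Prod.ext (by linarith) g.symm)) (by linarith)
    have e1 : a - b = (-(-a.1 - -b.1), a.2 - b.2) := by
      ext
      · simp only [Prod.fst_sub]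
        ring
      · rfl
    unfold FF Ed
    rw [e1, Q_mirror]
    have e2 : Real.sin (kk * (b.2 + a.2) - (kk * H - Real.pi * n)) =
        -Real.sin ((kk * H - Real.pi * n) - kk * (a.2 + b.2)) := by
      rw [← Real.sin_neg]
      congr 1
      ring
    rw [e2]
    have e3 : (a.2 + b.2) * (-a.1 - -b.1) / (2 * h0) = -(b.2 + a.2) * (a.1 - b.1) / (2 * h0) := by
      ring
    rw [e3] at hw
    linarith
  · intro b a m h hm
    have hlt := h.hab
    have hdeq := h.eab
    have hsep := h.sab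
    have hrad := h.rad
    have hb0 := h.ha0
    unfold Sweep.dq at hdeq hrad
    unfold Sweep.sq at hsep
    obtain ⟨hx, hw⟩ := main_wall hN (X := kk * H - Real.pi * n) (m := m) (xa := a.1)
      (xb := b.1) (d1 := a.2) (d2 := b.2) hb0 hlt.le (by nlinarith) (by nlinarith) (by nlinarith)
      (fun g g' => hlt.ne (Prod.ext (by linarith) g.symm)) (by linarith)
    have e1 : a - b = (a.1 - b.1, a.2 - b.2) := rfl
    unfold FF Ed
    rw [e1]
    have e2 : Real.sin (kk * (b.2 + a.2) - (kk * H - Real.pi * n)) =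
        -Real.sin ((kk * H - Real.pi * n) - kk * (a.2 + b.2)) := by
      rw [← Real.sin_neg]
      congr 1
      ring
    rw [e2]
    have e3 : (a.2 + b.2) * (a.1 - b.1) / (2 * h0) = -(-(b.2 + a.2) * (a.1 - b.1) / (2 * h0)) := by
      ring
    rw [e3] at hw
    linarith
  · intro a b m h hm
    have hlt := h.hab
    have hdeq := h.eab
    have hsep := h.sab
    have hrad := h.rad
    have hbH := h.hbH
    unfold Sweep.dq at hdeq hrad
    unfold Sweep.sq at hsep
    obtain ⟨hx, hw⟩ := main_wall hN (X := kk * H - Real.pi * n) (m := -m) (xa := -a.1)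
      (xb := -b.1) (d1 := H - a.2) (d2 := H - b.2) (by linarith) (by linarith [hlt.le])
      (by nlinarith) (by nlinarith) (by nlinarith)
      (fun g g' => hlt.ne (Prod.ext (by linarith) (by linarith))) (by linarith)
    have e1 : b - a = (-a.1 - -b.1, (H - a.2) - (H - b.2)) := by
      ext
      · simp only [Prod.fst_sub]
        ring
      · simp only [Prod.snd_sub]
        ring
    unfold FF Ed
    rw [e1]
    have e2 : Real.sin (kk * (a.2 + b.2) - (kk * H - Real.pi * n)) =
        Real.sin ((kk * H - Real.pi * n) - kk * ((H - a.2) + (H - b.2))) := by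
      rw [← hphase]
      congr 1
      ring
    rw [e2]
    have e3 : ((H - a.2) + (H - b.2)) * (-a.1 - -b.1) / (2 * h0) =
        (b.1 - a.1) * (H / h0) + -(a.2 + b.2) * (b.1 - a.1) / (2 * h0) := by
      field_simp
      ring
    rw [e3] at hw
    linarith
  · intro a b m h hm
    have hlt := h.hab
    have hdeq := h.eab
    have hsep := h.sab
    have hrad := h.rad
    have hbH := h.hbH
    unfold Sweep.dq at hdeq hrad
    unfold Sweep.sq at hsep
    obtain ⟨hx, hw⟩ := main_wall hN (X := kk * H - Real.pi * n) (m := m) (xa := a.1)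
      (xb := b.1) (d1 := H - a.2) (d2 := H - b.2) (by linarith) (by linarith [hlt.le])
      (by nlinarith) (by nlinarith) (by nlinarith)
      (fun g g' => hlt.ne (Prod.ext (by linarith) (by linarith))) (by linarith)
    have e1 : b - a = (-(a.1 - b.1), (H - a.2) - (H - b.2)) := by
      ext
      · simp only [Prod.fst_sub]
        ring
      · simp only [Prod.snd_sub]
        ring
    unfold FF Ed
    rw [e1, Q_mirror]
    have e2 : Real.sin (kk * (a.2 + b.2) - (kk * H - Real.pi * n)) =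
        Real.sin ((kk * H - Real.pi * n) - kk * ((H - a.2) + (H - b.2))) := by
      rw [← hphase]
      congr 1
      ring
    rw [e2]
    have e3 : ((H - a.2) + (H - b.2)) * (a.1 - b.1) / (2 * h0) =
        (a.1 - b.1) * (H / h0) - -(a.2 + b.2) * (b.1 - a.1) / (2 * h0) := by
      field_simp
      ring
    rw [e3] at hw
    linarith

/-- A crude bound for all vectors. -/
private theorem main_abs_Q (w : Pt) : |Q w| ≤ 2 := by
  have hu : ∀ e : Pt, r2 e = 1 → |q e| ≤ 1 := by
    intro e he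
    obtain ⟨θ, rfl⟩ := exists_ee he
    exact abs_q_le θ
  have hcut : ∀ u : Pt, 0 < r2 u → r2 u ≤ 4 → |QQ (em u) (ep u)| ≤ 2 := by
    intro u h1 h2
    obtain ⟨a1, a2, -, -⟩ := em_ep h1 h2
    have b1 := hu _ a1
    have b2 := hu _ a2
    have c1 : |c (ep u)| ≤ 1 := Real.abs_cos_le_one _
    have c2 : |c (em u)| ≤ 1 := Real.abs_cos_le_one _
    unfold QQ
    refine (abs_add_le _ _).trans ?_
    rw [abs_mul, abs_mul]
    have d1 := mul_le_mul b1 c1 (abs_nonneg _) zero_le_one
    have d2 := mul_le_mul b2 c2 (abs_nonneg _) zero_le_one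
    linarith
  rcases eq_or_ne (r2 w) 0 with h | h
  · have h1 : w.1 ^ 2 + w.2 ^ 2 = 0 := h
    have hw1 : w.1 = 0 := by nlinarith [sq_nonneg w.1, sq_nonneg w.2]
    have hw2 : w.2 = 0 := by nlinarith [sq_nonneg w.1, sq_nonneg w.2]
    have hc : cut w = w := by
      unfold cut
      rw [if_pos (by rw [h]; norm_num)]
    unfold Q
    rw [hc]
    have e1 : em w = (0, 0) := by
      unfold em
      rw [hw1, hw2]
      simp
    have e2 : ep w = (0, 0) := by
      unfold ep
      rw [hw1, hw2]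
      simp
    rw [e1, e2]
    unfold QQ q
    simp
  · have hpos : 0 < r2 w := lt_of_le_of_ne (by unfold r2; positivity) h.symm
    unfold Q
    apply hcut
    · unfold cut
      split_ifs with h3
      · exact hpos
      · unfold r2
        simp only
        have : (Real.sqrt (3 / r2 w) * w.1) ^ 2 + (Real.sqrt (3 / r2 w) * w.2) ^ 2 =
            (Real.sqrt (3 / r2 w)) ^ 2 * r2 w := by
          unfold r2
          ring
        unfold r2 at this hpos
        rw [this, Real.sq_sqrt (by positivity)]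
        positivity
    · unfold cut
      split_ifs with h3
      · linarith
      · have : r2 (Real.sqrt (3 / r2 w) * w.1, Real.sqrt (3 / r2 w) * w.2) =
            (Real.sqrt (3 / r2 w)) ^ 2 * r2 w := by
          unfold r2
          ring
        rw [this, Real.sq_sqrt (by positivity), div_mul_cancel₀ _ h]
        norm_num

theorem sine_count (hN : Num) {H : ℝ} (hH : 0 ≤ H) :
    ∃ C : ℝ, ∀ L : ℝ, 0 ≤ L → ∀ X : Finset Pt, UnitSep X → (∀ p ∈ X, 0 ≤ p.1 ∧ p.1 ≤ L) →
      InStrip H X → (X.card : ℝ) ≤ (H / h0 + 1 - |Real.sin (kk * H)| / 9) * L + C := by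
  have hh := h0_pos
  set n : ℤ := ⌊H / h0⌋ with hn
  set Y : ℝ := kk * H - Real.pi * n with hY
  have hpi := Real.pi_pos
  have hk : kk * H = Real.pi * (H / h0) := by
    unfold kk
    ring
  have hY0 : 0 ≤ Y := by
    rw [hY, hk]
    have := Int.floor_le (H / h0)
    nlinarith
  have hY1 : Y ≤ Real.pi := by
    rw [hY, hk]
    have := Int.lt_floor_add_one (H / h0)
    nlinarith
  have hs0 : 0 ≤ Real.sin Y := Real.sin_nonneg_of_nonneg_of_le_pi hY0 hY1
  have hs : |Real.sin (kk * H)| = Real.sin Y := by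
    rw [← abs_of_nonneg hs0, hY, mul_comm Real.pi, Real.sin_sub_int_mul_pi, abs_mul]
    simp
  obtain ⟨C, hC⟩ := count (w := 1 / 2 - Real.sin Y / 18) (w' := H / h0 + 1 / 2 - Real.sin Y / 18)
    (K := 2 * H / h0 + 1 / 9) hH (cells hN hH (n := n))
    (by
      intro a b hab ha0 haH hb0 hbH
      unfold FF Ed
      refine (abs_add_le _ _).trans ?_
      have h1 : |-(a.2 + b.2) * (b.1 - a.1) / (2 * h0)| ≤ 2 * H / h0 := by
        rw [abs_div, abs_mul, abs_neg, abs_of_nonneg (by linarith : 0 ≤ a.2 + b.2),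
          abs_of_pos (by linarith : 0 < 2 * h0), div_le_div_iff₀ (by linarith) hh, abs_sub_comm]
        have : (a.2 + b.2) * |a.1 - b.1| ≤ (2 * H) * 2 :=
          mul_le_mul (by linarith) hab (abs_nonneg _) (by linarith)
        nlinarith
      have h2 : |1 / 18 * (Q (b - a) * Real.sin (kk * (a.2 + b.2) - Y))| ≤ 1 / 9 := by
        rw [abs_mul, abs_mul, abs_of_pos (by norm_num : (0 : ℝ) < 1 / 18)]
        have := mul_le_mul (main_abs_Q (b - a)) (Real.abs_sin_le_one (kk * (a.2 + b.2) - Y))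
          (abs_nonneg _) (by norm_num)
        linarith
      linarith)
    (by
      intro a _ _
      have : a.1 * (1 / 2 - Real.sin Y / 18) - (1 / 2 - Real.sin Y / 18) * a.1 = 0 := by ring
      show |a.1 * (1 / 2 - Real.sin Y / 18) - (1 / 2 - Real.sin Y / 18) * a.1| ≤ _
      rw [this, abs_zero]
      positivity)
    (by
      intro a _ _
      have : a.1 * (H / h0 + 1 / 2 - Real.sin Y / 18) -
          (H / h0 + 1 / 2 - Real.sin Y / 18) * a.1 = 0 := by ring
      show |a.1 * (H / h0 + 1 / 2 - Real.sin Y / 18) -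
          (H / h0 + 1 / 2 - Real.sin Y / 18) * a.1| ≤ _
      rw [this, abs_zero]
      positivity)
  refine ⟨C, fun L hL X hX hx hS => ?_⟩
  have := hC L hL X hX hx hS
  rw [hs]
  have e : (1 / 2 - Real.sin Y / 18) + (H / h0 + 1 / 2 - Real.sin Y / 18) =
      H / h0 + 1 - Real.sin Y / 9 := by ring
  rw [e] at this
  exact this

/-- The density bound. -/
theorem sine_density (hN : Num) {w : ℝ} (hw : 2 ≤ w) {C : Set E2} (hC : IsStripPacking w C)
    {O : E2} {d : ℝ} (hd : HasDensity w C O d) :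
    d ≤ Real.pi / (2 * w) *
      (1 + (w - 2) / Real.sqrt 3 - |Real.sin (Real.pi * (w - 2) / Real.sqrt 3)| / 9) := by
  obtain ⟨C0, h⟩ := sine_count hN (H := (w - 2) / 2) (by linarith)
  have h1 := density_le hw h hC hd
  have h3 : 0 < Real.sqrt 3 := Real.sqrt_pos.2 (by norm_num)
  have e1 : (w - 2) / 2 / h0 = (w - 2) / Real.sqrt 3 := by
    unfold h0
    field_simp
  have e2 : kk * ((w - 2) / 2) = Real.pi * (w - 2) / Real.sqrt 3 := by
    unfold kk h0
    field_simp
  rw [e1, e2] at h1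
  calc d ≤ _ := h1
    _ = _ := by ring

end Pool.Agent.Strip051.Sine
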