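import Pool.Agent.Strip051.Sine.Amp

/-! # Unit vectors -/

namespace Pool.Agent.Strip051.Sine

open Pool.Agent.StripNear Pool.Agent.Strip051.Sweep

/-- The unit vector of direction `θ`. -/
noncomputable def ee (θ : ℝ) : Pt := (Real.cos θ, Real.sin θ)

private lemma h0_sq' : h0 ^ 2 = 3 / 4 := h0_sq

private lemma h0_pos' : 0 < h0 := h0_pos

theorem kk_sq : kk ^ 2 = 4 / 3 * Real.pi ^ 2 := by
  unfold kk
  rw [div_pow, h0_sq']
  ring

private lemma cos3 (θ : ℝ) : Real.cos (3 * θ) = Real.cos θ * (1 - 4 * Real.sin θ ^ 2) := by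
  rw [Real.cos_three_mul]
  have := Real.sin_sq_add_cos_sq θ
  have h : Real.sin θ ^ 2 = 1 - Real.cos θ ^ 2 := by linarith
  rw [h]
  ring

private lemma sin3 (θ : ℝ) : Real.sin (3 * θ) = Real.sin θ * (3 - 4 * Real.sin θ ^ 2) := by
  rw [Real.sin_three_mul]
  ring

theorem q_ee (θ : ℝ) : q (ee θ) = Real.cos (3 * θ) * A (Real.sin θ / h0) := by
  rw [cos3]
  rfl

theorem c_ee (θ : ℝ) : c (ee θ) = Real.cos (kk * Real.sin θ) := rfl

/-- `A_mul` at `u = sin θ / h0`; `sin 3θ = 3 h0 u (1 - u²)`. -/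
theorem sin_three_mul_A (θ : ℝ) : Real.sin (3 * θ) * A (Real.sin θ / h0) =
    3 * h0 / Real.pi * Real.sin (kk * Real.sin θ) := by
  have h := A_mul (Real.sin θ / h0)
  have hp := Real.pi_ne_zero
  have hh := h0_pos'.ne'
  have e : Real.pi * (Real.sin θ / h0) = kk * Real.sin θ := by
    unfold kk
    ring
  rw [e] at h
  rw [← h, sin3]
  unfold kk
  have h2 := h0_sq'
  field_simp
  have h4 : h0 ^ 2 * 4 = 3 := by linarith
  linear_combination (-(Real.sin θ ^ 3 * A (Real.sin θ / h0))) * h4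

theorem dq_ee (θ : ℝ) : dq (ee θ) = -3 * Real.sin (3 * θ) * A (Real.sin θ / h0) +
    Real.cos (3 * θ) * A1 (Real.sin θ / h0) * Real.cos θ / h0 := by
  rw [cos3, sin3]
  simp only [dq, ee]
  ring

private lemma hasDerivAt_u (θ : ℝ) :
    HasDerivAt (fun θ : ℝ => Real.sin θ / h0) (Real.cos θ / h0) θ :=
  (Real.hasDerivAt_sin θ).div_const h0

private lemma hasDerivAt_Au (θ : ℝ) : HasDerivAt (fun θ : ℝ => A (Real.sin θ / h0))
    (A1 (Real.sin θ / h0) * (Real.cos θ / h0)) θ := by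
  have h := HasDerivAt.comp θ (hasDerivAt_A (Real.sin θ / h0)) (hasDerivAt_u θ)
  exact h

private lemma hasDerivAt_A1u (θ : ℝ) : HasDerivAt (fun θ : ℝ => A1 (Real.sin θ / h0))
    (A2 (Real.sin θ / h0) * (Real.cos θ / h0)) θ := by
  have h := HasDerivAt.comp θ (hasDerivAt_A1 (Real.sin θ / h0)) (hasDerivAt_u θ)
  exact h

theorem hasDerivAt_q_ee (θ : ℝ) : HasDerivAt (fun θ => q (ee θ)) (dq (ee θ)) θ := by
  have e : (fun θ => q (ee θ)) = fun θ => Real.cos (3 * θ) * A (Real.sin θ / h0) := by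
    funext x
    exact q_ee x
  rw [e, dq_ee]
  have h1 : HasDerivAt (fun θ : ℝ => Real.cos (3 * θ)) (-Real.sin (3 * θ) * 3) θ := by
    have := ((hasDerivAt_id θ).const_mul 3).cos
    simpa using this
  have h2 := hasDerivAt_Au θ
  refine (h1.mul h2).congr_deriv ?_
  ring

/-- Differentiate `sin_three_mul_A`. -/
theorem sin_three_mul_dq (θ : ℝ) : Real.sin (3 * θ) * dq (ee θ) =
    3 * (Real.cos θ * Real.cos (3 * θ) * Real.cos (kk * Real.sin θ) - A (Real.sin θ / h0)) := by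
  have hp := Real.pi_ne_zero
  have hh := h0_pos'.ne'
  have h1 : HasDerivAt (fun θ : ℝ => Real.sin (3 * θ)) (Real.cos (3 * θ) * 3) θ := by
    have := ((hasDerivAt_id θ).const_mul 3).sin
    simpa using this
  have h2 := hasDerivAt_Au θ
  have h3 := h1.mul h2
  have h4 : HasDerivAt (fun θ : ℝ => 3 * h0 / Real.pi * Real.sin (kk * Real.sin θ))
      (3 * h0 / Real.pi * (Real.cos (kk * Real.sin θ) * (kk * Real.cos θ))) θ :=
    (((Real.hasDerivAt_sin θ).const_mul kk).sin).const_mul _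
  have e : ((fun θ : ℝ => Real.sin (3 * θ)) * fun θ : ℝ => A (Real.sin θ / h0)) =
      fun θ : ℝ => 3 * h0 / Real.pi * Real.sin (kk * Real.sin θ) := by
    funext x
    exact sin_three_mul_A x
  rw [e] at h3
  have h5 := h3.unique h4
  have h6 : 3 * h0 / Real.pi * (Real.cos (kk * Real.sin θ) * (kk * Real.cos θ)) =
      3 * (Real.cos θ * Real.cos (kk * Real.sin θ)) := by
    have : h0 / Real.pi * kk = 1 := by
      unfold kk
      field_simp
    calc 3 * h0 / Real.pi * (Real.cos (kk * Real.sin θ) * (kk * Real.cos θ))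
        = 3 * (h0 / Real.pi * kk) * (Real.cos θ * Real.cos (kk * Real.sin θ)) := by ring
      _ = _ := by rw [this]; ring
  rw [h6] at h5
  rw [dq_ee]
  have hs := Real.sin_sq_add_cos_sq (3 * θ)
  linear_combination (Real.cos (3 * θ)) * h5 - 3 * A (Real.sin θ / h0) * hs

theorem hasDerivAt_c_ee (θ : ℝ) : HasDerivAt (fun θ => c (ee θ)) (dc (ee θ)) θ := by
  have h : HasDerivAt (fun θ : ℝ => Real.cos (kk * Real.sin θ))
      (-Real.sin (kk * Real.sin θ) * (kk * Real.cos θ)) θ :=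
    ((Real.hasDerivAt_sin θ).const_mul kk).cos
  refine h.congr_deriv ?_
  simp only [dc, ee]
  ring

private lemma cauchy2 {a b x y M : ℝ} (ha : 0 ≤ a) (hb : 0 ≤ b) (hM : 0 ≤ M)
    (h : x ^ 2 + y ^ 2 = 1) (hab : a ^ 2 + b ^ 2 ≤ M ^ 2) : a * |x| + b * |y| ≤ M := by
  have h1 : (a * |x| + b * |y|) ^ 2 ≤ M ^ 2 := by
    have hx : |x| ^ 2 = x ^ 2 := sq_abs x
    have hy : |y| ^ 2 = y ^ 2 := sq_abs y
    nlinarith [sq_nonneg (a * |y| - b * |x|)]
  exact le_of_sq_le_sq h1 hM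

private lemma h0_inv : 0 < 1 / h0 ∧ (1 / h0) ^ 2 = 4 / 3 := by
  refine ⟨by have := h0_pos'; positivity, ?_⟩
  rw [div_pow, h0_sq']
  norm_num

private lemma hasDerivAt_dq_ee (θ : ℝ) : HasDerivAt (fun θ => dq (ee θ))
    (Real.cos (3 * θ) * (-9 * A (Real.sin θ / h0) +
      A2 (Real.sin θ / h0) * (Real.cos θ / h0) ^ 2 - A1 (Real.sin θ / h0) * Real.sin θ / h0) +
      Real.sin (3 * θ) * (-6 * A1 (Real.sin θ / h0) * Real.cos θ / h0)) θ := by
  have e : (fun θ => dq (ee θ)) = fun θ => -3 * Real.sin (3 * θ) * A (Real.sin θ / h0) +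
    Real.cos (3 * θ) * A1 (Real.sin θ / h0) * Real.cos θ / h0 := by
    funext x
    exact dq_ee x
  rw [e]
  have h1 : HasDerivAt (fun θ : ℝ => Real.sin (3 * θ)) (Real.cos (3 * θ) * 3) θ := by
    have := ((hasDerivAt_id θ).const_mul 3).sin
    simpa using this
  have h2 : HasDerivAt (fun θ : ℝ => Real.cos (3 * θ)) (-Real.sin (3 * θ) * 3) θ := by
    have := ((hasDerivAt_id θ).const_mul 3).cos
    simpa using this
  refine (((h1.const_mul (-3)).mul (hasDerivAt_Au θ)).add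
    (((h2.mul (hasDerivAt_A1u θ)).mul (Real.hasDerivAt_cos θ)).div_const h0)).congr_deriv ?_
  simp only [Pi.mul_apply]
  ring

private lemma abs_ddq_le (θ : ℝ) : |Real.cos (3 * θ) * (-9 * A (Real.sin θ / h0) +
      A2 (Real.sin θ / h0) * (Real.cos θ / h0) ^ 2 - A1 (Real.sin θ / h0) * Real.sin θ / h0) +
      Real.sin (3 * θ) * (-6 * A1 (Real.sin θ / h0) * Real.cos θ / h0)| ≤ 13.5 := by
  obtain ⟨hi, hi2⟩ := h0_inv
  have hi1 : 1 / h0 ≤ 1.15471 := by
    nlinarith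
  have a0 := abs_A_le (Real.sin θ / h0)
  have a1 := abs_A1_le (Real.sin θ / h0)
  have a2 := abs_A2_le (Real.sin θ / h0)
  have hs := Real.abs_sin_le_one θ
  have hc := Real.abs_cos_le_one θ
  have b1 : |A2 (Real.sin θ / h0) * (Real.cos θ / h0) ^ 2| ≤ 1.72 := by
    have e : (Real.cos θ / h0) ^ 2 = 4 / 3 * Real.cos θ ^ 2 := by
      rw [div_pow, h0_sq']
      ring
    rw [e, abs_mul, abs_mul, abs_of_nonneg (sq_nonneg (Real.cos θ)),
      abs_of_pos (by norm_num : (0 : ℝ) < 4 / 3)]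
    have hc2 : Real.cos θ ^ 2 ≤ 1 := by
      nlinarith [Real.sin_sq_add_cos_sq θ, sq_nonneg (Real.sin θ)]
    have hc3 := sq_nonneg (Real.cos θ)
    nlinarith [abs_nonneg (A2 (Real.sin θ / h0))]
  have b2 : |A1 (Real.sin θ / h0) * Real.sin θ / h0| ≤ 1.08 := by
    have e : A1 (Real.sin θ / h0) * Real.sin θ / h0 =
        A1 (Real.sin θ / h0) * (Real.sin θ * (1 / h0)) := by ring
    rw [e, abs_mul, abs_mul, abs_of_pos hi]
    have : |Real.sin θ| * (1 / h0) ≤ 1.15471 := by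
      nlinarith [abs_nonneg (Real.sin θ)]
    have h3 : 0 ≤ |Real.sin θ| * (1 / h0) := by positivity
    nlinarith [abs_nonneg (A1 (Real.sin θ / h0))]
  have b3 : |-6 * A1 (Real.sin θ / h0) * Real.cos θ / h0| ≤ 6.48 := by
    have e : -6 * A1 (Real.sin θ / h0) * Real.cos θ / h0 =
        -6 * (A1 (Real.sin θ / h0) * (Real.cos θ * (1 / h0))) := by ring
    rw [e, abs_mul, abs_mul, abs_mul, abs_of_pos hi]
    have : |Real.cos θ| * (1 / h0) ≤ 1.15471 := by
      nlinarith [abs_nonneg (Real.cos θ)]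
    have h3 : 0 ≤ |Real.cos θ| * (1 / h0) := by positivity
    have h4 : |(-6 : ℝ)| = 6 := by norm_num
    rw [h4]
    nlinarith [abs_nonneg (A1 (Real.sin θ / h0))]
  have b4 : |-9 * A (Real.sin θ / h0) + A2 (Real.sin θ / h0) * (Real.cos θ / h0) ^ 2 -
      A1 (Real.sin θ / h0) * Real.sin θ / h0| ≤ 11.8 := by
    rw [abs_le] at a0 b1 b2 ⊢
    constructor <;> linarith [a0.1, a0.2, b1.1, b1.2, b2.1, b2.2]
  refine (abs_add_le _ _).trans ?_
  rw [abs_mul, abs_mul]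
  have h5 := cauchy2 (a := 11.8) (b := 6.48) (x := Real.cos (3 * θ)) (y := Real.sin (3 * θ))
    (M := 13.5) (by norm_num) (by norm_num) (by norm_num)
    (by rw [add_comm]; exact Real.sin_sq_add_cos_sq _) (by norm_num)
  nlinarith [abs_nonneg (Real.cos (3 * θ)), abs_nonneg (Real.sin (3 * θ))]

private lemma lip_of_deriv {f f' : ℝ → ℝ} {M : ℝ} (hf : ∀ x, HasDerivAt f (f' x) x)
    (hM : ∀ x, |f' x| ≤ M) (x y : ℝ) : |f x - f y| ≤ M * |x - y| := by
  have h := Convex.norm_image_sub_le_of_norm_hasDerivWithin_le (f := f) (f' := f') (C := M)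
    (s := Set.univ) (x := y) (y := x) (fun z _ => (hf z).hasDerivWithinAt)
    (fun z _ => by rw [Real.norm_eq_abs]; exact hM z) convex_univ trivial trivial
  simpa [Real.norm_eq_abs] using h

private lemma lip2 {f f' : ℝ → ℝ} {M : ℝ} (hM0 : 0 ≤ M) (hf : ∀ x, HasDerivAt f (f' x) x)
    (hM : ∀ x y, |f' x - f' y| ≤ M * |x - y|) (x y : ℝ) :
    |f x - f y| ≤ (|f' y| + M * |x - y|) * |x - y| := by
  have h := Convex.norm_image_sub_le_of_norm_hasDerivWithin_le (f := f) (f' := f')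
    (C := |f' y| + M * |x - y|) (s := Set.uIcc y x) (x := y) (y := x)
    (fun z _ => (hf z).hasDerivWithinAt)
    (fun z hz => by
      rw [Real.norm_eq_abs]
      have h1 := hM z y
      have h2 : |z - y| ≤ |x - y| := Set.abs_sub_left_of_mem_uIcc hz
      have h3 : |f' z| ≤ |f' z - f' y| + |f' y| := by
        have := abs_add_le (f' z - f' y) (f' y)
        simpa using this
      have h4 : M * |z - y| ≤ M * |x - y| := mul_le_mul_of_nonneg_left h2 hM0
      linarith)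
    (convex_uIcc y x) Set.left_mem_uIcc Set.right_mem_uIcc
  simpa [Real.norm_eq_abs] using h

/-- The derivative is `-9 cos 3θ A - 6 sin 3θ A1 cos θ / h0 + cos 3θ (A2 cos² θ / h0² - A1 sin θ / h0)`,
at most `(9 + 1.29 * 4 / 3 + 0.935 / h0) |cos 3θ| + (6 * 0.935 / h0) |sin 3θ| ≤ 13.5`. -/
theorem dq_lip (θ θ' : ℝ) : |dq (ee θ) - dq (ee θ')| ≤ 13.5 * |θ - θ'| :=
  lip_of_deriv (f := fun θ => dq (ee θ)) hasDerivAt_dq_ee abs_ddq_le θ θ'

private lemma hasDerivAt_dc_ee (θ : ℝ) : HasDerivAt (fun θ => dc (ee θ))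
    (kk * Real.sin θ * Real.sin (kk * Real.sin θ) -
      kk ^ 2 * Real.cos θ ^ 2 * Real.cos (kk * Real.sin θ)) θ := by
  have h : HasDerivAt (fun θ : ℝ => -kk * Real.cos θ * Real.sin (kk * Real.sin θ)) _ θ :=
    ((Real.hasDerivAt_cos θ).const_mul (-kk)).mul
      (((Real.hasDerivAt_sin θ).const_mul kk).sin)
  refine h.congr_deriv ?_
  ring

private lemma kk_bd : 0 ≤ kk ∧ kk ^ 2 ≤ 13.16 := by
  constructor
  · unfold kk
    have := h0_pos'
    have := Real.pi_pos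
    positivity
  · rw [kk_sq]
    have h1 := Real.pi_lt_d4
    have h2 := Real.pi_pos
    nlinarith

private lemma abs_ddc_le (θ : ℝ) : |kk * Real.sin θ * Real.sin (kk * Real.sin θ) -
      kk ^ 2 * Real.cos θ ^ 2 * Real.cos (kk * Real.sin θ)| ≤ 13.41 := by
  obtain ⟨hk, hk2⟩ := kk_bd
  have h1 : |kk * Real.sin θ * Real.sin (kk * Real.sin θ)| ≤ kk * |Real.sin θ| := by
    rw [abs_mul, abs_mul, abs_of_nonneg hk]
    exact mul_le_of_le_one_right (by positivity) (Real.abs_sin_le_one _)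
  have h2 : |kk ^ 2 * Real.cos θ ^ 2 * Real.cos (kk * Real.sin θ)| ≤
      kk ^ 2 * Real.cos θ ^ 2 := by
    rw [abs_mul, abs_of_nonneg (by positivity : (0 : ℝ) ≤ kk ^ 2 * Real.cos θ ^ 2)]
    exact mul_le_of_le_one_right (by positivity) (Real.abs_cos_le_one _)
  have h3 := Real.sin_sq_add_cos_sq θ
  have h4 : |Real.sin θ| ^ 2 = Real.sin θ ^ 2 := sq_abs _
  refine (abs_sub _ _).trans ?_
  have h5 : kk ^ 2 * Real.cos θ ^ 2 = kk ^ 2 - (kk * |Real.sin θ|) ^ 2 := by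
    rw [mul_pow, h4]
    have : Real.cos θ ^ 2 = 1 - Real.sin θ ^ 2 := by linarith
    rw [this]
    ring
  nlinarith [sq_nonneg (kk * |Real.sin θ| - 1 / 2)]

/-- The derivative is `kk sin θ sin (kk sin θ) - kk² cos² θ cos (kk sin θ)`, at most
`kk |sin θ| + kk² (1 - sin² θ) ≤ kk² + 1 / 4`. -/
theorem dc_lip (θ θ' : ℝ) : |dc (ee θ) - dc (ee θ')| ≤ 13.41 * |θ - θ'| :=
  lip_of_deriv (f := fun θ => dc (ee θ)) hasDerivAt_dc_ee abs_ddc_le θ θ'

/-- On every interval of length `η` the derivative changes by at most `13.5 η`. -/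
theorem q_lip (θ θ' : ℝ) :
    |q (ee θ) - q (ee θ')| ≤ (|dq (ee θ')| + 13.5 * |θ - θ'|) * |θ - θ'| :=
  lip2 (f := fun θ => q (ee θ)) (f' := fun θ => dq (ee θ)) (by norm_num) hasDerivAt_q_ee
    dq_lip θ θ'

theorem c_lip (θ θ' : ℝ) :
    |c (ee θ) - c (ee θ')| ≤ (|dc (ee θ')| + 13.41 * |θ - θ'|) * |θ - θ'| :=
  lip2 (f := fun θ => c (ee θ)) (f' := fun θ => dc (ee θ)) (by norm_num) hasDerivAt_c_ee
    dc_lip θ θ'

/-- `|dq|² ≤ 9 + (0.935 / h0)²`. -/
theorem abs_dq_le (θ : ℝ) : |dq (ee θ)| ≤ 3.2 := by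
  obtain ⟨hi, hi2⟩ := h0_inv
  have hi1 : 1 / h0 ≤ 1.15471 := by
    nlinarith
  have a0 := abs_A_le (Real.sin θ / h0)
  have a1 := abs_A1_le (Real.sin θ / h0)
  have hc := Real.abs_cos_le_one θ
  rw [dq_ee]
  have b1 : |-3 * Real.sin (3 * θ) * A (Real.sin θ / h0)| ≤ 3 * |Real.sin (3 * θ)| := by
    rw [abs_mul, abs_mul]
    have : |(-3 : ℝ)| = 3 := by norm_num
    rw [this]
    exact mul_le_of_le_one_right (by positivity) a0
  have b2 : |Real.cos (3 * θ) * A1 (Real.sin θ / h0) * Real.cos θ / h0| ≤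
      1.08 * |Real.cos (3 * θ)| := by
    have e : Real.cos (3 * θ) * A1 (Real.sin θ / h0) * Real.cos θ / h0 =
        Real.cos (3 * θ) * (A1 (Real.sin θ / h0) * (Real.cos θ * (1 / h0))) := by ring
    rw [e, abs_mul, abs_mul, abs_mul, abs_of_pos hi]
    have h1 : |Real.cos θ| * (1 / h0) ≤ 1.15471 := by
      nlinarith [abs_nonneg (Real.cos θ)]
    have h3 : 0 ≤ |Real.cos θ| * (1 / h0) := by positivity
    have h4 : |A1 (Real.sin θ / h0)| * (|Real.cos θ| * (1 / h0)) ≤ 1.08 := by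
      nlinarith [abs_nonneg (A1 (Real.sin θ / h0))]
    nlinarith [abs_nonneg (Real.cos (3 * θ))]
  refine (abs_add_le _ _).trans ?_
  have h5 := cauchy2 (a := 3) (b := 1.08) (x := Real.sin (3 * θ)) (y := Real.cos (3 * θ))
    (M := 3.2) (by norm_num) (by norm_num) (by norm_num)
    (Real.sin_sq_add_cos_sq _) (by norm_num)
  linarith

theorem abs_q_le (θ : ℝ) : |q (ee θ)| ≤ 1 := by
  rw [q_ee, abs_mul]
  have h1 := Real.abs_cos_le_one (3 * θ)
  have h2 := abs_A_le (Real.sin θ / h0)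
  exact mul_le_one₀ h1 (abs_nonneg _) h2

/-- Every unit vector has a direction. -/
theorem exists_ee {e : Pt} (h : r2 e = 1) : ∃ θ, e = ee θ := by
  obtain ⟨x, y⟩ := e
  simp only [r2] at h
  have hn : ‖(⟨x, y⟩ : ℂ)‖ = 1 := by
    rw [Complex.norm_def, Complex.normSq_mk, ← pow_two, ← pow_two, h, Real.sqrt_one]
  have hz : (⟨x, y⟩ : ℂ) ≠ 0 := by
    intro h0
    rw [h0, norm_zero] at hn
    exact zero_ne_one hn
  refine ⟨Complex.arg ⟨x, y⟩, ?_⟩
  have h1 := Complex.cos_arg hz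
  have h2 := Complex.sin_arg (⟨x, y⟩ : ℂ)
  rw [hn, div_one] at h1 h2
  simp only [ee, h1, h2]

end Pool.Agent.Strip051.Sine
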