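import Pool.Agent.Strip051.Sine.Trig
import Pool.Agent.Strip051.Sine.Unit

/-! # Verified values at the nodes `(2 j + 1) / 128` -/

namespace Pool.Agent.Strip051.Sine

open Pool.Agent.StripNear

namespace NumC

open Ball

/-- Common denominator of `hornerR` at `(Z / 10 ^ 15) ^ 2`. -/
def den : List Int → Int
  | [] => 1
  | d :: ds => 1000000000000000000000000000000 * d * den ds

/-- Numerator of `hornerR` at `(Z / 10 ^ 15) ^ 2`, `y = Z ^ 2`. -/
def num (y : Int) : List Int → Int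
  | [] => 1
  | d :: ds => 1000000000000000000000000000000 * d * den ds - y * num y ds

theorem den_pos (l : List Int) (hl : ∀ d ∈ l, 0 < d) : 0 < den l := by
  induction l with
  | nil => exact one_pos
  | cons d ds ih =>
    have h1 := ih fun e he => hl e (List.mem_cons_of_mem _ he)
    have h2 := hl d (by simp)
    unfold den
    positivity

theorem num_eq (Z : Int) (l : List Int) (hl : ∀ d ∈ l, 0 < d) :
    (num (Z * Z) l : ℝ) = hornerR (((Z : ℝ) / 10 ^ 15) ^ 2) l * den l := by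
  induction l with
  | nil => simp [num, den, hornerR]
  | cons d ds ih =>
    have h1 := ih fun e he => hl e (List.mem_cons_of_mem _ he)
    have h2 : (0 : ℝ) < d := by exact_mod_cast hl d (by simp)
    have e1 : num (Z * Z) (d :: ds) =
        1000000000000000000000000000000 * d * den ds - Z * Z * num (Z * Z) ds := rfl
    have e2 : den (d :: ds) = 1000000000000000000000000000000 * d * den ds := rfl
    have e3 : hornerR (((Z : ℝ) / 10 ^ 15) ^ 2) (d :: ds) =
        1 - ((Z : ℝ) / 10 ^ 15) ^ 2 * hornerR (((Z : ℝ) / 10 ^ 15) ^ 2) ds / d := rfl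
    rw [e1, e2, e3]
    push_cast
    rw [h1]
    generalize hornerR (((Z : ℝ) / 10 ^ 15) ^ 2) ds = W
    field_simp
    ring

/-- Check of a value of the cosine at `Z / 10 ^ 15`. -/
def cosChk (Z v : Int) : Bool :=
  decide (((num (Z * Z) cosL * 1000000000000000 - v * den cosL).natAbs : Int) ≤ 2 * den cosL)

/-- Check of a value of the sine at `Z / 10 ^ 15`. -/
def sinChk (Z v : Int) : Bool :=
  decide (((Z * num (Z * Z) sinL - v * den sinL).natAbs : Int) ≤ 2 * den sinL)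

theorem cosChk_sound {Z v : Int} (h : cosChk Z v = true) (hZ : |(Z : ℝ)| ≤ 4 * 10 ^ 15) :
    |Real.cos ((Z : ℝ) / 10 ^ 15) * 10 ^ 15 - (v : ℝ)| ≤ 3 := by
  unfold cosChk at h
  have h1 := of_decide_eq_true h
  have hd : (0 : ℝ) < den cosL := by exact_mod_cast den_pos cosL (by decide)
  have hn := num_eq Z cosL (by decide)
  have hz : |(Z : ℝ) / 10 ^ 15| ≤ 4 := by
    rw [abs_div, abs_of_pos (by positivity : (0 : ℝ) < 10 ^ 15), div_le_iff₀ (by positivity)]
    exact hZ
  have ht := cos_taylor hz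
  set y := hornerR (((Z : ℝ) / 10 ^ 15) ^ 2) cosL with hy
  have h2 : |y * 10 ^ 15 - (v : ℝ)| * (den cosL : ℝ) ≤ 2 * (den cosL : ℝ) := by
    have h3 : ((((num (Z * Z) cosL * 1000000000000000 - v * den cosL).natAbs : Int)) : ℝ) ≤
        ((2 * den cosL : Int) : ℝ) := by exact_mod_cast h1
    push_cast at h3
    rw [hn] at h3
    have e : y * den cosL * 1000000000000000 - v * den cosL = (y * 10 ^ 15 - v) * den cosL := by
      ring
    rw [e, abs_mul, abs_of_pos hd] at h3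
    exact h3
  have h4 : |y * 10 ^ 15 - v| ≤ 2 := le_of_mul_le_mul_right h2 hd
  have e : Real.cos ((Z : ℝ) / 10 ^ 15) * 10 ^ 15 - v =
      (Real.cos ((Z : ℝ) / 10 ^ 15) - y) * 10 ^ 15 + (y * 10 ^ 15 - v) := by ring
  rw [e]
  have h5 := abs_add_le ((Real.cos ((Z : ℝ) / 10 ^ 15) - y) * 10 ^ 15) (y * 10 ^ 15 - v)
  rw [abs_mul, abs_of_pos (by positivity : (0 : ℝ) < 10 ^ 15)] at h5
  exact h5.trans ((add_le_add ht h4).trans (by norm_num))

theorem sinChk_sound {Z v : Int} (h : sinChk Z v = true) (hZ : |(Z : ℝ)| ≤ 4 * 10 ^ 15) :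
    |Real.sin ((Z : ℝ) / 10 ^ 15) * 10 ^ 15 - (v : ℝ)| ≤ 3 := by
  unfold sinChk at h
  have h1 := of_decide_eq_true h
  have hd : (0 : ℝ) < den sinL := by exact_mod_cast den_pos sinL (by decide)
  have hn := num_eq Z sinL (by decide)
  have hz : |(Z : ℝ) / 10 ^ 15| ≤ 4 := by
    rw [abs_div, abs_of_pos (by positivity : (0 : ℝ) < 10 ^ 15), div_le_iff₀ (by positivity)]
    exact hZ
  have ht := sin_taylor hz
  set y := hornerR (((Z : ℝ) / 10 ^ 15) ^ 2) sinL with hy
  have h2 : |(Z : ℝ) / 10 ^ 15 * y * 10 ^ 15 - (v : ℝ)| * (den sinL : ℝ) ≤ 2 * (den sinL : ℝ) := by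
    have h3 : ((((Z * num (Z * Z) sinL - v * den sinL).natAbs : Int)) : ℝ) ≤
        ((2 * den sinL : Int) : ℝ) := by exact_mod_cast h1
    push_cast at h3
    rw [hn] at h3
    have e : (Z : ℝ) * (y * den sinL) - v * den sinL =
        ((Z : ℝ) / 10 ^ 15 * y * 10 ^ 15 - v) * den sinL := by
      field_simp
    rw [e, abs_mul, abs_of_pos hd] at h3
    exact h3
  have h4 : |(Z : ℝ) / 10 ^ 15 * y * 10 ^ 15 - v| ≤ 2 := le_of_mul_le_mul_right h2 hd
  have e : Real.sin ((Z : ℝ) / 10 ^ 15) * 10 ^ 15 - v =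
      (Real.sin ((Z : ℝ) / 10 ^ 15) - (Z : ℝ) / 10 ^ 15 * y) * 10 ^ 15 +
        ((Z : ℝ) / 10 ^ 15 * y * 10 ^ 15 - v) := by ring
  rw [e]
  have h5 := abs_add_le ((Real.sin ((Z : ℝ) / 10 ^ 15) - (Z : ℝ) / 10 ^ 15 * y) * 10 ^ 15)
    ((Z : ℝ) / 10 ^ 15 * y * 10 ^ 15 - v)
  rw [abs_mul, abs_of_pos (by positivity : (0 : ℝ) < 10 ^ 15)] at h5
  exact h5.trans ((add_le_add ht h4).trans (by norm_num))

/-- A row of the table: intermediate values, scaled by `10 ^ 15`, and the centres and radii of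
`q`, `dq`, `c`, `dc` on the cell of the node, scaled by `10 ^ 5`. -/
structure Row where
  S : Int
  C : Int
  Z : Int
  s : Int
  k : Int
  q : Int
  rq : Int
  d : Int
  c : Int
  rc : Int
  g : Int

/-- Ball for `kk`. -/
def kB : Ball := ⟨3627598728468436, 2⟩

/-- Ball for `3 * h0 / π`. -/
def cB : Ball := ⟨826993343132688, 2⟩

/-- The final values. -/
def fin (S C s k : Ball) (q d c g : Int) : Bool :=
  let S3 := sub (zmul 3 S) (zmul 4 (mul S (mul S S)))
  let C3 := sub (zmul 4 (mul C (mul C C))) (zmul 3 C)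
  let A := div (mul cB s) S3
  let vq := mul A C3
  let vd := div (zmul 3 (sub (mul C (mul C3 k)) A)) S3
  let vg := neg (mul kB (mul C s))
  decide (S3.r < S3.c.natAbs) &&
    decide (((vq.c - q * 10000000000).natAbs : Int) + vq.r ≤ 10000000000) &&
    decide (((vd.c - d * 10000000000).natAbs : Int) + vd.r ≤ 10000000000) &&
    decide (((k.c - c * 10000000000).natAbs : Int) + k.r ≤ 10000000000) &&
    decide (((vg.c - g * 10000000000).natAbs : Int) + vg.r ≤ 10000000000)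

/-- The check of a row, `j` is the number of the node. -/
def Row.ok (j : Int) (R : Row) : Bool :=
  sinChk ((2 * j + 1) * 7812500000000) R.S && cosChk ((2 * j + 1) * 7812500000000) R.C &&
    decide (((3627598728468436 * R.S - R.Z * 1000000000000000).natAbs : Int) ≤
      3000000000000000) &&
    decide ((R.Z.natAbs : Int) ≤ 4000000000000000) &&
    decide ((R.S.natAbs : Int) ≤ 1000000000000000) &&
    decide (((2 * j + 1).natAbs : Int) ≤ 500) &&
    sinChk R.Z R.s && cosChk R.Z R.k &&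
    fin ⟨R.S, 3⟩ ⟨R.C, 3⟩ ⟨R.s, 20⟩ ⟨R.k, 20⟩ R.q R.d R.c R.g &&
    decide ((R.d.natAbs : Int) + 10548 ≤ 128 * (R.rq - 1)) &&
    decide ((R.g.natAbs : Int) + 10478 ≤ 128 * (R.rc - 1))

/-- What a row says about a unit vector. -/
structure Row.Has (R : Row) (e : Pt) : Prop where
  q : |Sine.q e * 10 ^ 5 - (R.q : ℝ)| ≤ (R.rq : ℝ)
  d : |dq e * 10 ^ 5 - (R.d : ℝ)| ≤ 10548
  c : |Sine.c e * 10 ^ 5 - (R.c : ℝ)| ≤ (R.rc : ℝ)
  g : |dc e * 10 ^ 5 - (R.g : ℝ)| ≤ 10478

theorem sqrt3_bounds : (1.732050807568877293 : ℝ) < Real.sqrt 3 ∧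
    Real.sqrt 3 < 1.732050807568877294 := by
  constructor
  · apply Real.lt_sqrt_of_sq_lt
    norm_num
  · rw [Real.sqrt_lt' (by norm_num)]
    norm_num

theorem has_kB : Ball.Has kB kk := by
  obtain ⟨h1, h2⟩ := sqrt3_bounds
  have h3 := Real.pi_gt_d20
  have h4 := Real.pi_lt_d20
  have h0 : (0 : ℝ) < Real.sqrt 3 := by positivity
  have e : kk = 2 * Real.pi / Real.sqrt 3 := by
    unfold kk StripNear.h0
    field_simp
  unfold Ball.Has kB
  rw [e, abs_le]
  push_cast
  constructor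
  · have : (3.627598728468434 : ℝ) ≤ 2 * Real.pi / Real.sqrt 3 := by
      rw [le_div_iff₀ h0]
      nlinarith
    linarith
  · have : 2 * Real.pi / Real.sqrt 3 ≤ (3.627598728468438 : ℝ) := by
      rw [div_le_iff₀ h0]
      nlinarith
    linarith

theorem has_cB : Ball.Has cB (3 * h0 / Real.pi) := by
  obtain ⟨h1, h2⟩ := sqrt3_bounds
  have h3 := Real.pi_gt_d20
  have h4 := Real.pi_lt_d20
  have hp := Real.pi_pos
  have e : 3 * h0 / Real.pi = 3 * Real.sqrt 3 / (2 * Real.pi) := by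
    unfold StripNear.h0
    field_simp
  unfold Ball.Has cB
  rw [e, abs_le]
  push_cast
  constructor
  · have : (0.826993343132686 : ℝ) ≤ 3 * Real.sqrt 3 / (2 * Real.pi) := by
      rw [le_div_iff₀ (by positivity)]
      nlinarith
    linarith
  · have : 3 * Real.sqrt 3 / (2 * Real.pi) ≤ (0.82699334313269 : ℝ) := by
      rw [div_le_iff₀ (by positivity)]
      nlinarith
    linarith

theorem has_of_abs {x : ℝ} {v r : Int} (h : |x * 10 ^ 15 - (v : ℝ)| ≤ (r : ℝ)) :
    Ball.Has ⟨v, r⟩ x := h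

/-- From a ball at scale `10 ^ 15` to an integer at scale `10 ^ 5`. -/
theorem close {b : Ball} {x : ℝ} {q : Int} (h : b.Has x)
    (hc : ((b.c - q * 10000000000).natAbs : Int) + b.r ≤ 10000000000) :
    |x * 10 ^ 5 - (q : ℝ)| ≤ 1 := by
  unfold Ball.Has at h
  have h1 : ((((b.c - q * 10000000000).natAbs : Int) + b.r : Int) : ℝ) ≤ 10000000000 := by
    exact_mod_cast hc
  push_cast at h1
  have e : x * 10 ^ 5 - q = ((x * 10 ^ 15 - b.c) + (b.c - q * 10000000000)) / 10 ^ 10 := by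
    ring
  rw [e, abs_div, abs_of_pos (by positivity : (0 : ℝ) < 10 ^ 10), div_le_one (by positivity)]
  have h2 := abs_add_le (x * 10 ^ 15 - b.c) ((b.c : ℝ) - q * 10000000000)
  linarith

theorem fin_sound {S C s k : Ball} {q d c g : Int} {θ : ℝ} (h : fin S C s k q d c g = true)
    (hS : S.Has (Real.sin θ)) (hC : C.Has (Real.cos θ)) (hs : s.Has (Real.sin (kk * Real.sin θ)))
    (hk : k.Has (Real.cos (kk * Real.sin θ))) :
    |Sine.q (ee θ) * 10 ^ 5 - q| ≤ 1 ∧ |dq (ee θ) * 10 ^ 5 - d| ≤ 1 ∧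
      |Sine.c (ee θ) * 10 ^ 5 - c| ≤ 1 ∧ |dc (ee θ) * 10 ^ 5 - g| ≤ 1 := by
  unfold fin at h
  simp only [Bool.and_eq_true, decide_eq_true_eq] at h
  obtain ⟨⟨⟨⟨h1, h2⟩, h3⟩, h4⟩, h5⟩ := h
  have hS3 : (sub (zmul 3 S) (zmul 4 (mul S (mul S S)))).Has (Real.sin (3 * θ)) := by
    have := has_sub (has_zmul 3 hS) (has_zmul 4 (has_mul hS (has_mul hS hS)))
    have e : Real.sin (3 * θ) = ((3 : Int) : ℝ) * Real.sin θ -
        ((4 : Int) : ℝ) * (Real.sin θ * (Real.sin θ * Real.sin θ)) := by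
      rw [Real.sin_three_mul]
      push_cast
      ring
    rw [e]
    exact this
  have hC3 : (sub (zmul 4 (mul C (mul C C))) (zmul 3 C)).Has (Real.cos (3 * θ)) := by
    have := has_sub (has_zmul 4 (has_mul hC (has_mul hC hC))) (has_zmul 3 hC)
    have e : Real.cos (3 * θ) = ((4 : Int) : ℝ) * (Real.cos θ * (Real.cos θ * Real.cos θ)) -
        ((3 : Int) : ℝ) * Real.cos θ := by
      rw [Real.cos_three_mul]
      push_cast
      ring
    rw [e]
    exact this
  have hA := has_div (v := A (Real.sin θ / h0)) (has_mul has_cB hs) hS3 (by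
    rw [← sin_three_mul_A]
    ring) h1
  have hq := has_mul hA hC3
  have hd := has_div (v := dq (ee θ)) (has_zmul 3 (has_sub (has_mul hC (has_mul hC3 hk)) hA)) hS3
    (by
      push_cast
      have := sin_three_mul_dq θ
      rw [mul_comm (dq (ee θ)), this]
      ring) h1
  have hg := has_neg (has_mul has_kB (has_mul hC hs))
  refine ⟨?_, close hd h3, close hk h4, ?_⟩
  · rw [q_ee, mul_comm (Real.cos (3 * θ))]
    exact close hq h2
  · have e : dc (ee θ) = -(kk * (Real.cos θ * Real.sin (kk * Real.sin θ))) := by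
      unfold dc ee
      ring
    rw [e]
    exact close hg h5

/-- The row of a node holds on the whole cell. -/
theorem Row.ok_sound {j : Int} {R : Row} (h : R.ok j = true) {θ : ℝ}
    (hθ : |θ - (2 * j + 1) / 128| ≤ 1 / 128) : R.Has (ee θ) := by
  unfold Row.ok at h
  simp only [Bool.and_eq_true, decide_eq_true_eq] at h
  obtain ⟨⟨⟨⟨⟨⟨⟨⟨⟨⟨a1, a2⟩, a3⟩, a4⟩, a5⟩, a6⟩, a7⟩, a8⟩, a9⟩, a10⟩, a11⟩ := h
  set t : ℝ := (2 * (j : ℝ) + 1) / 128 with ht
  have a6' : |(2 * (j : ℝ) + 1)| ≤ 500 := by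
    have : (((2 * j + 1).natAbs : Int) : ℝ) ≤ 500 := by exact_mod_cast a6
    push_cast at this
    exact this
  have et : (((2 * j + 1) * 7812500000000 : Int) : ℝ) / 10 ^ 15 = t := by
    rw [ht]
    push_cast
    ring
  have ht4 : |((((2 * j + 1) * 7812500000000 : Int)) : ℝ)| ≤ 4 * 10 ^ 15 := by
    push_cast
    rw [abs_mul]
    have : |(7812500000000 : ℝ)| = 7812500000000 := abs_of_pos (by norm_num)
    rw [this]
    linarith
  have hS := sinChk_sound a1 ht4
  have hC := cosChk_sound a2 ht4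
  rw [et] at hS hC
  have a4' : |(R.Z : ℝ)| ≤ 4 * 10 ^ 15 := by
    have : ((R.Z.natAbs : Int) : ℝ) ≤ 4000000000000000 := by exact_mod_cast a4
    push_cast at this
    linarith
  have a5' : |(R.S : ℝ)| ≤ 10 ^ 15 := by
    have : ((R.S.natAbs : Int) : ℝ) ≤ 1000000000000000 := by exact_mod_cast a5
    push_cast at this
    linarith
  have a3' : |(3627598728468436 * (R.S : ℝ) - R.Z * 1000000000000000)| ≤ 3000000000000000 := by
    have : (((3627598728468436 * R.S - R.Z * 1000000000000000).natAbs : Int) : ℝ) ≤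
        3000000000000000 := by exact_mod_cast a3
    push_cast at this
    exact this
  have hkk := has_kB
  unfold Ball.Has kB at hkk
  push_cast at hkk
  have hkk4 : |kk| ≤ 4 := by
    rw [abs_le] at hkk ⊢
    constructor <;> linarith [hkk.1, hkk.2]
  have hZ : |kk * Real.sin t - R.Z / 10 ^ 15| * 10 ^ 15 ≤ 17 := by
    have e : (kk * Real.sin t - R.Z / 10 ^ 15) * 10 ^ 15 =
        kk * (Real.sin t * 10 ^ 15 - R.S) + (kk * 10 ^ 15 - 3627598728468436) * (R.S / 10 ^ 15) +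
          (3627598728468436 * (R.S : ℝ) - R.Z * 1000000000000000) / 10 ^ 15 := by
      ring
    rw [← abs_of_pos (by positivity : (0 : ℝ) < 10 ^ 15), ← abs_mul,
      abs_of_pos (by positivity : (0 : ℝ) < 10 ^ 15), e]
    have b1 : |kk * (Real.sin t * 10 ^ 15 - R.S)| ≤ 4 * 3 := by
      rw [abs_mul]
      exact mul_le_mul hkk4 hS (abs_nonneg _) (by norm_num)
    have b2 : |(kk * 10 ^ 15 - 3627598728468436) * (R.S / 10 ^ 15)| ≤ 2 * 1 := by
      rw [abs_mul, abs_div, abs_of_pos (by positivity : (0 : ℝ) < 10 ^ 15)]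
      refine mul_le_mul hkk ?_ (by positivity) (by norm_num)
      rw [div_le_one (by positivity)]
      exact a5'
    have b3 : |(3627598728468436 * (R.S : ℝ) - R.Z * 1000000000000000) / 10 ^ 15| ≤ 3 := by
      rw [abs_div, abs_of_pos (by positivity : (0 : ℝ) < 10 ^ 15), div_le_iff₀ (by positivity)]
      linarith
    exact (abs_add_three _ _ _).trans
      ((add_le_add (add_le_add b1 b2) b3).trans (by norm_num))
  have hs := sinChk_sound a7 a4'
  have hk := cosChk_sound a8 a4'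
  have hs' : |Real.sin (kk * Real.sin t) * 10 ^ 15 - R.s| ≤ 20 := by
    have e : Real.sin (kk * Real.sin t) * 10 ^ 15 - R.s =
        (Real.sin (kk * Real.sin t) - Real.sin (R.Z / 10 ^ 15)) * 10 ^ 15 +
          (Real.sin (R.Z / 10 ^ 15) * 10 ^ 15 - R.s) := by ring
    have b1 := Real.abs_sin_sub_sin_le (kk * Real.sin t) (R.Z / 10 ^ 15)
    rw [e]
    have b2 := abs_add_le
      ((Real.sin (kk * Real.sin t) - Real.sin (R.Z / 10 ^ 15)) * 10 ^ 15)
      (Real.sin (R.Z / 10 ^ 15) * 10 ^ 15 - R.s)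
    rw [abs_mul, abs_of_pos (by positivity : (0 : ℝ) < 10 ^ 15)] at b2
    have b3 := mul_le_mul_of_nonneg_right b1 (by positivity : (0 : ℝ) ≤ 10 ^ 15)
    linarith
  have hk' : |Real.cos (kk * Real.sin t) * 10 ^ 15 - R.k| ≤ 20 := by
    have e : Real.cos (kk * Real.sin t) * 10 ^ 15 - R.k =
        (Real.cos (kk * Real.sin t) - Real.cos (R.Z / 10 ^ 15)) * 10 ^ 15 +
          (Real.cos (R.Z / 10 ^ 15) * 10 ^ 15 - R.k) := by ring
    have b1 := Real.abs_cos_sub_cos_le (kk * Real.sin t) (R.Z / 10 ^ 15)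
    rw [e]
    have b2 := abs_add_le
      ((Real.cos (kk * Real.sin t) - Real.cos (R.Z / 10 ^ 15)) * 10 ^ 15)
      (Real.cos (R.Z / 10 ^ 15) * 10 ^ 15 - R.k)
    rw [abs_mul, abs_of_pos (by positivity : (0 : ℝ) < 10 ^ 15)] at b2
    have b3 := mul_le_mul_of_nonneg_right b1 (by positivity : (0 : ℝ) ≤ 10 ^ 15)
    linarith
  obtain ⟨f1, f2, f3, f4⟩ := fin_sound a9
    (has_of_abs (by push_cast; exact hS)) (has_of_abs (by push_cast; exact hC))
    (has_of_abs (by push_cast; exact hs')) (has_of_abs (by push_cast; exact hk'))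
  have a10' : |(R.d : ℝ)| + 10548 ≤ 128 * (R.rq - 1) := by
    have : (((R.d.natAbs : Int) + 10548 : Int) : ℝ) ≤ ((128 * (R.rq - 1) : Int) : ℝ) := by
      exact_mod_cast a10
    push_cast at this
    exact this
  have a11' : |(R.g : ℝ)| + 10478 ≤ 128 * (R.rc - 1) := by
    have : (((R.g.natAbs : Int) + 10478 : Int) : ℝ) ≤ ((128 * (R.rc - 1) : Int) : ℝ) := by
      exact_mod_cast a11
    push_cast at this
    exact this
  have hη : |θ - t| ≤ 1 / 128 := hθ
  have hη0 := abs_nonneg (θ - t)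
  have split : ∀ (x y : ℝ) (v : ℝ), |y * 10 ^ 5 - v| ≤ 1 →
      |x * 10 ^ 5 - v| ≤ |x - y| * 10 ^ 5 + 1 := by
    intro x y v hy
    have e : x * 10 ^ 5 - v = (x - y) * 10 ^ 5 + (y * 10 ^ 5 - v) := by ring
    rw [e]
    have := abs_add_le ((x - y) * 10 ^ 5) (y * 10 ^ 5 - v)
    rw [abs_mul, abs_of_pos (by positivity : (0 : ℝ) < 10 ^ 5)] at this
    linarith
  have absd : |dq (ee t)| * 10 ^ 5 ≤ |(R.d : ℝ)| + 1 := by
    have e : dq (ee t) * 10 ^ 5 = R.d + (dq (ee t) * 10 ^ 5 - R.d) := by ring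
    have e5 : |dq (ee t)| * 10 ^ 5 = |dq (ee t) * 10 ^ 5| := by
      rw [abs_mul, abs_of_pos (by positivity : (0 : ℝ) < 10 ^ 5)]
    rw [e5, e]
    refine (abs_add_le _ _).trans ?_
    linarith
  have absg : |dc (ee t)| * 10 ^ 5 ≤ |(R.g : ℝ)| + 1 := by
    have e : dc (ee t) * 10 ^ 5 = R.g + (dc (ee t) * 10 ^ 5 - R.g) := by ring
    have e5 : |dc (ee t)| * 10 ^ 5 = |dc (ee t) * 10 ^ 5| := by
      rw [abs_mul, abs_of_pos (by positivity : (0 : ℝ) < 10 ^ 5)]
    rw [e5, e]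
    refine (abs_add_le _ _).trans ?_
    linarith
  refine ⟨?_, ?_, ?_, ?_⟩
  · have h1 := split (Sine.q (ee θ)) _ _ f1
    have h2 := q_lip θ t
    have h3 : (|dq (ee t)| + 13.5 * |θ - t|) * |θ - t| ≤
        (|dq (ee t)| + 13.5 * (1 / 128)) * (1 / 128) := by
      have := abs_nonneg (dq (ee t))
      gcongr
    linarith
  · have h1 := split (dq (ee θ)) _ _ f2
    have h2 := dq_lip θ t
    linarith
  · have h1 := split (Sine.c (ee θ)) _ _ f3
    have h2 := c_lip θ t
    have h3 : (|dc (ee t)| + 13.41 * |θ - t|) * |θ - t| ≤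
        (|dc (ee t)| + 13.41 * (1 / 128)) * (1 / 128) := by
      have := abs_nonneg (dc (ee t))
      gcongr
    linarith
  · have h1 := split (dc (ee θ)) _ _ f4
    have h2 := dc_lip θ t
    linarith

end NumC

end Pool.Agent.Strip051.Sine
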