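import Pool.Agent.Strip051.Sine.Check

/-! # The numerical input -/

namespace Pool.Agent.Strip051.Sine

open Pool.Agent.StripNear

namespace NumC

theorem cell_of_floor (θ : ℝ) : |θ - (2 * ((⌊64 * θ⌋ : Int) : ℝ) + 1) / 128| ≤ 1 / 128 := by
  have h1 := Int.floor_le (64 * θ)
  have h2 := Int.lt_floor_add_one (64 * θ)
  rw [abs_le]
  constructor <;> linarith

theorem r2_ee_add (θ1 θ2 : ℝ) : r2 (ee θ1 + ee θ2) = 2 + 2 * Real.cos (θ2 - θ1) := by
  have h1 := Real.sin_sq_add_cos_sq θ1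
  have h2 := Real.sin_sq_add_cos_sq θ2
  rw [Real.cos_sub]
  unfold r2 ee
  simp only [Prod.fst_add, Prod.snd_add]
  linear_combination h1 + h2

theorem concl_angles {θ1 θ2 : ℝ} (h1 : -(Real.pi / 3) ≤ θ1) (h2 : θ1 ≤ Real.pi / 3)
    (h4 : θ2 ≤ 5 * (Real.pi / 6)) (h5 : Real.pi / 3 ≤ θ2 - θ1)
    (h6 : θ2 - θ1 ≤ 2 * (Real.pi / 3)) : Concl (ee θ1) (ee θ2) := by
  have p1 := Real.pi_gt_d4
  have p2 := Real.pi_lt_d4
  set j1 : Int := ⌊64 * θ1⌋ with hj1
  set j2 : Int := ⌊64 * θ2⌋ with hj2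
  have f1 : ((j1 : Int) : ℝ) ≤ 64 * θ1 := Int.floor_le _
  have f2 : 64 * θ1 < ((j1 : Int) : ℝ) + 1 := Int.lt_floor_add_one _
  have f3 : ((j2 : Int) : ℝ) ≤ 64 * θ2 := Int.floor_le _
  have f4 : 64 * θ2 < ((j2 : Int) : ℝ) + 1 := Int.lt_floor_add_one _
  have a1 : -68 ≤ j1 := by
    have : ((-69 : Int) : ℝ) < ((j1 : Int) : ℝ) := by
      push_cast
      linarith
    have := Int.cast_lt.1 this
    omega
  have a2 : j1 ≤ 67 := by
    have : ((j1 : Int) : ℝ) < ((68 : Int) : ℝ) := by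
      push_cast
      linarith
    have := Int.cast_lt.1 this
    omega
  have a3 : j2 ≤ 167 := by
    have : ((j2 : Int) : ℝ) < ((168 : Int) : ℝ) := by
      push_cast
      linarith
    have := Int.cast_lt.1 this
    omega
  have a4 : 67 ≤ j2 - j1 := by
    have : ((66 : Int) : ℝ) < ((j2 - j1 : Int) : ℝ) := by
      push_cast
      linarith
    have := Int.cast_lt.1 this
    omega
  have a5 : j2 - j1 ≤ 135 := by
    have : ((j2 - j1 : Int) : ℝ) < ((136 : Int) : ℝ) := by
      push_cast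
      linarith
    have := Int.cast_lt.1 this
    omega
  obtain ⟨i, hi⟩ : ∃ i : ℕ, (i : Int) = j1 + 68 := ⟨(j1 + 68).toNat, by omega⟩
  obtain ⟨k, hk⟩ : ∃ k : ℕ, (k : Int) = j2 - j1 - 67 := ⟨(j2 - j1 - 67).toNat, by omega⟩
  have hl := rows_length
  have hT := rtab_length
  have g1 : i < rows.length := by omega
  have g2 : 67 + (i + k) < rows.length := by omega
  have g3 : k < rtab.length := by omega
  have r1 : rows[i]? = some rows[i] := List.getElem?_eq_getElem g1
  have r2' : (rows.drop 67)[i + k]? = some rows[67 + (i + k)] := by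
    rw [List.getElem?_drop]
    exact List.getElem?_eq_getElem g2
  have r3 : rtab[k]? = some rtab[k] := List.getElem?_eq_getElem g3
  have c0 := allChk_sound rows (rows.drop 67) all_chk i k _ _ _ r1 r2' r3
  have o1 := rowsOK_sound rows (-68) rows_ok i _ r1
  have o2 := rowsOK_sound rows (-68) rows_ok (67 + (i + k)) _ (List.getElem?_eq_getElem g2)
  have o3 := rtabOK_sound rtab 67 rtab_ok k _ r3
  have e1 : (-68 : Int) + (i : Int) = j1 := by omega
  have e2 : (-68 : Int) + ((67 + (i + k) : ℕ) : Int) = j2 := by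
    push_cast
    omega
  have e3 : (67 : Int) + (k : Int) = j2 - j1 := by omega
  rw [e1] at o1
  rw [e2] at o2
  rw [e3] at o3
  have H1 := Row.ok_sound o1 (cell_of_floor θ1)
  have H2 := Row.ok_sound o2 (cell_of_floor θ2)
  have hcos1 : Real.cos (θ2 - θ1) ≤ 1 / 2 := by
    rw [← Real.cos_pi_div_three]
    exact Real.cos_le_cos_of_nonneg_of_le_pi (by linarith) (by linarith) h5
  have hcos2 : -(1 / 2) ≤ Real.cos (θ2 - θ1) := by
    have e : -(1 / 2 : ℝ) = Real.cos (Real.pi - Real.pi / 3) := by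
      rw [Real.cos_pi_sub, Real.cos_pi_div_three]
    rw [e]
    exact Real.cos_le_cos_of_nonneg_of_le_pi (by linarith) (by linarith) (by linarith)
  have H3 := RRow.ok_sound o3 (by omega) (by omega) (β := θ2 - θ1)
    (by push_cast; linarith) (by push_cast; linarith) (by linarith)
    (by
      have : ((j2 - j1 : Int) : ℝ) ≤ ((135 : Int) : ℝ) := Int.cast_le.2 a5
      push_cast at this ⊢
      linarith)
    (by linarith) (by linarith)
  rw [← r2_ee_add] at H3
  exact chk_sound c0 H1 H2 H3.1 H3.2.1 H3.2.2.1 H3.2.2.2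

theorem exists_angles {e1 e2 : Pt} (h : UPair e1 e2) (h1 : 0 ≤ (e1 + e2).1)
    (h2 : 0 ≤ (e1 + e2).2) : ∃ ψ γ : ℝ, 0 ≤ ψ ∧ ψ ≤ Real.pi / 2 ∧ Real.pi / 6 ≤ γ ∧
      γ ≤ Real.pi / 3 ∧ e1 = ee (ψ - γ) ∧ e2 = ee (ψ + γ) := by
  obtain ⟨a, b⟩ := e1
  obtain ⟨a', b'⟩ := e2
  obtain ⟨u1, u2, lo, hi, or⟩ := h
  simp only [r2, Prod.fst_add, Prod.snd_add] at u1 u2 lo hi or h1 h2
  set r : ℝ := (a + a') ^ 2 + (b + b') ^ 2 with hr
  set R : ℝ := Real.sqrt r with hR
  have hr0 : 0 < r := by linarith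
  have hR0 : 0 < R := Real.sqrt_pos.2 hr0
  have hRR : R * R = r := Real.mul_self_sqrt hr0.le
  have hR1 : 1 ≤ R := by
    by_contra hc
    have : R * R < 1 := by nlinarith
    linarith
  have hR3 : R ≤ Real.sqrt 3 := Real.sqrt_le_sqrt hi
  set κ : ℝ := a * b' - a' * b with hκ
  have hκ2 : κ ^ 2 = r * (1 - r / 4) := by
    have e0 : a * a' + b * b' = r / 2 - 1 := by
      rw [hr]
      linear_combination -(1 / 2) * u1 - (1 / 2) * u2
    have e1 : κ ^ 2 = (a ^ 2 + b ^ 2) * (a' ^ 2 + b' ^ 2) - (a * a' + b * b') ^ 2 := by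
      rw [hκ]
      ring
    rw [e1, u1, u2, e0]
    ring
  have hs4 : 0 ≤ 1 - r / 4 := by linarith
  set s : ℝ := Real.sqrt (1 - r / 4) with hs
  have hs0 : 0 ≤ s := Real.sqrt_nonneg _
  have hss : s * s = 1 - r / 4 := Real.mul_self_sqrt hs4
  have hκs : κ = R * s := by
    have e : κ ^ 2 = (R * s) ^ 2 := by
      rw [hκ2, mul_pow, sq R, sq s, hRR, hss]
    have hor : 0 ≤ κ := by
      rw [hκ]
      linarith
    exact (sq_eq_sq₀ hor (mul_nonneg hR0.le hs0)).1 e
  have hd : a * (a + a') + b * (b + b') = r / 2 := by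
    rw [hr]
    linear_combination (1 / 2) * u1 - (1 / 2) * u2
  have hx : a = (a + a') / 2 + s / R * (b + b') := by
    have e : a * r = (r / 2) * (a + a') + κ * (b + b') := by
      rw [← hd, hr, hκ]
      ring
    rw [hκs, ← hRR] at e
    field_simp
    have e2 : a * R * R = R * R / 2 * (a + a') + R * s * (b + b') := by linarith
    have e3 : R * (a * 2 * R) = R * (R * (a + a') + 2 * s * (b + b')) := by linarith
    have := mul_left_cancel₀ hR0.ne' e3
    linarith
  have hy : b = (b + b') / 2 - s / R * (a + a') := by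
    have e : b * r = (r / 2) * (b + b') - κ * (a + a') := by
      rw [← hd, hr, hκ]
      ring
    rw [hκs, ← hRR] at e
    field_simp
    have e3 : R * (b * 2 * R) = R * (R * (b + b') - 2 * s * (a + a')) := by linarith
    have := mul_left_cancel₀ hR0.ne' e3
    linarith
  have hcr : ((a + a') / R) ^ 2 + ((b + b') / R) ^ 2 = 1 := by
    rw [div_pow, div_pow, ← add_div, ← hr, sq R, hRR]
    exact div_self hr0.ne'
  have hb1 : 0 ≤ (b + b') / R := div_nonneg h2 hR0.le
  have ha1 : 0 ≤ (a + a') / R := div_nonneg h1 hR0.le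
  have hb2 : (b + b') / R ≤ 1 := by
    by_contra hc
    have : 1 < ((b + b') / R) ^ 2 := by nlinarith
    nlinarith [sq_nonneg ((a + a') / R)]
  have hsin : Real.sin (Real.arcsin ((b + b') / R)) = (b + b') / R :=
    Real.sin_arcsin (by linarith) hb2
  have hcos : Real.cos (Real.arcsin ((b + b') / R)) = (a + a') / R := by
    rw [Real.cos_arcsin]
    have e : 1 - ((b + b') / R) ^ 2 = ((a + a') / R) ^ 2 := by linarith
    rw [e, Real.sqrt_sq ha1]
  have hcg : Real.cos (Real.arccos (R / 2)) = R / 2 := by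
    refine Real.cos_arccos (by linarith) ?_
    have : Real.sqrt 3 ≤ 2 := by
      rw [Real.sqrt_le_left (by norm_num)]
      norm_num
    linarith
  have hsg : Real.sin (Real.arccos (R / 2)) = s := by
    rw [Real.sin_arccos, hs]
    congr 1
    rw [div_pow, sq R, hRR]
    norm_num
  refine ⟨Real.arcsin ((b + b') / R), Real.arccos (R / 2), Real.arcsin_nonneg.2 hb1,
    Real.arcsin_le_pi_div_two _, ?_, ?_, ?_, ?_⟩
  · have e : Real.pi / 6 = Real.arccos (Real.sqrt 3 / 2) := by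
      rw [← Real.cos_pi_div_six, Real.arccos_cos (by positivity) (by linarith [Real.pi_pos])]
    rw [e]
    exact Real.arccos_le_arccos (by linarith)
  · have e : Real.pi / 3 = Real.arccos (1 / 2) := by
      rw [← Real.cos_pi_div_three, Real.arccos_cos (by positivity) (by linarith [Real.pi_pos])]
    rw [e]
    exact Real.arccos_le_arccos (by linarith)
  · unfold ee
    rw [Real.cos_sub, Real.sin_sub, hsin, hcos, hcg, hsg]
    refine Prod.ext ?_ ?_
    · have e : (a + a') / R * (R / 2) + (b + b') / R * s = (a + a') / 2 + s / R * (b + b') := by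
        field_simp
      exact hx.trans e.symm
    · have e : (b + b') / R * (R / 2) - (a + a') / R * s = (b + b') / 2 - s / R * (a + a') := by
        field_simp
      exact hy.trans e.symm
  · unfold ee
    rw [Real.cos_add, Real.sin_add, hsin, hcos, hcg, hsg]
    refine Prod.ext ?_ ?_
    · have e : (a + a') / R * (R / 2) - (b + b') / R * s = (a + a') / 2 - s / R * (b + b') := by
        field_simp
      refine Eq.trans ?_ e.symm
      show a' = _
      linarith
    · have e : (b + b') / R * (R / 2) + (a + a') / R * s = (b + b') / 2 + s / R * (a + a') := by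
        field_simp
      refine Eq.trans ?_ e.symm
      show b' = _
      linarith

theorem concl_quadrant {e1 e2 : Pt} (h : UPair e1 e2) (h1 : 0 ≤ (e1 + e2).1)
    (h2 : 0 ≤ (e1 + e2).2) : Concl e1 e2 := by
  obtain ⟨ψ, γ, a1, a2, a3, a4, rfl, rfl⟩ := exists_angles h h1 h2
  exact concl_angles (by linarith) (by linarith) (by linarith) (by linarith) (by linarith)

theorem q_neg (e : Pt) : q (-e) = -q e := by
  unfold q
  simp only [Prod.fst_neg, Prod.snd_neg, neg_div, A_neg]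
  ring

theorem c_neg (e : Pt) : c (-e) = c e := by
  unfold c
  simp only [Prod.snd_neg, mul_neg, Real.cos_neg]

theorem dq_neg (e : Pt) : dq (-e) = -dq e := by
  unfold dq
  simp only [Prod.fst_neg, Prod.snd_neg, neg_div, A_neg, A1_neg]
  ring

theorem dc_neg (e : Pt) : dc (-e) = dc e := by
  unfold dc
  simp only [Prod.fst_neg, Prod.snd_neg, mul_neg, Real.sin_neg]
  ring

/-- Reflection in the horizontal axis. -/
def rfl' (e : Pt) : Pt := (e.1, -e.2)

theorem q_rfl (e : Pt) : q (rfl' e) = q e := by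
  unfold q rfl'
  simp only [neg_div, A_neg]
  ring

theorem c_rfl (e : Pt) : c (rfl' e) = c e := by
  unfold c rfl'
  simp only [mul_neg, Real.cos_neg]

theorem dq_rfl (e : Pt) : dq (rfl' e) = -dq e := by
  unfold dq rfl'
  simp only [neg_div, A_neg, A1_neg]
  ring

theorem dc_rfl (e : Pt) : dc (rfl' e) = -dc e := by
  unfold dc rfl'
  simp only [mul_neg, Real.sin_neg]

theorem concl_neg {e1 e2 : Pt} (h : Concl (-e1) (-e2)) : Concl e1 e2 := by
  have eQ : QQ (-e1) (-e2) = -QQ e1 e2 := by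
    unfold QQ
    rw [q_neg, q_neg, c_neg, c_neg]
    ring
  have eD1 : D1 (-e1) (-e2) = -D1 e1 e2 := by
    unfold D1
    rw [q_neg, dq_neg, c_neg, dc_neg]
    ring
  have eD2 : D2 (-e1) (-e2) = -D2 e1 e2 := by
    unfold D2
    rw [q_neg, dq_neg, c_neg, dc_neg]
    ring
  have er : r2 (-e1 + -e2) = r2 (e1 + e2) := by
    unfold r2
    simp only [Prod.fst_add, Prod.snd_add, Prod.fst_neg, Prod.snd_neg]
    ring
  have eG : ∀ G, GradAt (-e1) (-e2) G → GradAt e1 e2 G := by
    intro G hG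
    unfold GradAt at hG ⊢
    rw [eQ, eD1, eD2, er] at hG
    have x1 : (-D1 e1 e2 + -D2 e1 e2) ^ 2 = (D1 e1 e2 + D2 e1 e2) ^ 2 := by ring
    have x2 : (-D2 e1 e2 - -D1 e1 e2) ^ 2 = (D2 e1 e2 - D1 e1 e2) ^ 2 := by ring
    rw [x1, x2, neg_sq] at hG
    exact hG
  obtain ⟨b1, b2, b3⟩ := h
  rw [eQ, abs_neg] at b1
  rw [er] at b3
  exact ⟨b1, eG _ b2, fun h => eG _ (b3 h)⟩

theorem concl_rfl {e1 e2 : Pt} (h : Concl (rfl' e2) (rfl' e1)) : Concl e1 e2 := by
  have eQ : QQ (rfl' e2) (rfl' e1) = QQ e1 e2 := by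
    unfold QQ
    rw [q_rfl, q_rfl, c_rfl, c_rfl]
    ring
  have eD1 : D1 (rfl' e2) (rfl' e1) = -D2 e1 e2 := by
    unfold D1 D2
    rw [q_rfl, dq_rfl, c_rfl, dc_rfl]
    ring
  have eD2 : D2 (rfl' e2) (rfl' e1) = -D1 e1 e2 := by
    unfold D1 D2
    rw [q_rfl, dq_rfl, c_rfl, dc_rfl]
    ring
  have er : r2 (rfl' e2 + rfl' e1) = r2 (e1 + e2) := by
    unfold r2 rfl'
    simp only [Prod.fst_add, Prod.snd_add]
    ring
  have eG : ∀ G, GradAt (rfl' e2) (rfl' e1) G → GradAt e1 e2 G := by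
    intro G hG
    unfold GradAt at hG ⊢
    rw [eQ, eD1, eD2, er] at hG
    have x1 : (-D2 e1 e2 + -D1 e1 e2) ^ 2 = (D1 e1 e2 + D2 e1 e2) ^ 2 := by ring
    have x2 : (-D1 e1 e2 - -D2 e1 e2) ^ 2 = (D2 e1 e2 - D1 e1 e2) ^ 2 := by ring
    rw [x1, x2] at hG
    exact hG
  obtain ⟨b1, b2, b3⟩ := h
  rw [eQ] at b1
  rw [er] at b3
  exact ⟨b1, eG _ b2, fun h => eG _ (b3 h)⟩

theorem upair_neg {e1 e2 : Pt} (h : UPair e1 e2) : UPair (-e1) (-e2) := by
  obtain ⟨u1, u2, lo, hi, or⟩ := h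
  have er : r2 (-e1 + -e2) = r2 (e1 + e2) := by
    unfold r2
    simp only [Prod.fst_add, Prod.snd_add, Prod.fst_neg, Prod.snd_neg]
    ring
  refine ⟨?_, ?_, ?_, ?_, ?_⟩
  · rw [← u1]
    unfold r2
    simp only [Prod.fst_neg, Prod.snd_neg]
    ring
  · rw [← u2]
    unfold r2
    simp only [Prod.fst_neg, Prod.snd_neg]
    ring
  · rw [er]
    exact lo
  · rw [er]
    exact hi
  · simp only [Prod.fst_neg, Prod.snd_neg]
    linarith

theorem upair_rfl {e1 e2 : Pt} (h : UPair e1 e2) : UPair (rfl' e2) (rfl' e1) := by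
  obtain ⟨u1, u2, lo, hi, or⟩ := h
  have er : r2 (rfl' e2 + rfl' e1) = r2 (e1 + e2) := by
    unfold r2 rfl'
    simp only [Prod.fst_add, Prod.snd_add]
    ring
  refine ⟨?_, ?_, ?_, ?_, ?_⟩
  · rw [← u2]
    unfold r2 rfl'
    ring
  · rw [← u1]
    unfold r2 rfl'
    ring
  · rw [er]
    exact lo
  · rw [er]
    exact hi
  · unfold rfl'
    simp only
    linarith

theorem concl_right {e1 e2 : Pt} (h : UPair e1 e2) (h1 : 0 ≤ (e1 + e2).1) : Concl e1 e2 := by
  rcases le_total 0 (e1 + e2).2 with h2 | h2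
  · exact concl_quadrant h h1 h2
  · refine concl_rfl (concl_quadrant (upair_rfl h) ?_ ?_)
    · unfold rfl'
      simp only [Prod.fst_add] at h1 ⊢
      linarith
    · unfold rfl'
      simp only [Prod.snd_add] at h2 ⊢
      linarith

theorem concl {e1 e2 : Pt} (h : UPair e1 e2) : Concl e1 e2 := by
  rcases le_total 0 (e1 + e2).1 with h1 | h1
  · exact concl_right h h1
  · refine concl_neg (concl_right (upair_neg h) ?_)
    simp only [Prod.fst_add, Prod.fst_neg] at h1 ⊢
    linarith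

end NumC

/-- The numerical input holds. -/
theorem num : Num :=
  ⟨fun _ _ h => (NumC.concl h).all, fun _ _ h => (NumC.concl h).small,
    fun _ _ h => (NumC.concl h).bd⟩

end Pool.Agent.Strip051.Sine
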