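import Pool.Agent.Strip051.Sine.Table

/-! # The check of the pairs of cells -/

namespace Pool.Agent.Strip051.Sine

open Pool.Agent.StripNear

namespace NumC

/-- Error of a product. -/
def er (a ra b rb : Int) : Int := a.natAbs * rb + b.natAbs * ra + ra * rb

/-- The final comparison. -/
def cmp (s f m R0 R1 : Int) : Bool :=
  decide (m ≤ 15200000000) &&
    decide (1000000000 * (s * s * (400000 - R1)) + 1000000000 * (f * f * R0) +
      131595 * (m * m * (R0 * (400000 - R1))) ≤
      (if R0 ≤ 195300 then 20702500000000000000000000 else 34105600000000000000000000) *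
        (R0 * (400000 - R1)))

/-- The check of a pair of cells. -/
def chk (A B : Row) (T : RRow) : Bool :=
  let rad := er A.d 10548 B.c B.rc + er A.g 10478 B.q B.rq +
    (er B.d 10548 A.c A.rc + er B.g 10478 A.q A.rq)
  let x := A.d * B.c + A.g * B.q
  let y := B.d * A.c + B.g * A.q
  cmp ((x + y).natAbs + rad) ((y - x).natAbs + rad)
    ((A.q * B.c + B.q * A.c).natAbs + (er A.q A.rq B.c B.rc + er B.q B.rq A.c A.rc)) T.R0 T.R1

/-- The checks of a row against a list of rows. -/
def rowChk (A : Row) : List Row → List RRow → Bool
  | B :: l, T :: ts => chk A B T && rowChk A l ts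
  | _, _ => true

/-- All checks. -/
def allChk : List Row → List Row → Bool
  | A :: rs, B :: l => rowChk A (B :: l) rtab && allChk rs l
  | _, _ => true

theorem all_chk : allChk rows (rows.drop 67) = true := by
  decide +kernel

end NumC

end Pool.Agent.Strip051.Sine
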