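import Pool.Agent.Strip051.Sine.Iso
import Pool.Agent.Strip051.Sine.Mono

/-! # All triangles -/

namespace Pool.Agent.Strip051.Sine

open Pool.Agent.StripNear Pool.Agent.Strip051.Sweep

/-- Rotation of the names of the vertices. -/
theorem ff_rot (δ X : ℝ) (a b c : Pt) : ff δ X b c a = ff δ X a b c := by
  unfold ff cr
  ring

/-- Coordinates with origin `a` and second basis vector `v`. -/
private def P (a v : Pt) (x y : ℝ) : Pt := (a.1 + x * v.2 + y * v.1, a.2 - x * v.1 + y * v.2)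

private theorem P_dist {a v : Pt} (hv : r2 v = 1) (x y x' y' : ℝ) :
    r2 (P a v x y - P a v x' y') = (x - x') ^ 2 + (y - y') ^ 2 := by
  have h : v.1 ^ 2 + v.2 ^ 2 = 1 := hv
  simp only [r2, P, Prod.fst_sub, Prod.snd_sub]
  linear_combination ((x - x') ^ 2 + (y - y') ^ 2) * h

private theorem P_cr {a v : Pt} (hv : r2 v = 1) (x y x' y' x'' y'' : ℝ) :
    cr (P a v x y) (P a v x' y') (P a v x'' y'') =
      (x' - x) * (y'' - y) - (x'' - x) * (y' - y) := by
  have h : v.1 ^ 2 + v.2 ^ 2 = 1 := hv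
  simp only [cr, P]
  linear_combination ((x' - x) * (y'' - y) - (x'' - x) * (y' - y)) * h

private theorem P_zero (a v : Pt) : P a v 0 0 = a := by
  ext <;> simp [P]

private theorem exists_P {a b : Pt} {l : ℝ} (hl : 0 < l) (h : r2 (b - a) = l ^ 2) (c o : Pt) :
    ∃ v : Pt, ∃ x y x' y' : ℝ, r2 v = 1 ∧ b = P a v l 0 ∧ c = P a v x y ∧ o = P a v x' y' := by
  have h' : (b.1 - a.1) ^ 2 + (b.2 - a.2) ^ 2 = l ^ 2 := h
  have hl' : l ≠ 0 := hl.ne'
  refine ⟨(-((b.2 - a.2) / l), (b.1 - a.1) / l),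
    ((c.1 - a.1) * (b.1 - a.1) + (c.2 - a.2) * (b.2 - a.2)) / l,
    ((b.1 - a.1) * (c.2 - a.2) - (c.1 - a.1) * (b.2 - a.2)) / l,
    ((o.1 - a.1) * (b.1 - a.1) + (o.2 - a.2) * (b.2 - a.2)) / l,
    ((b.1 - a.1) * (o.2 - a.2) - (o.1 - a.1) * (b.2 - a.2)) / l, ?_, ?_, ?_, ?_⟩
  · simp only [r2]
    field_simp
    linarith
  · ext
    · simp only [P]
      field_simp
      ring
    · simp only [P]
      field_simp
      ring
  · ext
    · simp only [P]
      field_simp
      linear_combination (a.1 - c.1) * h'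
    · simp only [P]
      field_simp
      linear_combination (a.2 - c.2) * h'
  · ext
    · simp only [P]
      field_simp
      linear_combination (a.1 - o.1) * h'
    · simp only [P]
      field_simp
      linear_combination (a.2 - o.2) * h'

/-- Lowering the vertex. -/
private theorem lower (hN : Num) {X l x y y0 : ℝ} {a v : Pt} (hv : r2 v = 1) (hl : 1 ≤ l)
    (h0 : 0 ≤ y0) (h01 : y0 ≤ y) (ha1 : 1 ≤ x ^ 2 + y0 ^ 2) (hb1 : 1 ≤ (x - l) ^ 2 + y0 ^ 2)
    (ha4 : x ^ 2 + y ^ 2 ≤ 4) (hb4 : (x - l) ^ 2 + y ^ 2 ≤ 4)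
    (hsm : x ^ 2 + y ^ 2 ≤ 1953 / 1000 ∨ (x - l) ^ 2 + y ^ 2 ≤ 1953 / 1000) :
    ff (1 / 18) X a (P a v l 0) (P a v x y0) ≤ ff (1 / 18) X a (P a v l 0) (P a v x y) := by
  have e : P a v x y = P a v x y0 + (y - y0) • v := by
    ext
    · simp only [P, Prod.fst_add, Prod.smul_fst, smul_eq_mul]
      ring
    · simp only [P, Prod.snd_add, Prod.smul_snd, smul_eq_mul]
      ring
  have d0 : ∀ x y : ℝ, r2 (P a v x y - a) = x ^ 2 + y ^ 2 := by
    intro x y
    have := P_dist (a := a) hv x y 0 0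
    rw [P_zero] at this
    rw [this]
    ring
  have d1 : ∀ x y : ℝ, r2 (P a v x y - P a v l 0) = (x - l) ^ 2 + y ^ 2 := by
    intro x y
    rw [P_dist hv]
    ring
  rw [e]
  refine tri_mono hN hv hl ?_ (by linarith) ?_ ?_ ?_ ?_ ?_ ?_
  · ext
    · simp only [P, Prod.fst_add]
      ring
    · simp only [P, Prod.snd_add]
      ring
  · have h : v.1 ^ 2 + v.2 ^ 2 = 1 := hv
    simp only [P]
    have : (a.1 + x * v.2 + y0 * v.1 - a.1) * v.1 + (a.2 - x * v.1 + y0 * v.2 - a.2) * v.2 =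
        y0 := by linear_combination y0 * h
    rw [this]
    exact h0
  · rw [d0]; exact ha1
  · rw [d1]; exact hb1
  · rw [← e, d0]; exact ha4
  · rw [← e, d1]; exact hb4
  · rw [← e, d0, d1]; exact hsm

/-- One unit side. -/
theorem tri_one (hN : Num) {X : ℝ} {a b c : Pt} (hor : 0 < cr a b c) (hab : r2 (b - a) = 1)
    (hbc : 1 ≤ r2 (c - b)) (hca : 1 ≤ r2 (c - a)) (h1 : r2 (c - a) ≤ r2 (c - b) + 2)
    (h2 : r2 (c - b) ≤ r2 (c - a) + 2) (ha4 : r2 (c - a) ≤ 4) (hb4 : r2 (c - b) ≤ 4)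
    (hcr : cr a b c ≤ 13049 / 10000) : 0 ≤ ff (1 / 18) X a b c := by
  obtain ⟨v, x, y, x', y', hv, rfl, rfl, -⟩ :=
    exists_P (l := 1) one_pos (by rw [hab]; norm_num) c c
  have d0 : ∀ x y : ℝ, r2 (P a v x y - a) = x ^ 2 + y ^ 2 := by
    intro x y
    have := P_dist (a := a) hv x y 0 0
    rw [P_zero] at this
    rw [this]
    ring
  have d0' : ∀ x y : ℝ, r2 (a - P a v x y) = x ^ 2 + y ^ 2 := by
    intro x y
    have := P_dist (a := a) hv 0 0 x y
    rw [P_zero] at this
    rw [this]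
    ring
  have d1 : ∀ x y : ℝ, r2 (P a v x y - P a v 1 0) = (x - 1) ^ 2 + y ^ 2 := by
    intro x y
    rw [P_dist hv]
    ring
  have d1' : ∀ x y : ℝ, r2 (P a v 1 0 - P a v x y) = (x - 1) ^ 2 + y ^ 2 := by
    intro x y
    rw [P_dist hv]
    ring
  have ecr : ∀ x y : ℝ, cr a (P a v 1 0) (P a v x y) = y := by
    intro x y
    have := P_cr (a := a) hv 0 0 1 0 x y
    rw [P_zero] at this
    rw [this]
    ring
  rw [ecr] at hor hcr
  rw [d0] at hca h1 h2 ha4
  rw [d1] at hbc h1 h2 hb4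
  have hx1 : x ≤ 3 / 2 := by nlinarith
  have hx0 : -(1 / 2) ≤ x := by nlinarith
  have hy2 : y ^ 2 ≤ (13049 / 10000) ^ 2 := by nlinarith
  rcases le_total (1 / 2) x with hx | hx
  · -- lower to distance one from `b`
    have hq : (x - 1) ^ 2 ≤ 1 / 4 := by nlinarith
    have hs0 : 0 ≤ Real.sqrt (1 - (x - 1) ^ 2) := Real.sqrt_nonneg _
    have hs : Real.sqrt (1 - (x - 1) ^ 2) ^ 2 = 1 - (x - 1) ^ 2 :=
      Real.sq_sqrt (by linarith)
    set y0 := Real.sqrt (1 - (x - 1) ^ 2)
    have hy0 : 0 < y0 := by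
      rcases hs0.lt_or_eq with h | h
      · exact h
      · exfalso
        rw [← h] at hs
        nlinarith
    have hyy : y0 ≤ y := by
      apply le_of_sq_le_sq _ hor.le
      linarith
    refine le_trans ?_ (lower hN hv le_rfl hs0 hyy ?_ ?_ ha4 hb4 (Or.inr ?_))
    · apply iso (by norm_num) (by norm_num)
      · rw [d0]; ring
      · rw [d1]; linarith
      · rw [d0]; nlinarith
      · rw [d0]; nlinarith
      · rw [ecr]; exact hy0
    · nlinarith
    · linarith
    · nlinarith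
  · -- lower to distance one from `a`
    have hq : x ^ 2 ≤ 1 / 4 := by nlinarith
    have hs0 : 0 ≤ Real.sqrt (1 - x ^ 2) := Real.sqrt_nonneg _
    have hs : Real.sqrt (1 - x ^ 2) ^ 2 = 1 - x ^ 2 :=
      Real.sq_sqrt (by linarith)
    set y0 := Real.sqrt (1 - x ^ 2)
    have hy0 : 0 < y0 := by
      rcases hs0.lt_or_eq with h | h
      · exact h
      · exfalso
        rw [← h] at hs
        nlinarith
    have hyy : y0 ≤ y := by
      apply le_of_sq_le_sq _ hor.le
      linarith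
    refine le_trans ?_ (lower hN hv le_rfl hs0 hyy ?_ ?_ ha4 hb4 (Or.inl ?_))
    · rw [ff_rot (1 / 18) X (P a v x y0) a (P a v 1 0)]
      apply iso (by norm_num) (by norm_num)
      · rw [d0']; linarith
      · rw [d0]; ring
      · rw [d1']; nlinarith
      · rw [d1']; nlinarith
      · have : cr (P a v x y0) a (P a v 1 0) = cr a (P a v 1 0) (P a v x y0) := by
          unfold cr
          ring
        rw [this, ecr]
        exact hy0
    · linarith
    · nlinarith
    · nlinarith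

/-- The shortest side is `a b`. -/
private theorem tri_short (hN : Num) {X : ℝ} {a b c o : Pt} (hor : 0 < cr a b c)
    (hab : 1 ≤ r2 (b - a)) (hbc : r2 (b - a) ≤ r2 (c - b)) (hca : r2 (b - a) ≤ r2 (c - a))
    (ho1 : r2 (a - o) = r2 (b - o)) (ho2 : r2 (b - o) = r2 (c - o)) (ho3 : r2 (c - o) ≤ 1)
    (hcr : cr a b c ≤ 13049 / 10000) : 0 ≤ ff (1 / 18) X a b c := by
  have hl1 : 1 ≤ Real.sqrt (r2 (b - a)) := by
    rw [Real.one_le_sqrt]
    exact hab
  have hl2 : Real.sqrt (r2 (b - a)) ^ 2 = r2 (b - a) := Real.sq_sqrt (by linarith)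
  set l := Real.sqrt (r2 (b - a)) with hl
  clear_value l
  obtain ⟨v, x, y, x', y', hv, rfl, rfl, rfl⟩ := exists_P (l := l) (by linarith) hl2.symm c o
  have d0 : ∀ x y : ℝ, r2 (P a v x y - a) = x ^ 2 + y ^ 2 := by
    intro x y
    have := P_dist (a := a) hv x y 0 0
    rw [P_zero] at this
    rw [this]
    ring
  have d0' : ∀ x y : ℝ, r2 (a - P a v x y) = x ^ 2 + y ^ 2 := by
    intro x y
    have := P_dist (a := a) hv 0 0 x y
    rw [P_zero] at this
    rw [this]
    ring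
  have ecr : ∀ x y : ℝ, cr a (P a v l 0) (P a v x y) = l * y := by
    intro x y
    have := P_cr (a := a) hv 0 0 l 0 x y
    rw [P_zero] at this
    rw [this]
    ring
  rw [ecr] at hor hcr
  rw [d0'] at ho1
  rw [d0] at hab hbc hca hl2
  rw [d0] at hca
  rw [P_dist hv] at hbc ho1 ho2 ho3
  rw [P_dist hv] at ho2
  have hl0 : 0 < l := by linarith
  have hy : 0 < y := (mul_pos_iff_of_pos_left hl0).1 hor
  -- the circumcentre
  have hx' : x' = l / 2 := by
    have : l * (2 * x' - l) = 0 := by linarith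
    rcases mul_eq_zero.1 this with h | h
    · linarith
    · linarith
  subst hx'
  have hc : l ^ 2 / 4 + y' ^ 2 = (x - l / 2) ^ 2 + (y - y') ^ 2 := by linarith
  have hxc : (x - l / 2) ^ 2 ≤ 1 := by linarith [sq_nonneg (y - y')]
  have hxa := abs_le.1 ((sq_le_one_iff_abs_le_one _).1 hxc)
  have hxu : x ≤ l / 2 + 1 := by linarith [hxa.2]
  have hxl : l / 2 - 1 ≤ x := by linarith [hxa.1]
  have hl3 : l ^ 2 ≤ 3 := by linarith [sq_nonneg (x - l / 2), sq_nonneg (y - 3 * y')]
  have ha4 : x ^ 2 + y ^ 2 ≤ 4 := by linarith [sq_nonneg (x - l), sq_nonneg (y - 2 * y')]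
  have hb4 : (x - l) ^ 2 + y ^ 2 ≤ 4 := by linarith [sq_nonneg x, sq_nonneg (y - 2 * y')]
  have hl12 : 1 ≤ l ^ 2 := by linarith
  have hly : (l * y) ^ 2 ≤ (13049 / 10000) ^ 2 := pow_le_pow_left₀ hor.le hcr 2
  have key : ∀ z : ℝ, z ^ 2 ≤ l ^ 2 / 4 → z ^ 2 + y ^ 2 ≤ 1953 / 1000 := by
    intro z hz
    have h1 : l ^ 2 * (z ^ 2 + y ^ 2) ≤ l ^ 2 * (1953 / 1000) := by
      have h2 : l ^ 2 * z ^ 2 ≤ l ^ 2 * (l ^ 2 / 4) := mul_le_mul_of_nonneg_left hz (by positivity)
      have h3 := mul_nonneg (sub_nonneg.2 hl12) (sub_nonneg.2 hl3)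
      linarith
    exact le_of_mul_le_mul_left h1 (by positivity)
  rcases le_total (l / 2) x with hx | hx
  · -- lower to distance one from `b`
    have hq : (x - l) ^ 2 ≤ l ^ 2 / 4 := by
      have h1 := mul_nonneg (sub_nonneg.2 hx) (show 0 ≤ 3 * l / 2 - x by linarith)
      linarith
    have hs0 : 0 ≤ Real.sqrt (1 - (x - l) ^ 2) := Real.sqrt_nonneg _
    have hy0 : 0 < Real.sqrt (1 - (x - l) ^ 2) := Real.sqrt_pos.2 (by linarith)
    have hs : Real.sqrt (1 - (x - l) ^ 2) ^ 2 = 1 - (x - l) ^ 2 :=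
      Real.sq_sqrt (by linarith)
    set y0 := Real.sqrt (1 - (x - l) ^ 2)
    clear_value y0
    have hyy : y0 ≤ y := by
      apply le_of_sq_le_sq _ hy.le
      linarith
    have hyy2 : y0 ^ 2 ≤ y ^ 2 := pow_le_pow_left₀ hs0 hyy 2
    have hp1 := mul_nonneg hl0.le (show 0 ≤ 2 * x - l by linarith)
    have hp2 := mul_nonneg hl0.le (show 0 ≤ l + 2 - 2 * x by linarith)
    have hp3 := sq_nonneg (l - 1)
    refine le_trans ?_ (lower hN hv hl1 hs0 hyy ?_ ?_ ha4 hb4 (Or.inr (key _ hq)))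
    · rw [← ff_rot (1 / 18) X a (P a v l 0) (P a v x y0)]
      have e1 : cr (P a v l 0) (P a v x y0) a = l * y0 := by
        rw [← ecr x y0]
        unfold cr
        ring
      apply tri_one hN
      · rw [e1]; positivity
      · rw [P_dist hv]; linarith
      · rw [d0']; linarith
      · rw [d0']; linarith
      · rw [d0', d0']; linarith
      · rw [d0', d0']; linarith
      · rw [d0']; linarith
      · rw [d0']; linarith
      · rw [e1]; linarith [mul_le_mul_of_nonneg_left hyy hl0.le]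
    · linarith
    · linarith
  · -- lower to distance one from `a`
    have hq : x ^ 2 ≤ l ^ 2 / 4 := by
      have h1 := mul_nonneg (sub_nonneg.2 hx) (show 0 ≤ x + l / 2 by linarith)
      linarith
    have hs0 : 0 ≤ Real.sqrt (1 - x ^ 2) := Real.sqrt_nonneg _
    have hy0 : 0 < Real.sqrt (1 - x ^ 2) := Real.sqrt_pos.2 (by linarith)
    have hs : Real.sqrt (1 - x ^ 2) ^ 2 = 1 - x ^ 2 :=
      Real.sq_sqrt (by linarith)
    set y0 := Real.sqrt (1 - x ^ 2)
    clear_value y0
    have hyy : y0 ≤ y := by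
      apply le_of_sq_le_sq _ hy.le
      linarith
    have hyy2 : y0 ^ 2 ≤ y ^ 2 := pow_le_pow_left₀ hs0 hyy 2
    have hp1 := mul_nonneg hl0.le (show 0 ≤ l - 2 * x by linarith)
    have hp2 := mul_nonneg hl0.le (show 0 ≤ x - l / 2 + 1 by linarith)
    have hp3 := sq_nonneg (l - 1)
    refine le_trans ?_ (lower hN hv hl1 hs0 hyy ?_ ?_ ha4 hb4 (Or.inl (key _ hq)))
    · rw [ff_rot (1 / 18) X (P a v x y0) a (P a v l 0)]
      have e1 : cr (P a v x y0) a (P a v l 0) = l * y0 := by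
        rw [← ecr x y0]
        unfold cr
        ring
      apply tri_one hN
      · rw [e1]; positivity
      · rw [d0']; linarith
      · rw [d0]; linarith
      · rw [P_dist hv]; linarith
      · rw [P_dist hv, d0]; linarith
      · rw [P_dist hv, d0]; linarith
      · rw [P_dist hv]; linarith
      · rw [d0]; linarith
      · rw [e1]; linarith [mul_le_mul_of_nonneg_left hyy hl0.le]
    · linarith
    · linarith

/-- All triangles with sides at least one and circumradius at most one. -/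
theorem tri_ineq (hN : Num) {X : ℝ} {a b c o : Pt} (hor : 0 < cr a b c) (hab : 1 ≤ r2 (b - a))
    (hbc : 1 ≤ r2 (c - b)) (hca : 1 ≤ r2 (a - c)) (ho1 : r2 (a - o) = r2 (b - o))
    (ho2 : r2 (b - o) = r2 (c - o)) (ho3 : r2 (c - o) ≤ 1) : 0 ≤ ff (1 / 18) X a b c := by
  have sw : ∀ p q : Pt, r2 (p - q) = r2 (q - p) := by
    intro p q
    simp only [r2, Prod.fst_sub, Prod.snd_sub]
    ring
  have r1 : cr b c a = cr a b c := by
    unfold cr
    ring
  have r2' : cr c a b = cr a b c := by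
    unfold cr
    ring
  rcases le_total (cr a b c) (13049 / 10000) with hcr | hcr
  · rcases le_total (r2 (b - a)) (r2 (c - b)) with h1 | h1
    · rcases le_total (r2 (b - a)) (r2 (a - c)) with h2 | h2
      · exact tri_short hN hor hab h1 (by rwa [sw c a]) ho1 ho2 ho3 hcr
      · rw [ff_rot (1 / 18) X c a b]
        exact tri_short hN (by rwa [r2']) hca h2 (by rw [sw b c]; exact h2.trans h1)
          (by rw [ho1, ho2]) ho1 (by rw [ho2]; exact ho3) (by rwa [r2'])
    · rcases le_total (r2 (c - b)) (r2 (a - c)) with h2 | h2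
      · rw [← ff_rot (1 / 18) X a b c]
        exact tri_short hN (by rwa [r1]) hbc h2 (by rw [sw a b]; exact h1)
          ho2 (by rw [ho1, ho2]) (by rw [ho1, ho2]; exact ho3) (by rwa [r1])
      · rw [ff_rot (1 / 18) X c a b]
        exact tri_short hN (by rwa [r2']) hca (h2.trans h1) (by rw [sw b c]; exact h2)
          (by rw [ho1, ho2]) ho1 (by rw [ho2]; exact ho3) (by rwa [r2'])
  · have e : ∀ p q : Pt, 1 ≤ r2 (q - p) → -(152 / 100) ≤ Ed X p q := by
      intro p q hpq
      have h1 := abs_Q_le hN hpq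
      have h2 := Real.abs_sin_le_one (kk * (p.2 + q.2) - X)
      have h3 : |Ed X p q| ≤ 152 / 100 := by
        unfold Ed
        rw [abs_mul]
        have := mul_le_mul h1 h2 (abs_nonneg _) (by norm_num)
        linarith
      exact (abs_le.1 h3).1
    have e1 := e a b hab
    have e2 := e b c hbc
    have e3 := e c a hca
    have hp := h0_pos
    have hs : h0 < 0.86604 := by nlinarith [h0_sq]
    have hh : 75334 / 100000 ≤ cr a b c / (2 * h0) := by
      rw [le_div_iff₀ (by positivity)]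
      linarith
    unfold ff
    linarith

end Pool.Agent.Strip051.Sine
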