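import Pool.Agent.Strip051.Sine.Ball

/-! # Verified values of sine and cosine -/

namespace Pool.Agent.Strip051.Sine

namespace Ball

/-- `1 - y / d₁ (1 - y / d₂ (...))`. -/
noncomputable def hornerR (y : ℝ) : List Int → ℝ
  | [] => 1
  | d :: ds => 1 - y * hornerR y ds / d

/-- `1 - y / d₁ (1 - y / d₂ (...))` with balls. -/
def horner (y : Ball) : List Int → Ball
  | [] => one
  | d :: ds => sub one (zdiv (mul y (horner y ds)) d)

def cosL : List Int := [2, 12, 30, 56, 90, 132, 182, 240, 306, 380, 462, 552, 650, 756, 870]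

def sinL : List Int := [6, 20, 42, 72, 110, 156, 210, 272, 342, 420, 506, 600, 702, 812, 930]

theorem has_horner {y : Ball} {x : ℝ} (h : Has y x) (l : List Int) (hl : ∀ d ∈ l, 0 < d) :
    Has (horner y l) (hornerR x l) := by
  induction l with
  | nil => exact has_one
  | cons d ds ih =>
    have h1 := ih fun e he => hl e (List.mem_cons_of_mem _ he)
    exact has_sub has_one (has_zdiv (hl d (by simp)) (has_mul h h1))

theorem exp_partial (z : ℝ) (n : ℕ) :
    ∑ m ∈ Finset.range (2 * n), ((z : ℂ) * Complex.I) ^ m / (m.factorial : ℂ) =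
      ((∑ k ∈ Finset.range n, (-1) ^ k * z ^ (2 * k) / ((2 * k).factorial : ℝ) : ℝ) : ℂ) +
      ((∑ k ∈ Finset.range n, (-1) ^ k * z ^ (2 * k + 1) / ((2 * k + 1).factorial : ℝ) : ℝ) : ℂ)
        * Complex.I := by
  induction n with
  | zero => simp
  | succ n ih =>
    have e : 2 * (n + 1) = 2 * n + 1 + 1 := by ring
    rw [e, Finset.sum_range_succ, Finset.sum_range_succ, ih, Finset.sum_range_succ,
      Finset.sum_range_succ]
    have e1 : ((z : ℂ) * Complex.I) ^ (2 * n) = (-1) ^ n * (z : ℂ) ^ (2 * n) := by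
      rw [mul_pow, pow_mul Complex.I, Complex.I_sq]
      ring
    have e2 : ((z : ℂ) * Complex.I) ^ (2 * n + 1) =
        (-1) ^ n * (z : ℂ) ^ (2 * n + 1) * Complex.I := by
      rw [pow_succ, e1]
      ring
    rw [e1, e2]
    push_cast
    ring

theorem hornerR_cos (z : ℝ) : hornerR (z ^ 2) cosL =
    ∑ k ∈ Finset.range 16, (-1) ^ k * z ^ (2 * k) / ((2 * k).factorial : ℝ) := by
  simp only [hornerR, cosL, Finset.sum_range_succ, Finset.sum_range_zero, Nat.factorial]
  push_cast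
  ring

theorem hornerR_sin (z : ℝ) : z * hornerR (z ^ 2) sinL =
    ∑ k ∈ Finset.range 16, (-1) ^ k * z ^ (2 * k + 1) / ((2 * k + 1).factorial : ℝ) := by
  simp only [hornerR, sinL, Finset.sum_range_succ, Finset.sum_range_zero, Nat.factorial]
  push_cast
  ring

theorem exp_taylor {z : ℝ} (hz : |z| ≤ 4) :
    ‖Complex.exp ((z : ℂ) * Complex.I) -
      (((hornerR (z ^ 2) cosL : ℝ) : ℂ) + ((z * hornerR (z ^ 2) sinL : ℝ) : ℂ) * Complex.I)‖ *
        10 ^ 15 ≤ 1 := by
  have hn : ‖(z : ℂ) * Complex.I‖ = |z| := by simp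
  have h1 := Complex.exp_bound' (x := (z : ℂ) * Complex.I) (n := 32) (by
    rw [hn]
    push_cast
    rw [div_le_iff₀ (by norm_num)]
    linarith)
  have h2 := exp_partial z 16
  rw [show 2 * 16 = 32 from rfl] at h2
  rw [h2, ← hornerR_cos, ← hornerR_sin, hn] at h1
  have h3 : |z| ^ 32 / ((32 : ℕ).factorial : ℝ) * 2 ≤ 4 ^ 32 / ((32 : ℕ).factorial : ℝ) * 2 := by
    have : |z| ^ 32 ≤ 4 ^ 32 := pow_le_pow_left₀ (abs_nonneg z) hz 32
    gcongr
  have h4 : (4 : ℝ) ^ 32 / ((32 : ℕ).factorial : ℝ) * 2 * 10 ^ 15 ≤ 1 := by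
    norm_num [Nat.factorial]
  have h5 := h1.trans h3
  have h6 := mul_le_mul_of_nonneg_right h5 (by positivity : (0 : ℝ) ≤ 10 ^ 15)
  exact h6.trans h4

theorem cos_taylor {z : ℝ} (hz : |z| ≤ 4) :
    |Real.cos z - hornerR (z ^ 2) cosL| * 10 ^ 15 ≤ 1 := by
  refine le_trans ?_ (exp_taylor hz)
  apply mul_le_mul_of_nonneg_right _ (by positivity)
  refine le_trans (le_of_eq ?_) (Complex.abs_re_le_norm _)
  congr 1
  simp [Complex.exp_ofReal_mul_I_re]

theorem sin_taylor {z : ℝ} (hz : |z| ≤ 4) :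
    |Real.sin z - z * hornerR (z ^ 2) sinL| * 10 ^ 15 ≤ 1 := by
  refine le_trans ?_ (exp_taylor hz)
  apply mul_le_mul_of_nonneg_right _ (by positivity)
  refine le_trans (le_of_eq ?_) (Complex.abs_im_le_norm _)
  congr 1
  simp [Complex.exp_ofReal_mul_I_im]

/-- Ball value of the cosine. -/
def cosB (z : Ball) : Ball :=
  let h := horner (mul z z) cosL
  ⟨h.c, h.r + 1⟩

/-- Ball value of the sine. -/
def sinB (z : Ball) : Ball :=
  let h := mul z (horner (mul z z) sinL)
  ⟨h.c, h.r + 1⟩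

theorem has_cosB {z : Ball} {x : ℝ} (h : Has z x) (hx : |x| ≤ 4) : Has (cosB z) (Real.cos x) := by
  have h1 : Has (horner (mul z z) cosL) (hornerR (x ^ 2) cosL) := by
    rw [sq]
    exact has_horner (has_mul h h) _ (by decide)
  exact h1.widen (by
    rw [Int.cast_one]
    exact cos_taylor hx)

theorem has_sinB {z : Ball} {x : ℝ} (h : Has z x) (hx : |x| ≤ 4) : Has (sinB z) (Real.sin x) := by
  have h1 : Has (mul z (horner (mul z z) sinL)) (x * hornerR (x ^ 2) sinL) := by
    rw [sq]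
    exact has_mul h (has_horner (has_mul h h) _ (by decide))
  exact h1.widen (by
    rw [Int.cast_one]
    exact sin_taylor hx)

end Ball

end Pool.Agent.Strip051.Sine
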